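import Mathlib

/-!
# A structured stack language compiled to `Turing.FinTM2`

The command language `Cmd` works on stacks of Booleans indexed by natural numbers. `Run c s s' n`
says that `c` transforms the state `s` to `s'` in `n` steps. Programs are compiled to machines of
the type `Turing.FinTM2` whose labels are lists of commands still to be executed.
-/

open Turing Function

namespace Pool.Agent.Helper91.PolyTime

/-- Commands on stacks of Booleans. -/
inductive Cmd
  /-- do nothing -/
  | skip
  /-- push a Boolean -/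
  | push (k : ℕ) (b : Bool)
  /-- pop a stack and branch: `e` if it was empty, `t` if `true` was popped, `f` if `false` -/
  | pop (k : ℕ) (e t f : Cmd)
  /-- sequential composition -/
  | seq (c d : Cmd)
  /-- while stack `k` is nonempty, pop it and run `t` or `f` -/
  | loop (k : ℕ) (t f : Cmd)

/-- States: the contents of all stacks. -/
abbrev St := ℕ → List Bool

/-- Big-step semantics with time. -/
inductive Run : Cmd → St → St → ℕ → Prop
  | skip (s : St) : Run .skip s s 1
  | push (k : ℕ) (b : Bool) (s : St) : Run (.push k b) s (update s k (b :: s k)) 1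
  | pop_nil {k : ℕ} {e t f : Cmd} {s s' : St} {n : ℕ} (h : s k = []) (h' : Run e s s' n) :
      Run (.pop k e t f) s s' (n + 1)
  | pop_true {k : ℕ} {e t f : Cmd} {s s' : St} {n : ℕ} {l : List Bool} (h : s k = true :: l)
      (h' : Run t (update s k l) s' n) : Run (.pop k e t f) s s' (n + 1)
  | pop_false {k : ℕ} {e t f : Cmd} {s s' : St} {n : ℕ} {l : List Bool} (h : s k = false :: l)
      (h' : Run f (update s k l) s' n) : Run (.pop k e t f) s s' (n + 1)
  | seq {c d : Cmd} {s s' s'' : St} {n m : ℕ} (h : Run c s s' n) (h' : Run d s' s'' m) :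
      Run (.seq c d) s s'' (n + m + 1)
  | loop_nil {k : ℕ} {t f : Cmd} {s : St} (h : s k = []) : Run (.loop k t f) s s 1
  | loop_true {k : ℕ} {t f : Cmd} {s s' s'' : St} {n m : ℕ} {l : List Bool} (h : s k = true :: l)
      (h' : Run t (update s k l) s' n) (h'' : Run (.loop k t f) s' s'' m) :
      Run (.loop k t f) s s'' (n + m + 1)
  | loop_false {k : ℕ} {t f : Cmd} {s s' s'' : St} {n m : ℕ} {l : List Bool}
      (h : s k = false :: l) (h' : Run f (update s k l) s' n) (h'' : Run (.loop k t f) s' s'' m) :
      Run (.loop k t f) s s'' (n + m + 1)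

/-- All stacks named in the command are below `m`. -/
def Cmd.Below (m : ℕ) : Cmd → Prop
  | .skip => True
  | .push k _ => k < m
  | .pop k e t f => k < m ∧ e.Below m ∧ t.Below m ∧ f.Below m
  | .seq c d => c.Below m ∧ d.Below m
  | .loop k t f => k < m ∧ t.Below m ∧ f.Below m

lemma Cmd.Below.mono {m m' : ℕ} (h : m ≤ m') : ∀ {c : Cmd}, c.Below m → c.Below m'
  | .skip, _ => trivial
  | .push _ _, hc => lt_of_lt_of_le hc h
  | .pop _ _ _ _, ⟨h1, h2, h3, h4⟩ => ⟨lt_of_lt_of_le h1 h, h2.mono h, h3.mono h, h4.mono h⟩
  | .seq _ _, ⟨h1, h2⟩ => ⟨h1.mono h, h2.mono h⟩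
  | .loop _ _ _, ⟨h1, h2, h3⟩ => ⟨lt_of_lt_of_le h1 h, h2.mono h, h3.mono h⟩

/-- The continuations that can occur while executing `c` with rest `κ`. -/
def conts : Cmd → List Cmd → Set (List Cmd)
  | .skip, κ => {.skip :: κ}
  | .push k b, κ => {.push k b :: κ}
  | .pop k e t f, κ => {.pop k e t f :: κ} ∪ (conts e κ ∪ (conts t κ ∪ conts f κ))
  | .seq c d, κ => {.seq c d :: κ} ∪ (conts c (d :: κ) ∪ conts d κ)
  | .loop k t f, κ =>
      {.loop k t f :: κ} ∪ (conts t (.loop k t f :: κ) ∪ conts f (.loop k t f :: κ))

lemma conts_finite : ∀ (c : Cmd) (κ : List Cmd), (conts c κ).Finite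
  | .skip, _ => Set.finite_singleton _
  | .push _ _, _ => Set.finite_singleton _
  | .pop _ _ _ _, _ => (Set.finite_singleton _).union ((conts_finite _ _).union
      ((conts_finite _ _).union (conts_finite _ _)))
  | .seq _ _, _ => (Set.finite_singleton _).union ((conts_finite _ _).union (conts_finite _ _))
  | .loop _ _ _, _ =>
      (Set.finite_singleton _).union ((conts_finite _ _).union (conts_finite _ _))

lemma self_mem_conts (c : Cmd) (κ : List Cmd) : c :: κ ∈ conts c κ := by
  cases c <;> simp [conts]

/-- The continuations of a program. -/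
def reach (P : Cmd) : Set (List Cmd) := {[]} ∪ conts P []

lemma reach_finite (P : Cmd) : (reach P).Finite :=
  (Set.finite_singleton _).union (conts_finite _ _)

section machine

variable (m : ℕ) (Γ₀ : Type) [Fintype Γ₀] (P : Cmd)

/-- The index type of the stacks of the machine: the input stack and the work stacks. -/
abbrev MK : Type := Option (Fin (m + 3))

/-- The alphabets of the stacks. -/
abbrev MΓ : MK m → Type
  | none => Γ₀
  | some _ => Bool

/-- The labels of the machine. -/
abbrev MΛ : Type := Option (Option Γ₀) ⊕ ↥(reach P)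

/-- The internal states of the machine. -/
abbrev Mσ : Type := Option (Γ₀ ⊕ Bool)

noncomputable instance : Fintype ↥(reach P) := (reach_finite P).fintype

/-- The name of a work stack. -/
abbrev nm (k : ℕ) : MK m := some (Fin.ofNat (m + 3) k)

variable {P} in
/-- The label of a continuation. -/
noncomputable def lab (κ : List Cmd) : MΛ Γ₀ P :=
  open Classical in
  if h : κ ∈ reach P then Sum.inr ⟨κ, h⟩ else Sum.inl none

/-- Statements of the machine. -/
abbrev MStmt : Type := TM2.Stmt (MΓ m Γ₀) (MΛ Γ₀ P) (Mσ Γ₀)

/-- The statement that pops a work stack and jumps. -/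
noncomputable def popStmt (k : ℕ) (e t f : List Cmd) : MStmt m Γ₀ P :=
  .pop (nm m k) (fun _ a => a.map Sum.inr)
    (.goto fun v => match v with
      | some (Sum.inr true) => lab Γ₀ t
      | some (Sum.inr false) => lab Γ₀ f
      | _ => lab Γ₀ e)

/-- The statement executed for a continuation. -/
noncomputable def contStmt : List Cmd → MStmt m Γ₀ P
  | [] => .load (fun _ => none) .halt
  | .skip :: κ => .goto fun _ => lab Γ₀ κ
  | .push k b :: κ => .push (nm m k) (fun _ => (b : Bool)) (.goto fun _ => lab Γ₀ κ)
  | .pop k e t f :: κ => popStmt m Γ₀ P k (e :: κ) (t :: κ) (f :: κ)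
  | .seq c d :: κ => .goto fun _ => lab Γ₀ (c :: d :: κ)
  | .loop k t f :: κ => popStmt m Γ₀ P k κ (t :: .loop k t f :: κ) (f :: .loop k t f :: κ)

/-- Push a list of bits, then jump. -/
def pushList (k : MK m) (hk : MΓ m Γ₀ k = Bool) : List Bool → MStmt m Γ₀ P → MStmt m Γ₀ P
  | [], q => q
  | b :: l, q => .push k (fun _ => cast hk.symm b) (pushList k hk l q)

variable (code : Γ₀ → List Bool)

/-- The program of the machine. -/
noncomputable def prog : MΛ Γ₀ P → MStmt m Γ₀ P
  | Sum.inl none => .pop none (fun _ a => a.map Sum.inl)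
      (.goto fun v => match v with
        | some (Sum.inl a) => Sum.inl (some (some a))
        | _ => Sum.inl (some none))
  | Sum.inl (some (some a)) =>
      pushList m Γ₀ P (nm m 2) rfl (code a) (.goto fun _ => Sum.inl none)
  | Sum.inl (some none) => .pop (nm m 2) (fun _ a => a.map Sum.inr)
      (.branch (fun v => v.isSome)
        (.push (nm m 0) (fun v => match v with
          | some (Sum.inr b) => (b : Bool)
          | _ => false) (.goto fun _ => Sum.inl (some none)))
        (.goto fun _ => lab Γ₀ [P]))
  | Sum.inr κ => contStmt m Γ₀ P κ.1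

/-- The machine. -/
noncomputable def machine : FinTM2 where
  K := MK m
  k₀ := none
  k₁ := nm m 1
  Γ := MΓ m Γ₀
  Λ := MΛ Γ₀ P
  main := Sum.inl none
  σ := Mσ Γ₀
  initialState := none
  Γk₀Fin := inferInstanceAs (Fintype Γ₀)
  m := prog m Γ₀ P code

end machine

end Pool.Agent.Helper91.PolyTime
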