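import Mathlib
import Pool.Agent.Helper91.PolyTime.Machine

/-!
# Correctness of the compiler
-/

open Turing Function

set_option backward.isDefEq.respectTransparency false

namespace Pool.Agent.Helper91.PolyTime

/-- Exactly `n` steps lead from `a` to `b`. -/
def Steps {σ : Type*} (f : σ → Option σ) (a b : σ) (n : ℕ) : Prop :=
  (flip bind f)^[n] (some a) = some b

lemma Steps.refl {σ : Type*} (f : σ → Option σ) (a : σ) : Steps f a a 0 := rfl

lemma Steps.trans {σ : Type*} {f : σ → Option σ} {a b c : σ} {n k : ℕ} (h : Steps f a b n)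
    (h' : Steps f b c k) : Steps f a c (n + k) := by
  unfold Steps at *
  rw [Nat.add_comm, iterate_add_apply, h, h']

lemma Steps.single {σ : Type*} {f : σ → Option σ} {a b : σ} (h : f a = some b) :
    Steps f a b 1 := by
  unfold Steps
  simpa [flip] using h

lemma Steps.head {σ : Type*} {f : σ → Option σ} {a b c : σ} {n : ℕ} (h : f a = some b)
    (h' : Steps f b c n) : Steps f a c (n + 1) := by
  rw [Nat.add_comm]; exact (Steps.single h).trans h'

section

variable {m : ℕ} {Γ₀ : Type} [Fintype Γ₀] {P : Cmd} {code : Γ₀ → List Bool}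

/-- The stacks of the machine. -/
def stk (m : ℕ) (inp : List Γ₀) (s : St) : ∀ k : MK m, List (MΓ m Γ₀ k)
  | none => inp
  | some i => s i

omit [Fintype Γ₀] in
lemma stk_nm (inp : List Γ₀) (s : St) {k : ℕ} (hk : k < m + 3) :
    stk m inp s (nm m k) = s k := by
  simp [stk, nm, Fin.ofNat, Nat.mod_eq_of_lt hk]

omit [Fintype Γ₀] in
lemma stk_update (inp : List Γ₀) (s : St) {k : ℕ} (hk : k < m + 3) (l : List Bool) :
    update (stk m inp s) (nm m k) l = stk m inp (update s k l) := by
  funext j
  cases j with
  | none => rfl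
  | some i =>
    by_cases h : i = Fin.ofNat (m + 3) k
    · subst h
      have h2 : (Fin.ofNat (m + 3) k : ℕ) = k := by simp [Fin.ofNat, Nat.mod_eq_of_lt hk]
      change update (stk m inp s) (nm m k) l (nm m k) = update s k l (Fin.ofNat (m + 3) k : ℕ)
      rw [update_self, h2, update_self]
    · have h1 : (some i : MK m) ≠ nm m k := fun h' => h (Option.some_injective _ h')
      have h2 : (i : ℕ) ≠ k := by
        intro h'
        apply h
        apply Fin.ext
        simp [Fin.ofNat, Nat.mod_eq_of_lt hk, h']
      rw [update_of_ne h1]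
      change s i = update s k l i
      rw [update_of_ne h2]

lemma step_lab {κ : List Cmd} (hκ : κ ∈ reach P) (v : Mσ Γ₀) (S : ∀ k : MK m, List (MΓ m Γ₀ k)) :
    TM2.step (prog m Γ₀ P code) ⟨some (lab Γ₀ κ), v, S⟩ =
      some (TM2.stepAux (contStmt m Γ₀ P κ) v S) := by
  unfold lab
  rw [dif_pos hκ]
  rfl

/-- Pop statement on an empty stack. -/
lemma step_pop_nil {κ : List Cmd} {k : ℕ} {e t f : List Cmd} (hκ : κ ∈ reach P)
    (hstmt : contStmt m Γ₀ P κ = popStmt m Γ₀ P k e t f) (hk : k < m + 3) {s : St}
    (hs : s k = []) (inp : List Γ₀) (v : Mσ Γ₀) :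
    TM2.step (prog m Γ₀ P code) ⟨some (lab Γ₀ κ), v, stk m inp s⟩ =
      some ⟨some (lab Γ₀ e), none, stk m inp s⟩ := by
  rw [step_lab hκ, hstmt]
  unfold popStmt
  simp only [TM2.stepAux]
  rw [stk_nm inp s hk, hs]
  simp only [List.head?_nil, Option.map_none, List.tail_nil]
  rw [stk_update inp s hk, ← hs, update_eq_self]

/-- Pop statement with `true` on top. -/
lemma step_pop_true {κ : List Cmd} {k : ℕ} {e t f : List Cmd} (hκ : κ ∈ reach P)
    (hstmt : contStmt m Γ₀ P κ = popStmt m Γ₀ P k e t f) (hk : k < m + 3) {s : St}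
    {l : List Bool} (hs : s k = true :: l) (inp : List Γ₀) (v : Mσ Γ₀) :
    TM2.step (prog m Γ₀ P code) ⟨some (lab Γ₀ κ), v, stk m inp s⟩ =
      some ⟨some (lab Γ₀ t), some (Sum.inr true), stk m inp (update s k l)⟩ := by
  rw [step_lab hκ, hstmt]
  unfold popStmt
  simp only [TM2.stepAux]
  rw [stk_nm inp s hk, hs]
  simp only [List.head?_cons, Option.map_some, List.tail_cons]
  rw [stk_update inp s hk]

/-- Pop statement with `false` on top. -/
lemma step_pop_false {κ : List Cmd} {k : ℕ} {e t f : List Cmd} (hκ : κ ∈ reach P)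
    (hstmt : contStmt m Γ₀ P κ = popStmt m Γ₀ P k e t f) (hk : k < m + 3) {s : St}
    {l : List Bool} (hs : s k = false :: l) (inp : List Γ₀) (v : Mσ Γ₀) :
    TM2.step (prog m Γ₀ P code) ⟨some (lab Γ₀ κ), v, stk m inp s⟩ =
      some ⟨some (lab Γ₀ f), some (Sum.inr false), stk m inp (update s k l)⟩ := by
  rw [step_lab hκ, hstmt]
  unfold popStmt
  simp only [TM2.stepAux]
  rw [stk_nm inp s hk, hs]
  simp only [List.head?_cons, Option.map_some, List.tail_cons]
  rw [stk_update inp s hk]

lemma run_steps {c : Cmd} {s s' : St} {n : ℕ} (h : Run c s s' n) :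
    ∀ (κ : List Cmd), conts c κ ⊆ reach P → κ ∈ reach P → c.Below (m + 3) →
      ∀ (v : Mσ Γ₀) (inp : List Γ₀), ∃ v' : Mσ Γ₀,
        Steps (TM2.step (prog m Γ₀ P code)) ⟨some (lab Γ₀ (c :: κ)), v, stk m inp s⟩
          ⟨some (lab Γ₀ κ), v', stk m inp s'⟩ n := by
  induction h with
  | skip s =>
    intro κ hc hκ hb v inp
    refine ⟨v, Steps.single ?_⟩
    rw [step_lab (hc (self_mem_conts _ _))]
    rfl
  | push k b s =>
    intro κ hc hκ hb v inp
    refine ⟨v, Steps.single ?_⟩
    rw [step_lab (hc (self_mem_conts _ _))]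
    simp only [contStmt, TM2.stepAux]
    rw [stk_nm inp s hb, stk_update inp s hb]
  | @pop_nil k e t f s s' n hs h' ih =>
    intro κ hc hκ hb v inp
    have hsub : conts e κ ⊆ reach P := fun x hx => hc (by simp [conts, hx])
    obtain ⟨v', hv'⟩ := ih κ hsub hκ hb.2.1 none inp
    exact ⟨v', Steps.head (step_pop_nil (hc (self_mem_conts _ _)) rfl hb.1 hs inp v) hv'⟩
  | @pop_true k e t f s s' n l hs h' ih =>
    intro κ hc hκ hb v inp
    have hsub : conts t κ ⊆ reach P := fun x hx => hc (by simp [conts, hx])
    obtain ⟨v', hv'⟩ := ih κ hsub hκ hb.2.2.1 _ inp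
    exact ⟨v', Steps.head (step_pop_true (hc (self_mem_conts _ _)) rfl hb.1 hs inp v) hv'⟩
  | @pop_false k e t f s s' n l hs h' ih =>
    intro κ hc hκ hb v inp
    have hsub : conts f κ ⊆ reach P := fun x hx => hc (by simp [conts, hx])
    obtain ⟨v', hv'⟩ := ih κ hsub hκ hb.2.2.2 _ inp
    exact ⟨v', Steps.head (step_pop_false (hc (self_mem_conts _ _)) rfl hb.1 hs inp v) hv'⟩
  | @seq c d s s' s'' n k h h' ih ih' =>
    intro κ hc hκ hb v inp
    have hsub1 : conts c (d :: κ) ⊆ reach P := fun x hx => hc (by simp [conts, hx])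
    have hsub2 : conts d κ ⊆ reach P := fun x hx => hc (by simp [conts, hx])
    obtain ⟨v1, hv1⟩ := ih (d :: κ) hsub1 (hsub2 (self_mem_conts _ _)) hb.1 v inp
    obtain ⟨v2, hv2⟩ := ih' κ hsub2 hκ hb.2 v1 inp
    refine ⟨v2, Steps.head ?_ (hv1.trans hv2)⟩
    rw [step_lab (hc (self_mem_conts _ _))]
    rfl
  | @loop_nil k t f s hs =>
    intro κ hc hκ hb v inp
    exact ⟨none, Steps.single (step_pop_nil (hc (self_mem_conts _ _)) rfl hb.1 hs inp v)⟩
  | @loop_true k t f s s' s'' n j l hs h' h'' ih ih' =>
    intro κ hc hκ hb v inp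
    have hmem := hc (self_mem_conts (.loop k t f) κ)
    have hsub : conts t (.loop k t f :: κ) ⊆ reach P := fun x hx => hc (by simp [conts, hx])
    obtain ⟨v1, hv1⟩ := ih _ hsub hmem hb.2.1 (some (Sum.inr true)) inp
    obtain ⟨v2, hv2⟩ := ih' κ hc hκ hb v1 inp
    exact ⟨v2, Steps.head (step_pop_true hmem rfl hb.1 hs inp v) (hv1.trans hv2)⟩
  | @loop_false k t f s s' s'' n j l hs h' h'' ih ih' =>
    intro κ hc hκ hb v inp
    have hmem := hc (self_mem_conts (.loop k t f) κ)
    have hsub : conts f (.loop k t f :: κ) ⊆ reach P := fun x hx => hc (by simp [conts, hx])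
    obtain ⟨v1, hv1⟩ := ih _ hsub hmem hb.2.2 (some (Sum.inr false)) inp
    obtain ⟨v2, hv2⟩ := ih' κ hc hκ hb v1 inp
    exact ⟨v2, Steps.head (step_pop_false hmem rfl hb.1 hs inp v) (hv1.trans hv2)⟩

/-- Pushing a list of bits within one step. -/
lemma stepAux_pushList (inp : List Γ₀) {k : ℕ} (hk : k < m + 3) (q : MStmt m Γ₀ P) (v : Mσ Γ₀) :
    ∀ (l : List Bool) (s : St),
      TM2.stepAux (pushList m Γ₀ P (nm m k) rfl l q) v (stk m inp s) =
        TM2.stepAux q v (stk m inp (update s k (l.reverse ++ s k)))
  | [], s => by simp [pushList]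
  | b :: l, s => by
    simp only [pushList, TM2.stepAux, cast_eq]
    rw [stk_nm inp s hk, stk_update inp s hk, stepAux_pushList inp hk q v l]
    simp

/-- Reading the input. -/
lemma steps_read (P : Cmd) (code : Γ₀ → List Bool) : ∀ (inp : List Γ₀) (s : St) (v : Mσ Γ₀),
    ∃ v' : Mσ Γ₀, Steps (TM2.step (prog m Γ₀ P code)) ⟨some (Sum.inl none), v, stk m inp s⟩
      ⟨some (Sum.inl (some none)), v',
        stk m [] (update s 2 ((inp.flatMap code).reverse ++ s 2))⟩ (2 * inp.length + 1)
  | [], s, v => by
    refine ⟨none, Steps.single ?_⟩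
    simp only [TM2.step, prog, TM2.stepAux]
    congr 2
    funext k
    cases k with
    | none => rfl
    | some i =>
      rw [update_of_ne (by simp)]
      simp
  | a :: inp, s, v => by
    obtain ⟨v', hv'⟩ := steps_read P code inp (update s 2 ((code a).reverse ++ s 2))
      (some (Sum.inl a))
    refine ⟨v', ?_⟩
    have h1 : TM2.step (prog m Γ₀ P code) ⟨some (Sum.inl none), v, stk m (a :: inp) s⟩ =
        some ⟨some (Sum.inl (some (some a))), some (Sum.inl a), stk m inp s⟩ := by
      simp only [TM2.step, prog, TM2.stepAux]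
      congr 2
      funext k
      cases k with
      | none => rfl
      | some i =>
        rw [update_of_ne (by simp)]
        rfl
    have h2 : TM2.step (prog m Γ₀ P code)
        ⟨some (Sum.inl (some (some a))), some (Sum.inl a), stk m inp s⟩ =
        some ⟨some (Sum.inl none), some (Sum.inl a),
          stk m inp (update s 2 ((code a).reverse ++ s 2))⟩ := by
      simp only [TM2.step, prog]
      rw [stepAux_pushList inp (by omega)]
      rfl
    have h3 := Steps.head h1 (Steps.head h2 hv')
    have e1 : update (update s 2 ((code a).reverse ++ s 2)) 2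
        ((inp.flatMap code).reverse ++ update s 2 ((code a).reverse ++ s 2) 2) =
        update s 2 (((a :: inp).flatMap code).reverse ++ s 2) := by
      simp
    rw [e1] at h3
    have e2 : 2 * (a :: inp).length + 1 = 2 * inp.length + 1 + 1 + 1 := by
      simp only [List.length_cons]; ring
    rw [e2]
    exact h3

/-- Transferring the decoded input to the first work stack. -/
lemma steps_transfer (P : Cmd) (code : Γ₀ → List Bool) : ∀ (l : List Bool) (s : St) (v : Mσ Γ₀),
    s 2 = l → ∃ v' : Mσ Γ₀, Steps (TM2.step (prog m Γ₀ P code))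
      ⟨some (Sum.inl (some none)), v, stk m [] s⟩
      ⟨some (lab Γ₀ [P]), v', stk m [] (update (update s 2 []) 0 (l.reverse ++ s 0))⟩
      (l.length + 1)
  | [], s, v, hs => by
    refine ⟨none, Steps.single ?_⟩
    simp only [TM2.step, prog, TM2.stepAux]
    rw [stk_nm _ _ (by omega), hs]
    simp only [List.head?_nil, Option.map_none, Option.isSome_none, cond_false, List.tail_nil,
      List.reverse_nil, List.nil_append]
    rw [stk_update _ _ (by omega)]
    congr 3
    funext i
    by_cases h : i = 0
    · subst h; simp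
    · rw [update_of_ne h]
  | b :: l, s, v, hs => by
    obtain ⟨v', hv'⟩ := steps_transfer P code l (update (update s 2 l) 0 (b :: s 0))
      (some (Sum.inr b)) (by simp)
    refine ⟨v', ?_⟩
    have h1 : TM2.step (prog m Γ₀ P code) ⟨some (Sum.inl (some none)), v, stk m [] s⟩ =
        some ⟨some (Sum.inl (some none)), some (Sum.inr b),
          stk m [] (update (update s 2 l) 0 (b :: s 0))⟩ := by
      simp only [TM2.step, prog, TM2.stepAux]
      rw [stk_nm _ _ (by omega), hs]
      simp only [List.head?_cons, Option.map_some, Option.isSome_some, cond_true, List.tail_cons]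
      rw [stk_update _ _ (by omega), stk_nm _ _ (by omega), stk_update _ _ (by omega)]
      simp
    have h2 := Steps.head h1 hv'
    have e1 : update (update (update (update s 2 l) 0 (b :: s 0)) 2 []) 0
        (l.reverse ++ update (update s 2 l) 0 (b :: s 0) 0) =
        update (update s 2 []) 0 ((b :: l).reverse ++ s 0) := by
      funext i
      by_cases h0 : i = 0
      · subst h0; simp
      by_cases h2 : i = 2
      · subst h2; simp
      simp [update_of_ne h0, update_of_ne h2]
    rw [e1] at h2
    exact h2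

/-- The empty state. -/
def St.empty : St := fun _ => []

/-- The state whose only nonempty stack is `k`. -/
def St.one (k : ℕ) (l : List Bool) : St := update St.empty k l

/-- The run of the compiled machine. -/
theorem machine_outputs (P : Cmd) (hP : P.Below (m + 3)) (code : Γ₀ → List Bool)
    (inp : List Γ₀) (out : List Bool) (n : ℕ)
    (hrun : Run P (St.one 0 (inp.flatMap code)) (St.one 1 out) n) :
    Steps (machine m Γ₀ P code).step (initList (machine m Γ₀ P code) inp)
      (haltList (machine m Γ₀ P code) out)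
      (2 * inp.length + 1 + ((inp.flatMap code).length + 1) + n + 1) := by
  obtain ⟨v1, h1⟩ := steps_read (m := m) P code inp St.empty none
  obtain ⟨v2, h2⟩ := steps_transfer (m := m) P code (inp.flatMap code).reverse
    (update St.empty 2 ((inp.flatMap code).reverse ++ St.empty 2)) v1 (by simp [St.empty])
  have e1 : update (update (update St.empty 2 ((inp.flatMap code).reverse ++ St.empty 2)) 2 []) 0
      ((inp.flatMap code).reverse.reverse ++
        update St.empty 2 ((inp.flatMap code).reverse ++ St.empty 2) 0) =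
      St.one 0 (inp.flatMap code) := by
    funext i
    by_cases h0 : i = 0
    · subst h0; simp [St.one, St.empty]
    by_cases h2 : i = 2
    · subst h2; simp [St.one, St.empty]
    simp [St.one, update_of_ne h0, update_of_ne h2]
  rw [e1] at h2
  have hsub : conts P [] ⊆ reach P := fun x hx => Or.inr hx
  have hnil : ([] : List Cmd) ∈ reach P := Or.inl rfl
  obtain ⟨v3, h3⟩ := run_steps (m := m) (Γ₀ := Γ₀) (code := code) hrun [] hsub hnil hP v2 []
  have h4 : TM2.step (prog m Γ₀ P code) ⟨some (lab Γ₀ []), v3, stk m [] (St.one 1 out)⟩ =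
      some ⟨none, none, stk m [] (St.one 1 out)⟩ := by
    rw [step_lab hnil]
    rfl
  have h5 := ((h1.trans h2).trans h3).trans (Steps.single h4)
  have einit : initList (machine m Γ₀ P code) inp =
      (⟨some (Sum.inl none), none, stk m inp St.empty⟩ : TM2.Cfg _ _ _) := by
    unfold initList
    congr 1
    funext k
    cases k with
    | none => rfl
    | some i => rfl
  have ehalt : haltList (machine m Γ₀ P code) out =
      (⟨none, none, stk m [] (St.one 1 out)⟩ : TM2.Cfg _ _ _) := by
    unfold haltList
    congr 1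
    funext k
    cases k with
    | none => rfl
    | some i =>
      by_cases h : i = Fin.ofNat (m + 3) 1
      · subst h
        have h1 : (Fin.ofNat (m + 3) 1 : ℕ) = 1 := by
          simp [Fin.ofNat]
        change _ = St.one 1 out (Fin.ofNat (m + 3) 1 : ℕ)
        refine Eq.trans (dif_pos rfl) ?_
        rw [h1]
        simp [St.one]
      · have h1 : (some i : MK m) ≠ nm m 1 := fun h' => h (Option.some_injective _ h')
        have h2 : (i : ℕ) ≠ 1 := by
          intro h'
          apply h
          apply Fin.ext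
          simp [Fin.ofNat, h']
        refine Eq.trans (dif_neg h1) ?_
        change _ = St.one 1 out i
        simp [St.one, update_of_ne h2, St.empty]
  rw [einit, ehalt]
  have elen : 2 * inp.length + 1 + ((inp.flatMap code).reverse.length + 1) + n + 1 =
      2 * inp.length + 1 + ((inp.flatMap code).length + 1) + n + 1 := by simp
  rw [← elen]
  exact h5

end

end Pool.Agent.Helper91.PolyTime
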