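import Mathlib
import Pool.Agent.Helper91.PolyTime.Correct

/-!
# Polynomial-time computable functions on strings: closure properties
-/

open Turing Function

namespace Pool.Agent.Helper91.PolyTime

/-! ## Polynomials with natural coefficients -/

lemma eval_mono (p : Polynomial ℕ) {a b : ℕ} (h : a ≤ b) : p.eval a ≤ p.eval b := by
  rw [Polynomial.eval_eq_sum, Polynomial.eval_eq_sum]
  exact Finset.sum_le_sum fun i _ => Nat.mul_le_mul_left _ (Nat.pow_le_pow_left h i)

/-! ## Runs in bounded time -/

/-- `c` transforms `s` to `s'` in at most `n` steps. -/
def RunLE (c : Cmd) (s s' : St) (n : ℕ) : Prop := ∃ k ≤ n, Run c s s' k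

lemma RunLE.mono {c : Cmd} {s s' : St} {n m : ℕ} (h : RunLE c s s' n) (hnm : n ≤ m) :
    RunLE c s s' m := by
  obtain ⟨k, hk, hr⟩ := h
  exact ⟨k, hk.trans hnm, hr⟩

lemma RunLE.congr {c : Cmd} {s s' s'' : St} {n : ℕ} (h : RunLE c s s' n) (he : s' = s'') :
    RunLE c s s'' n := he ▸ h

lemma RunLE.congr' {c : Cmd} {s s' s'' : St} {n m : ℕ} (h : RunLE c s s' n) (he : s' = s'')
    (hnm : n ≤ m) : RunLE c s s'' m := (he ▸ h).mono hnm

lemma RunLE.skip (s : St) : RunLE .skip s s 1 := ⟨1, le_rfl, Run.skip s⟩

lemma RunLE.push (k : ℕ) (b : Bool) (s : St) : RunLE (.push k b) s (update s k (b :: s k)) 1 :=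
  ⟨1, le_rfl, Run.push k b s⟩

lemma RunLE.seq {c d : Cmd} {s s' s'' : St} {n m : ℕ} (h : RunLE c s s' n)
    (h' : RunLE d s' s'' m) : RunLE (.seq c d) s s'' (n + m + 1) := by
  obtain ⟨k, hk, hr⟩ := h
  obtain ⟨l, hl, hr'⟩ := h'
  exact ⟨k + l + 1, by omega, Run.seq hr hr'⟩

lemma RunLE.pop_nil {k : ℕ} {e t f : Cmd} {s s' : St} {n : ℕ} (h : s k = [])
    (h' : RunLE e s s' n) : RunLE (.pop k e t f) s s' (n + 1) := by
  obtain ⟨l, hl, hr⟩ := h'
  exact ⟨l + 1, by omega, Run.pop_nil h hr⟩

lemma RunLE.pop_cons {k : ℕ} {e t f : Cmd} {s s' : St} {n : ℕ} {a : Bool} {l : List Bool}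
    (h : s k = a :: l) (h' : RunLE (if a then t else f) (update s k l) s' n) :
    RunLE (.pop k e t f) s s' (n + 1) := by
  obtain ⟨j, hj, hr⟩ := h'
  cases a with
  | true => exact ⟨j + 1, by omega, Run.pop_true h hr⟩
  | false => exact ⟨j + 1, by omega, Run.pop_false h hr⟩

lemma RunLE.loop_nil {k : ℕ} {t f : Cmd} {s : St} (h : s k = []) : RunLE (.loop k t f) s s 1 :=
  ⟨1, le_rfl, Run.loop_nil h⟩

lemma RunLE.loop_cons {k : ℕ} {t f : Cmd} {s s' s'' : St} {n m : ℕ} {a : Bool} {l : List Bool}
    (h : s k = a :: l) (h' : RunLE (if a then t else f) (update s k l) s' n)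
    (h'' : RunLE (.loop k t f) s' s'' m) : RunLE (.loop k t f) s s'' (n + m + 1) := by
  obtain ⟨i, hi, hr⟩ := h'
  obtain ⟨j, hj, hr'⟩ := h''
  cases a with
  | true => exact ⟨i + j + 1, by omega, Run.loop_true h hr hr'⟩
  | false => exact ⟨i + j + 1, by omega, Run.loop_false h hr hr'⟩

/-- A stack grows by at most one symbol per step. -/
lemma Run.length_le {c : Cmd} {s s' : St} {n : ℕ} (h : Run c s s' n) :
    ∀ j, (s' j).length ≤ (s j).length + n := by
  induction h with
  | skip s => intro j; omega
  | push k b s =>
    intro j
    by_cases h : j = k
    · subst h; simp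
    · rw [update_of_ne h]; omega
  | pop_nil h h' ih => intro j; have := ih j; omega
  | @pop_true k e t f s s' n l h h' ih | @pop_false k e t f s s' n l h h' ih =>
    intro j
    have h1 := ih j
    by_cases hj : j = k
    · subst hj; rw [update_self] at h1; rw [h, List.length_cons]; omega
    · rw [update_of_ne hj] at h1; omega
  | seq h h' ih ih' => intro j; have := ih j; have := ih' j; omega
  | loop_nil h => intro j; omega
  | @loop_true k t f s s' s'' n m l h h' h'' ih ih' =>
    intro j
    have h1 := ih j
    have h2 := ih' j
    by_cases hj : j = k
    · subst hj; rw [update_self] at h1; rw [h, List.length_cons]; omega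
    · rw [update_of_ne hj] at h1; omega
  | @loop_false k t f s s' s'' n m l h h' h'' ih ih' =>
    intro j
    have h1 := ih j
    have h2 := ih' j
    by_cases hj : j = k
    · subst hj; rw [update_self] at h1; rw [h, List.length_cons]; omega
    · rw [update_of_ne hj] at h1; omega

lemma RunLE.length_le {c : Cmd} {s s' : St} {n : ℕ} (h : RunLE c s s' n) (j : ℕ) :
    (s' j).length ≤ (s j).length + n := by
  obtain ⟨k, hk, hr⟩ := h
  exact (hr.length_le j).trans (by omega)

/-! ## Small programs -/

lemma upd_nil {s : St} {a : ℕ} (h : s a = []) : update s a [] = s := by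
  rw [← h]; exact update_eq_self a s

/-- Empty a stack. -/
def clr (a : ℕ) : Cmd := .loop a .skip .skip

/-- Move stack `a` to stack `b`, reversing it. -/
def mvr (a b : ℕ) : Cmd := .loop a (.push b true) (.push b false)

/-- Move stack `a` to both `b` and `c`, reversing it. -/
def mvr2 (a b c : ℕ) : Cmd :=
  .loop a (.seq (.push b true) (.push c true)) (.seq (.push b false) (.push c false))

/-- Copy stack `a` to stack `b` using the empty stack `t`. -/
def cpy (a b t : ℕ) : Cmd := .seq (mvr a t) (mvr2 t a b)

/-- Move stack `a` to stack `b`, keeping the order, using the empty stack `t`. -/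
def mvo (a b t : ℕ) : Cmd := .seq (mvr a t) (mvr t b)

lemma clr_run (a : ℕ) : ∀ (l : List Bool) (s : St), s a = l →
    RunLE (clr a) s (update s a []) (2 * l.length + 1)
  | [], s, hs => by
    rw [upd_nil hs]
    exact RunLE.loop_nil hs
  | x :: l, s, hs => by
    have h1 := clr_run a l (update s a l) (update_self _ _ _)
    rw [update_idem] at h1
    have h2 : RunLE (if x then Cmd.skip else Cmd.skip) (update s a l) (update s a l) 1 := by
      cases x <;> exact RunLE.skip _
    have h3 := RunLE.loop_cons (t := .skip) (f := .skip) hs h2 h1
    exact h3.mono (by simp only [List.length_cons]; omega)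

lemma mvr_run {a b : ℕ} (hab : a ≠ b) : ∀ (l : List Bool) (s : St), s a = l →
    RunLE (mvr a b) s (update (update s a []) b (l.reverse ++ s b)) (2 * l.length + 1)
  | [], s, hs => by
    have : update (update s a []) b ([].reverse ++ s b) = s := by
      rw [upd_nil hs]; simp
    rw [this]
    exact RunLE.loop_nil hs
  | x :: l, s, hs => by
    have h1 := mvr_run hab l (update (update s a l) b (x :: s b))
      (by rw [update_of_ne hab, update_self])
    have h2 : RunLE (if x then Cmd.push b true else Cmd.push b false) (update s a l)
        (update (update s a l) b (x :: s b)) 1 := by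
      have : update s a l b = s b := update_of_ne hab.symm _ _
      cases x
      · rw [← this]; exact RunLE.push _ _ _
      · rw [← this]; exact RunLE.push _ _ _
    have h3 := RunLE.loop_cons (t := .push b true) (f := .push b false) hs h2 h1
    refine h3.congr' ?_ (by simp only [List.length_cons]; omega)
    funext j
    simp only [update_apply]
    split_ifs <;> simp_all

lemma mvr2_run {a b c : ℕ} (hab : a ≠ b) (hac : a ≠ c) (hbc : b ≠ c) :
    ∀ (l : List Bool) (s : St), s a = l →
    RunLE (mvr2 a b c) s (update (update (update s a []) b (l.reverse ++ s b)) c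
      (l.reverse ++ s c)) (4 * l.length + 1)
  | [], s, hs => by
    have : update (update (update s a []) b ([].reverse ++ s b)) c ([].reverse ++ s c) = s := by
      rw [upd_nil hs]; simp
    rw [this]
    exact RunLE.loop_nil hs
  | x :: l, s, hs => by
    have h1 := mvr2_run hab hac hbc l (update (update (update s a l) b (x :: s b)) c (x :: s c))
      (by rw [update_of_ne hac, update_of_ne hab, update_self])
    have h2 : RunLE (if x then Cmd.seq (.push b true) (.push c true)
        else Cmd.seq (.push b false) (.push c false)) (update s a l)
        (update (update (update s a l) b (x :: s b)) c (x :: s c)) 3 := by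
      have e1 : update s a l b = s b := update_of_ne hab.symm _ _
      have e2 : update (update s a l) b (x :: s b) c = s c := by
        rw [update_of_ne hbc.symm, update_of_ne hac.symm]
      have r1 : RunLE (.push b x) (update s a l) (update (update s a l) b (x :: s b)) 1 := by
        rw [← e1]; exact RunLE.push _ _ _
      have r2 : RunLE (.push c x) (update (update s a l) b (x :: s b))
          (update (update (update s a l) b (x :: s b)) c (x :: s c)) 1 := by
        rw [← e2]; exact RunLE.push _ _ _
      have r3 := r1.seq r2
      cases x
      · exact r3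
      · exact r3
    have h3 := RunLE.loop_cons hs h2 h1
    refine h3.congr' ?_ (by simp only [List.length_cons]; omega)
    funext j
    simp only [update_apply]
    split_ifs <;> simp_all

lemma cpy_run {a b t : ℕ} (hab : a ≠ b) (hat : a ≠ t) (hbt : b ≠ t) (s : St) (ht : s t = []) :
    RunLE (cpy a b t) s (update s b (s a ++ s b)) (6 * (s a).length + 3) := by
  have h1 := mvr_run hat (s a) s rfl
  have h2 := mvr2_run (a := t) (b := a) (c := b) hat.symm hbt.symm hab ((s a).reverse)
    (update (update s a []) t ((s a).reverse ++ s t)) (by rw [update_self, ht, List.append_nil])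
  refine (h1.seq h2).congr' ?_ (by rw [List.length_reverse]; omega)
  funext j
  simp only [update_apply]
  split_ifs <;> simp_all

lemma mvo_run {a b t : ℕ} (hab : a ≠ b) (hat : a ≠ t) (hbt : b ≠ t) (s : St) (ht : s t = []) :
    RunLE (mvo a b t) s (update (update s a []) b (s a ++ s b)) (4 * (s a).length + 3) := by
  have h1 := mvr_run hat (s a) s rfl
  have h2 := mvr_run (a := t) (b := b) hbt.symm ((s a).reverse)
    (update (update s a []) t ((s a).reverse ++ s t)) (by rw [update_self, ht, List.append_nil])
  refine (h1.seq h2).congr' ?_ (by rw [List.length_reverse]; omega)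
  funext j
  simp only [update_apply]
  split_ifs <;> simp_all

/-! ## The class of polynomial-time computable string functions -/

variable {α : Type*}

/-- `P i o b` computes `f x` on stack `o` if stack `i` contains `e x`, with scratch stacks
`b, …, b + w - 1`, in time bounded by the polynomial `p` in the length of `e x`. -/
def Computes (P : ℕ → ℕ → ℕ → Cmd) (w : ℕ) (p : Polynomial ℕ) (e f : α → List Bool) :
    Prop :=
  (∀ i o b, i < b → o < b → (P i o b).Below (b + w)) ∧
    ∀ i o b, i < b → o < b → i ≠ o → ∀ (x : α) (s : St), s i = e x → s o = [] →
      (∀ j, b ≤ j → s j = []) → RunLE (P i o b) s (update s o (f x)) (p.eval (e x).length)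

/-- The string `f x` can be computed in polynomial time from the string `e x`. -/
def PT (e f : α → List Bool) : Prop :=
  ∃ (P : ℕ → ℕ → ℕ → Cmd) (w : ℕ) (p : Polynomial ℕ), Computes P w p e f

variable {e : α → List Bool}

lemma Computes.length_le {P : ℕ → ℕ → ℕ → Cmd} {w : ℕ} {p : Polynomial ℕ}
    {f : α → List Bool} (h : Computes P w p e f) (x : α) :
    (f x).length ≤ p.eval (e x).length := by
  have h1 := h.2 0 1 2 (by omega) (by omega) (by omega) x (update (fun _ => []) 0 (e x))
    (by simp) (by simp) (fun j hj => by rw [update_of_ne (by omega)])
  have h2 := h1.length_le 1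
  simpa using h2

lemma PT.length_le {f : α → List Bool} (h : PT e f) :
    ∃ p : Polynomial ℕ, ∀ x, (f x).length ≤ p.eval (e x).length := by
  obtain ⟨P, w, p, hp⟩ := h
  exact ⟨p, hp.length_le⟩

/-- Change of the index type. -/
lemma PT.reindex {β : Type*} {f : α → List Bool} (h : PT e f) (φ : β → α) :
    PT (fun b => e (φ b)) (fun b => f (φ b)) := by
  obtain ⟨P, w, p, h1, h2⟩ := h
  exact ⟨P, w, p, h1, fun i o b hi ho hio x => h2 i o b hi ho hio (φ x)⟩

lemma PT.refl (e : α → List Bool) : PT e e := by
  refine ⟨fun i o b => cpy i o b, 1, 6 * Polynomial.X + 3, ?_, ?_⟩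
  · intro i o b hi ho
    simp only [cpy, mvr, mvr2, Cmd.Below]
    omega
  · intro i o b hi ho hio x s hsi hso hs
    refine (cpy_run hio (by omega) (by omega) s (hs b le_rfl)).congr' ?_ ?_
    · rw [hso, List.append_nil, hsi]
    · simp [hsi]

lemma PT.const (l : List Bool) : PT e (fun _ => l) := by
  induction l with
  | nil =>
    refine ⟨fun i o b => .skip, 0, 1, ?_, ?_⟩
    · intro i o b hi ho; trivial
    · intro i o b hi ho hio x s hsi hso hs
      exact (RunLE.skip s).congr' (upd_nil hso).symm (by simp)
  | cons a l ih =>
    obtain ⟨P, w, p, h1, h2⟩ := ih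
    refine ⟨fun i o b => .seq (P i o b) (.push o a), w, p + 2, ?_, ?_⟩
    · intro i o b hi ho
      refine ⟨h1 i o b hi ho, ?_⟩
      simp only [Cmd.Below]; omega
    · intro i o b hi ho hio x s hsi hso hs
      refine ((h2 i o b hi ho hio x s hsi hso hs).seq (RunLE.push o a _)).congr' ?_ (by simp)
      simp

/-- Composition. -/
lemma PT.trans {f g : α → List Bool} (hf : PT e f) (hg : PT f g) : PT e g := by
  obtain ⟨P, w, p, hP⟩ := hf
  obtain ⟨Q, v, q, hQ⟩ := hg
  refine ⟨fun i o b => .seq (P i b (b + 1)) (.seq (Q b o (b + 1)) (clr b)), w + v + 1,
    p + (q.comp p + (2 * p + 1) + 1) + 1, ?_, ?_⟩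
  · intro i o b hi ho
    refine ⟨(hP.1 i b (b + 1) (by omega) (by omega)).mono (by omega),
      (hQ.1 b o (b + 1) (by omega) (by omega)).mono (by omega), ?_⟩
    simp only [clr, Cmd.Below, and_true]; omega
  · intro i o b hi ho hio x s hsi hso hs
    have h1 := hP.2 i b (b + 1) (by omega) (by omega) (by omega) x s hsi (hs b le_rfl)
      (fun j hj => hs j (by omega))
    have h2 := hQ.2 b o (b + 1) (by omega) (by omega) (by omega) x (update s b (f x))
      (update_self _ _ _)
      (by rw [update_of_ne (by omega)]; exact hso)
      (fun j hj => by rw [update_of_ne (by omega)]; exact hs j (by omega))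
    have h3 := clr_run b (f x) (update (update s b (f x)) o (g x))
      (by rw [update_of_ne (by omega), update_self])
    refine (h1.seq (h2.seq h3)).congr' ?_ ?_
    · have hsb := hs b le_rfl
      funext j
      simp only [update_apply]
      split_ifs <;> simp_all
    · have hl := hP.length_le x
      have := eval_mono q hl
      simp only [Polynomial.eval_add, Polynomial.eval_comp, Polynomial.eval_mul,
        Polynomial.eval_one, Polynomial.eval_ofNat]
      omega

/-- Prepending a symbol. -/
lemma PT.cons {f : α → List Bool} (a : Bool) (hf : PT e f) : PT e (fun x => a :: f x) := by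
  obtain ⟨P, w, p, hP⟩ := hf
  refine ⟨fun i o b => .seq (P i o b) (.push o a), w, p + 2, ?_, ?_⟩
  · intro i o b hi ho
    refine ⟨hP.1 i o b hi ho, ?_⟩
    simp only [Cmd.Below]; omega
  · intro i o b hi ho hio x s hsi hso hs
    refine ((hP.2 i o b hi ho hio x s hsi hso hs).seq (RunLE.push o a _)).congr' ?_ (by simp)
    simp

/-- Concatenation. -/
lemma PT.append {f g : α → List Bool} (hf : PT e f) (hg : PT e g) :
    PT e (fun x => f x ++ g x) := by
  obtain ⟨P, w, p, hP⟩ := hf
  obtain ⟨Q, v, q, hQ⟩ := hg
  refine ⟨fun i o b => .seq (Q i o b) (.seq (P i b (b + 1)) (mvo b o (b + 1))), w + v + 2,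
    q + (p + (4 * p + 3) + 1) + 1, ?_, ?_⟩
  · intro i o b hi ho
    refine ⟨(hQ.1 i o b hi ho).mono (by omega),
      (hP.1 i b (b + 1) (by omega) (by omega)).mono (by omega), ?_⟩
    simp only [mvo, mvr, Cmd.Below]; omega
  · intro i o b hi ho hio x s hsi hso hs
    have h1 := hQ.2 i o b hi ho hio x s hsi hso hs
    have h2 := hP.2 i b (b + 1) (by omega) (by omega) (by omega) x (update s o (g x))
      (by rw [update_of_ne hio]; exact hsi)
      (by rw [update_of_ne (by omega)]; exact hs b le_rfl)
      (fun j hj => by rw [update_of_ne (by omega)]; exact hs j (by omega))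
    have h3 := mvo_run (a := b) (b := o) (t := b + 1) (by omega) (by omega) (by omega)
      (update (update s o (g x)) b (f x))
      (by rw [update_of_ne (by omega), update_of_ne (by omega)]; exact hs _ (by omega))
    refine (h1.seq (h2.seq h3)).congr' ?_ ?_
    · have hsb := hs b le_rfl
      funext j
      simp only [update_apply]
      split_ifs <;> simp_all
    · have hl := hP.length_le x
      rw [update_self]
      simp only [Polynomial.eval_add, Polynomial.eval_mul, Polynomial.eval_one,
        Polynomial.eval_ofNat]
      omega

/-- Reversal. -/
lemma PT.reverse {f : α → List Bool} (hf : PT e f) : PT e (fun x => (f x).reverse) := by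
  obtain ⟨P, w, p, hP⟩ := hf
  refine ⟨fun i o b => .seq (P i b (b + 1)) (mvr b o), w + 1, p + (2 * p + 1) + 1, ?_, ?_⟩
  · intro i o b hi ho
    refine ⟨(hP.1 i b (b + 1) (by omega) (by omega)).mono (by omega), ?_⟩
    simp only [mvr, Cmd.Below]; omega
  · intro i o b hi ho hio x s hsi hso hs
    have h1 := hP.2 i b (b + 1) (by omega) (by omega) (by omega) x s hsi (hs b le_rfl)
      (fun j hj => hs j (by omega))
    have h2 := mvr_run (a := b) (b := o) (by omega) (f x) (update s b (f x))
      (update_self _ _ _)
    refine (h1.seq h2).congr' ?_ ?_
    · have hsb := hs b le_rfl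
      funext j
      simp only [update_apply]
      split_ifs <;> simp_all
    · have hl := hP.length_le x
      simp only [Polynomial.eval_add, Polynomial.eval_mul, Polynomial.eval_one,
        Polynomial.eval_ofNat]
      omega

/-- Case distinction on the first symbol. Each branch only has to be computable on the arguments
for which it is taken. -/
lemma PT.casesOn {c k : α → List Bool} (hc : PT e c)
    (hf : PT (fun x : {x : α // c x = []} => e x) (fun x => k x))
    (hg : PT (fun x : {x : α // ∃ l, c x = true :: l} => e x) (fun x => k x))
    (hh : PT (fun x : {x : α // ∃ l, c x = false :: l} => e x) (fun x => k x)) :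
    PT e k := by
  obtain ⟨C, wc, pc, hC⟩ := hc
  obtain ⟨F, wf, pf, hF⟩ := hf
  obtain ⟨G, wg, pg, hG⟩ := hg
  obtain ⟨H, wh, ph, hH⟩ := hh
  refine ⟨fun i o b => .seq (C i b (b + 1)) (.pop b (F i o (b + 1))
      (.seq (clr b) (G i o (b + 1))) (.seq (clr b) (H i o (b + 1)))),
    wc + wf + wg + wh + 1, pc + (pf + pg + ph + (2 * pc + 1) + 2) + 1, ?_, ?_⟩
  · intro i o b hi ho
    refine ⟨(hC.1 i b (b + 1) (by omega) (by omega)).mono (by omega), by omega,
      (hF.1 i o (b + 1) (by omega) (by omega)).mono (by omega),
      ⟨by simp only [clr, Cmd.Below, and_true]; omega,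
        (hG.1 i o (b + 1) (by omega) (by omega)).mono (by omega)⟩,
      ⟨by simp only [clr, Cmd.Below, and_true]; omega,
        (hH.1 i o (b + 1) (by omega) (by omega)).mono (by omega)⟩⟩
  · intro i o b hi ho hio x s hsi hso hs
    have hsb := hs b le_rfl
    have h1 := hC.2 i b (b + 1) (by omega) (by omega) (by omega) x s hsi hsb
      (fun j hj => hs j (by omega))
    have hl := hC.length_le x
    have hbi : i ≠ b := by omega
    have hbo : o ≠ b := by omega
    have hback : ∀ l, update (update s b l) b [] = s := by
      intro l; rw [update_idem]; exact upd_nil hsb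
    cases hcx : c x with
    | nil =>
      rw [hcx] at h1
      rw [upd_nil hsb] at h1
      have hb := hF.2 i o (b + 1) (by omega) (by omega) hio ⟨x, hcx⟩ s hsi hso
        (fun j hj => hs j (by omega))
      refine (h1.seq (RunLE.pop_nil hsb hb)).congr' rfl ?_
      simp only [Polynomial.eval_add, Polynomial.eval_mul, Polynomial.eval_one,
        Polynomial.eval_ofNat]
      omega
    | cons a l =>
      rw [hcx] at h1 hl
      rw [List.length_cons] at hl
      have h2 := clr_run b l (update s b l) (update_self _ _ _)
      rw [hback] at h2
      cases a with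
      | true =>
        have h3 := h2.seq (hG.2 i o (b + 1) (by omega) (by omega) hio ⟨x, l, hcx⟩ s hsi hso
          (fun j hj => hs j (by omega)))
        have h4 := RunLE.pop_cons (s := update s b (true :: l)) (e := F i o (b + 1))
          (f := .seq (clr b) (H i o (b + 1))) (update_self b (true :: l) s)
          (by rw [update_idem]; exact h3)
        refine (h1.seq h4).congr' rfl ?_
        simp only [Polynomial.eval_add, Polynomial.eval_mul, Polynomial.eval_one,
          Polynomial.eval_ofNat]
        omega
      | false =>
        have h3 := h2.seq (hH.2 i o (b + 1) (by omega) (by omega) hio ⟨x, l, hcx⟩ s hsi hso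
          (fun j hj => hs j (by omega)))
        have h4 := RunLE.pop_cons (s := update s b (false :: l)) (e := F i o (b + 1))
          (t := .seq (clr b) (G i o (b + 1))) (update_self b (false :: l) s)
          (by rw [update_idem]; exact h3)
        refine (h1.seq h4).congr' rfl ?_
        simp only [Polynomial.eval_add, Polynomial.eval_mul, Polynomial.eval_one,
          Polynomial.eval_ofNat]
        omega

/-- Case distinction on the first symbol. -/
lemma PT.cases {c f g h : α → List Bool} (hc : PT e c) (hf : PT e f) (hg : PT e g) (hh : PT e h) :
    PT e (fun x => match c x with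
      | [] => f x
      | true :: _ => g x
      | false :: _ => h x) := by
  refine PT.casesOn hc ?_ ?_ ?_
  · have := hf.reindex (fun x : {x : α // c x = []} => (x : α))
    have he : (fun x : {x : α // c x = []} => (match c x with
      | [] => f x
      | true :: _ => g x
      | false :: _ => h x : List Bool)) = fun x : {x : α // c x = []} => f x := by
      funext x
      rw [x.2]
    rw [he]; exact this
  · have := hg.reindex (fun x : {x : α // ∃ l, c x = true :: l} => (x : α))
    have he : (fun x : {x : α // ∃ l, c x = true :: l} => (match c x with
      | [] => f x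
      | true :: _ => g x
      | false :: _ => h x : List Bool)) = fun x : {x : α // ∃ l, c x = true :: l} => g x := by
      funext x
      obtain ⟨l, hl⟩ := x.2
      rw [hl]
    rw [he]; exact this
  · have := hh.reindex (fun x : {x : α // ∃ l, c x = false :: l} => (x : α))
    have he : (fun x : {x : α // ∃ l, c x = false :: l} => (match c x with
      | [] => f x
      | true :: _ => g x
      | false :: _ => h x : List Bool)) = fun x : {x : α // ∃ l, c x = false :: l} => h x := by
      funext x
      obtain ⟨l, hl⟩ := x.2
      rw [hl]
    rw [he]; exact this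

/-- Removing the first symbol. -/
lemma PT.tail {f : α → List Bool} (hf : PT e f) : PT e (fun x => (f x).tail) := by
  obtain ⟨P, w, p, hP⟩ := hf
  refine ⟨fun i o b => .seq (P i o b) (.pop o .skip .skip .skip), w, p + 3, ?_, ?_⟩
  · intro i o b hi ho
    refine ⟨hP.1 i o b hi ho, ?_⟩
    simp only [Cmd.Below, and_true]; omega
  · intro i o b hi ho hio x s hsi hso hs
    have h1 := hP.2 i o b hi ho hio x s hsi hso hs
    cases hf : f x with
    | nil =>
      rw [hf] at h1
      refine (h1.seq (RunLE.pop_nil (update_self _ _ _) (RunLE.skip _))).congr' ?_ (by simp)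
      simp [hf]
    | cons a l =>
      rw [hf] at h1
      refine (h1.seq (RunLE.pop_cons (e := .skip) (t := .skip) (f := .skip)
        (s := update s o (a :: l)) (a := a) (l := l) (update_self _ _ _)
        (s' := update s o l) (n := 1) ?_)).congr' ?_ (by simp)
      · rw [update_idem]
        cases a <;> exact RunLE.skip _
      · simp [hf]

/-! ## Pairs -/

/-- The code of a pair of strings. -/
def pr (u v : List Bool) : List Bool := u.flatMap (fun a => [true, a]) ++ false :: v

/-- Decoding of pairs. -/
def upr : List Bool → List Bool × List Bool
  | true :: a :: l => (a :: (upr l).1, (upr l).2)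
  | false :: l => ([], l)
  | _ => ([], [])

@[simp] lemma upr_pr (u v : List Bool) : upr (pr u v) = (u, v) := by
  induction u with
  | nil => rfl
  | cons a u ih =>
    have : pr (a :: u) v = true :: a :: pr u v := rfl
    rw [this, upr, ih]

lemma length_pr (u v : List Bool) : (pr u v).length = 2 * u.length + v.length + 1 := by
  induction u with
  | nil => simp [pr]
  | cons a u ih =>
    have : pr (a :: u) v = true :: a :: pr u v := rfl
    rw [this, List.length_cons, List.length_cons, ih, List.length_cons]; ring

/-- Prepend the coded first component, given in reverse order on stack `a`, to stack `o`. -/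
def dbl (a o : ℕ) : Cmd :=
  .loop a (.seq (.push o true) (.push o true)) (.seq (.push o false) (.push o true))

lemma dbl_run {a o : ℕ} (hao : a ≠ o) : ∀ (l : List Bool) (s : St), s a = l →
    RunLE (dbl a o) s (update (update s a []) o
      (l.reverse.flatMap (fun a => [true, a]) ++ s o)) (4 * l.length + 1)
  | [], s, hs => by
    have : update (update s a []) o (([] : List Bool).reverse.flatMap (fun a => [true, a]) ++ s o)
        = s := by
      rw [upd_nil hs]; simp
    rw [this]
    exact RunLE.loop_nil hs
  | x :: l, s, hs => by
    have h1 := dbl_run hao l (update (update s a l) o (true :: x :: s o))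
      (by rw [update_of_ne hao, update_self])
    have h2 : RunLE (if x then Cmd.seq (.push o true) (.push o true)
        else Cmd.seq (.push o false) (.push o true)) (update s a l)
        (update (update s a l) o (true :: x :: s o)) 3 := by
      have e1 : update s a l o = s o := update_of_ne hao.symm _ _
      have r1 : RunLE (.push o x) (update s a l) (update (update s a l) o (x :: s o)) 1 := by
        rw [← e1]; exact RunLE.push _ _ _
      have r2 := RunLE.push o true (update (update s a l) o (x :: s o))
      rw [update_self, update_idem] at r2
      have r3 := r1.seq r2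
      cases x
      · exact r3
      · exact r3
    have h3 := RunLE.loop_cons hs h2 h1
    refine h3.congr' ?_ (by simp only [List.length_cons]; omega)
    funext j
    simp only [update_apply]
    split_ifs <;> simp_all

/-- Pairing. -/
lemma PT.pair {f g : α → List Bool} (hf : PT e f) (hg : PT e g) :
    PT e (fun x => pr (f x) (g x)) := by
  obtain ⟨P, w, p, hP⟩ := hf
  obtain ⟨Q, v, q, hQ⟩ := hg
  refine ⟨fun i o b => .seq (Q i o b) (.seq (.push o false) (.seq (P i b (b + 1))
    (.seq (mvr b (b + 1)) (dbl (b + 1) o)))), w + v + 2,
    q + (1 + (p + ((2 * p + 1) + (4 * p + 1) + 1) + 1) + 1) + 1, ?_, ?_⟩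
  · intro i o b hi ho
    refine ⟨(hQ.1 i o b hi ho).mono (by omega), by simp only [Cmd.Below]; omega,
      (hP.1 i b (b + 1) (by omega) (by omega)).mono (by omega), ?_⟩
    simp only [mvr, dbl, Cmd.Below]; omega
  · intro i o b hi ho hio x s hsi hso hs
    have hsb := hs b le_rfl
    have hsb1 := hs (b + 1) (by omega)
    have h1 := hQ.2 i o b hi ho hio x s hsi hso hs
    have h2 := RunLE.push o false (update s o (g x))
    rw [update_self, update_idem] at h2
    have h3 := hP.2 i b (b + 1) (by omega) (by omega) (by omega) x (update s o (false :: g x))
      (by rw [update_of_ne hio]; exact hsi)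
      (by rw [update_of_ne (by omega)]; exact hsb)
      (fun j hj => by rw [update_of_ne (by omega)]; exact hs j (by omega))
    have h4 := mvr_run (a := b) (b := b + 1) (by omega) (f x)
      (update (update s o (false :: g x)) b (f x)) (update_self _ _ _)
    have h5 := dbl_run (a := b + 1) (o := o) (by omega) ((f x).reverse)
      (update (update (update (update s o (false :: g x)) b (f x)) b []) (b + 1)
        ((f x).reverse ++ update (update s o (false :: g x)) b (f x) (b + 1)))
      (by
        rw [update_self, update_of_ne (by omega), update_of_ne (by omega), hsb1,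
          List.append_nil])
    refine (h1.seq (h2.seq (h3.seq (h4.seq h5)))).congr' ?_ ?_
    · have e1 : o ≠ b := by omega
      have e2 : o ≠ b + 1 := by omega
      have e3 : b + 1 ≠ b := by omega
      clear h1 h2 h3 h4 h5
      funext j
      by_cases j1 : j = o
      · subst j1
        rw [update_self, update_of_ne e2, update_of_ne e1, update_of_ne e1, update_self,
          List.reverse_reverse, update_self]
        rfl
      rw [update_of_ne j1, update_of_ne j1]
      by_cases j3 : j = b + 1
      · subst j3
        rw [update_self, hsb1]
      rw [update_of_ne j3, update_of_ne j3]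
      by_cases j2 : j = b
      · subst j2
        rw [update_self, hsb]
      rw [update_of_ne j2, update_of_ne j2, update_of_ne j1]
    · have hl := hP.length_le x
      rw [List.length_reverse]
      simp only [Polynomial.eval_add, Polynomial.eval_mul, Polynomial.eval_one,
        Polynomial.eval_ofNat]
      omega

/-- The parsing loop: `a` holds the string, the first component is collected in reverse order on
`c`, and `f` is a flag. -/
def parse (a c f : ℕ) : Cmd :=
  .loop f (.pop a .skip
    (.pop a .skip (.seq (.push c true) (.push f true)) (.seq (.push c false) (.push f true)))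
    .skip) .skip

lemma parse_run {a c f : ℕ} (hac : a ≠ c) (haf : a ≠ f) (hcf : c ≠ f) :
    ∀ (l : List Bool) (s : St), s a = l → s f = [true] →
    RunLE (parse a c f) s (update (update (update s a (upr l).2) c ((upr l).1.reverse ++ s c)) f [])
      (6 * l.length + 6)
  | [], s, hs, hf => by
    have h1 : RunLE (.pop a .skip
      (.pop a .skip (.seq (.push c true) (.push f true)) (.seq (.push c false) (.push f true)))
      .skip) (update s f []) (update s f []) 2 :=
      RunLE.pop_nil (by rw [update_of_ne haf]; exact hs) (RunLE.skip _)
    have h2 := RunLE.loop_cons (k := f) (a := true) (l := []) (f := .skip) hf h1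
      (RunLE.loop_nil (update_self _ _ _))
    refine h2.congr' ?_ (by simp)
    funext j
    simp only [update_apply, upr]
    split_ifs <;> simp_all
  | [true], s, hs, hf => by
    have h1 : RunLE (.pop a .skip
      (.pop a .skip (.seq (.push c true) (.push f true)) (.seq (.push c false) (.push f true)))
      .skip) (update s f []) (update (update s f []) a []) 3 :=
      RunLE.pop_cons (a := true) (l := []) (by rw [update_of_ne haf]; exact hs)
        (RunLE.pop_nil (update_self _ _ _) (RunLE.skip _))
    have h2 := RunLE.loop_cons (k := f) (a := true) (l := []) (f := .skip) hf h1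
      (RunLE.loop_nil (by rw [update_of_ne haf.symm, update_self]))
    refine h2.congr' ?_ (by simp)
    funext j
    simp only [update_apply, upr]
    split_ifs <;> simp_all
  | false :: l, s, hs, hf => by
    have h1 : RunLE (.pop a .skip
      (.pop a .skip (.seq (.push c true) (.push f true)) (.seq (.push c false) (.push f true)))
      .skip) (update s f []) (update (update s f []) a l) 2 :=
      RunLE.pop_cons (a := false) (l := l) (by rw [update_of_ne haf]; exact hs)
        (RunLE.skip _)
    have h2 := RunLE.loop_cons (k := f) (a := true) (l := []) (f := .skip) hf h1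
      (RunLE.loop_nil (by rw [update_of_ne haf.symm, update_self]))
    refine h2.congr' ?_ (by simp only [List.length_cons]; omega)
    funext j
    simp only [update_apply, upr]
    split_ifs <;> simp_all
  | true :: x :: l, s, hs, hf => by
    have ih := parse_run hac haf hcf l
      (update (update (update s a l) c (x :: s c)) f [true])
      (by rw [update_of_ne haf, update_of_ne hac, update_self]) (update_self _ _ _)
    have e0 : update (update (update s f []) a (x :: l)) a l = update (update s f []) a l :=
      update_idem _ _ _
    have r1 : RunLE (.push c x) (update (update s f []) a l)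
        (update (update (update s f []) a l) c (x :: s c)) 1 := by
      have e1 : update (update s f []) a l c = s c := by
        rw [update_of_ne hac.symm, update_of_ne hcf]
      rw [← e1]; exact RunLE.push _ _ _
    have r2 : RunLE (.push f true) (update (update (update s f []) a l) c (x :: s c))
        (update (update (update (update s f []) a l) c (x :: s c)) f [true]) 1 := by
      have e1 : update (update (update s f []) a l) c (x :: s c) f = [] := by
        rw [update_of_ne hcf.symm, update_of_ne haf.symm, update_self]
      have := RunLE.push f true (update (update (update s f []) a l) c (x :: s c))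
      rw [e1] at this
      exact this
    have r3 : RunLE (if x then Cmd.seq (.push c true) (.push f true)
        else Cmd.seq (.push c false) (.push f true)) (update (update s f []) a l)
        (update (update (update (update s f []) a l) c (x :: s c)) f [true]) 3 := by
      cases x
      · exact r1.seq r2
      · exact r1.seq r2
    have r4 : RunLE (.pop a .skip (.seq (.push c true) (.push f true))
        (.seq (.push c false) (.push f true))) (update (update s f []) a (x :: l))
        (update (update (update (update s f []) a l) c (x :: s c)) f [true]) 4 :=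
      RunLE.pop_cons (update_self _ _ _) (by rw [e0]; exact r3)
    have r5 : RunLE (.pop a .skip
      (.pop a .skip (.seq (.push c true) (.push f true)) (.seq (.push c false) (.push f true)))
      .skip) (update s f []) (update (update (update (update s f []) a l) c (x :: s c)) f [true])
        5 :=
      RunLE.pop_cons (a := true) (l := x :: l) (by rw [update_of_ne haf]; exact hs) r4
    have e2 : update (update (update (update s f []) a l) c (x :: s c)) f [true] =
        update (update (update s a l) c (x :: s c)) f [true] := by
      funext j
      simp only [update_apply]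
      split_ifs <;> simp_all
    rw [e2] at r5
    have h2 := RunLE.loop_cons (k := f) (a := true) (l := []) (f := .skip) hf r5 ih
    refine h2.congr' ?_ (by simp only [List.length_cons]; omega)
    funext j
    simp only [update_apply, upr]
    split_ifs <;> simp_all

lemma length_upr : ∀ l : List Bool, (upr l).1.length + (upr l).2.length ≤ l.length
  | [] => by simp [upr]
  | [true] => by simp [upr]
  | false :: l => by simp [upr]
  | true :: x :: l => by
    have := length_upr l
    simp only [upr, List.length_cons]
    omega

/-- First projection. -/
lemma PT.fst {f : α → List Bool} (hf : PT e f) : PT e (fun x => (upr (f x)).1) := by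
  obtain ⟨P, w, p, hP⟩ := hf
  refine ⟨fun i o b => .seq (P i b (b + 1)) (.seq (.push (b + 2) true) (.seq
    (parse b (b + 1) (b + 2)) (.seq (clr b) (mvr (b + 1) o)))), w + 3,
    p + (1 + ((6 * p + 6) + ((2 * p + 1) + (2 * p + 1) + 1) + 1) + 1) + 1, ?_, ?_⟩
  · intro i o b hi ho
    refine ⟨(hP.1 i b (b + 1) (by omega) (by omega)).mono (by omega), ?_⟩
    simp only [parse, clr, mvr, Cmd.Below, and_true, true_and]; omega
  · intro i o b hi ho hio x s hsi hso hs
    have hsb := hs b le_rfl
    have hsb1 := hs (b + 1) (by omega)
    have hsb2 := hs (b + 2) (by omega)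
    have h1 := hP.2 i b (b + 1) (by omega) (by omega) (by omega) x s hsi hsb
      (fun j hj => hs j (by omega))
    have h2 := RunLE.push (b + 2) true (update s b (f x))
    rw [update_of_ne (by omega), hsb2] at h2
    have h3 := parse_run (a := b) (c := b + 1) (f := b + 2) (by omega) (by omega) (by omega)
      (f x) (update (update s b (f x)) (b + 2) [true])
      (by rw [update_of_ne (by omega), update_self]) (update_self _ _ _)
    set s3 := update (update (update (update (update s b (f x)) (b + 2) [true]) b
      (upr (f x)).2) (b + 1) ((upr (f x)).1.reverse ++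
        (update (update s b (f x)) (b + 2) [true]) (b + 1))) (b + 2) [] with hs3
    have h4 := clr_run b (upr (f x)).2 s3 (by
      rw [hs3, update_of_ne (by omega), update_of_ne (by omega), update_self])
    have h5 := mvr_run (a := b + 1) (b := o) (by omega) (upr (f x)).1.reverse
      (update s3 b []) (by
        rw [update_of_ne (by omega), hs3, update_of_ne (by omega), update_self,
          update_of_ne (by omega), update_of_ne (by omega), hsb1, List.append_nil])
    refine (h1.seq (h2.seq (h3.seq (h4.seq h5)))).congr' ?_ ?_
    · have e1 : o ≠ b := by omega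
      have e2 : o ≠ b + 1 := by omega
      have e3 : o ≠ b + 2 := by omega
      funext j
      simp only [update_apply, hs3]
      split_ifs <;> simp_all
    · have hl := hP.length_le x
      have hl2 := length_upr (f x)
      rw [List.length_reverse]
      simp only [Polynomial.eval_add, Polynomial.eval_mul, Polynomial.eval_one,
        Polynomial.eval_ofNat]
      omega

/-- Second projection. -/
lemma PT.snd {f : α → List Bool} (hf : PT e f) : PT e (fun x => (upr (f x)).2) := by
  obtain ⟨P, w, p, hP⟩ := hf
  refine ⟨fun i o b => .seq (P i b (b + 1)) (.seq (.push (b + 2) true) (.seq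
    (parse b (b + 1) (b + 2)) (.seq (clr (b + 1)) (mvo b o (b + 1))))), w + 3,
    p + (1 + ((6 * p + 6) + ((2 * p + 1) + (4 * p + 3) + 1) + 1) + 1) + 1, ?_, ?_⟩
  · intro i o b hi ho
    refine ⟨(hP.1 i b (b + 1) (by omega) (by omega)).mono (by omega), ?_⟩
    simp only [parse, clr, mvo, mvr, Cmd.Below, and_true, true_and]; omega
  · intro i o b hi ho hio x s hsi hso hs
    have hsb := hs b le_rfl
    have hsb1 := hs (b + 1) (by omega)
    have hsb2 := hs (b + 2) (by omega)
    have h1 := hP.2 i b (b + 1) (by omega) (by omega) (by omega) x s hsi hsb
      (fun j hj => hs j (by omega))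
    have h2 := RunLE.push (b + 2) true (update s b (f x))
    rw [update_of_ne (by omega), hsb2] at h2
    have h3 := parse_run (a := b) (c := b + 1) (f := b + 2) (by omega) (by omega) (by omega)
      (f x) (update (update s b (f x)) (b + 2) [true])
      (by rw [update_of_ne (by omega), update_self]) (update_self _ _ _)
    set s3 := update (update (update (update (update s b (f x)) (b + 2) [true]) b
      (upr (f x)).2) (b + 1) ((upr (f x)).1.reverse ++
        (update (update s b (f x)) (b + 2) [true]) (b + 1))) (b + 2) [] with hs3
    have h4 := clr_run (b + 1) (upr (f x)).1.reverse s3 (by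
      rw [hs3, update_of_ne (by omega), update_self,
        update_of_ne (by omega), update_of_ne (by omega), hsb1, List.append_nil])
    have h5 := mvo_run (a := b) (b := o) (t := b + 1) (by omega) (by omega) (by omega)
      (update s3 (b + 1) []) (update_self _ _ _)
    have e0 : update s3 (b + 1) [] b = (upr (f x)).2 := by
      rw [update_of_ne (by omega), hs3, update_of_ne (by omega), update_of_ne (by omega),
        update_self]
    refine (h1.seq (h2.seq (h3.seq (h4.seq h5)))).congr' ?_ ?_
    · have e1 : o ≠ b := by omega
      have e2 : o ≠ b + 1 := by omega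
      have e3 : o ≠ b + 2 := by omega
      rw [e0]
      funext j
      simp only [update_apply, hs3]
      split_ifs <;> simp_all
    · have hl := hP.length_le x
      have hl2 := length_upr (f x)
      rw [List.length_reverse, e0]
      simp only [Polynomial.eval_add, Polynomial.eval_mul, Polynomial.eval_one,
        Polynomial.eval_ofNat]
      omega

/-! ## Bounded iteration -/

/-- Iteration of a polynomial-time step with polynomially bounded intermediate values. The
iteration runs through the states `st x 0, st x 1, …`, and the step only has to be computable on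
the states that occur. -/
lemma PT.iterate {c : α → List Bool} {st : α → ℕ → List Bool} (hc : PT e c)
    (hg : PT e (fun x => st x 0))
    (hF : PT (fun y : {y : α × ℕ // y.2 < (c y.1).length} => st y.1.1 y.1.2)
      (fun y => st y.1.1 (y.1.2 + 1)))
    (q : Polynomial ℕ)
    (hq : ∀ x, ∀ m ≤ (c x).length, (st x m).length ≤ q.eval (e x).length) :
    PT e (fun x => st x (c x).length) := by
  obtain ⟨C, wc, pc, hC⟩ := hc
  obtain ⟨G, wg, pg, hG⟩ := hg
  obtain ⟨Q, v, p, hQ⟩ := hF
  let body : ℕ → Cmd := fun b => .seq (Q (b + 1) (b + 2) (b + 3))
    (.seq (clr (b + 1)) (mvo (b + 2) (b + 1) (b + 3)))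
  refine ⟨fun i o b => .seq (C i b (b + 3)) (.seq (G i (b + 1) (b + 3))
    (.seq (.loop b (body b) (body b)) (mvo (b + 1) o (b + 2)))), wc + wg + v + 4,
    pc + (pg + ((pc * (p.comp q + (2 * q + 1) + (4 * q + 3) + 3) + 1) + (4 * q + 3) + 1) + 1) + 1,
    ?_, ?_⟩
  · intro i o b hi ho
    refine ⟨(hC.1 i b (b + 3) (by omega) (by omega)).mono (by omega),
      (hG.1 i (b + 1) (b + 3) (by omega) (by omega)).mono (by omega), ?_, ?_⟩
    · have hb : (body b).Below (b + (wc + wg + v + 4)) := by
        refine ⟨(hQ.1 (b + 1) (b + 2) (b + 3) (by omega) (by omega)).mono (by omega), ?_⟩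
        simp only [clr, mvo, mvr, Cmd.Below, and_true, true_and]; omega
      exact ⟨by omega, hb, hb⟩
    · simp only [mvo, mvr, Cmd.Below, and_true, true_and]; omega
  · intro i o b hi ho hio x s hsi hso hs
    have hsb := hs b le_rfl
    have hsb1 := hs (b + 1) (by omega)
    have hsb2 := hs (b + 2) (by omega)
    have h1 := hC.2 i b (b + 3) (by omega) (by omega) (by omega) x s hsi hsb
      (fun j hj => hs j (by omega))
    have h2 := hG.2 i (b + 1) (b + 3) (by omega) (by omega) (by omega) x (update s b (c x))
      (by rw [update_of_ne (by omega)]; exact hsi)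
      (by rw [update_of_ne (by omega)]; exact hsb1)
      (fun j hj => by rw [update_of_ne (by omega)]; exact hs j (by omega))
    -- the loop
    set N := q.eval (e x).length with hN
    have hloop : ∀ (l : List Bool) (m : ℕ), m + l.length = (c x).length →
        RunLE (.loop b (body b) (body b)) (update (update s b l) (b + 1) (st x m))
          (update s (b + 1) (st x (c x).length))
          (l.length * (p.eval N + (2 * N + 1) + (4 * N + 3) + 3) + 1) := by
      intro l
      induction l with
      | nil =>
        intro m hm
        have hm' : m = (c x).length := by simpa using hm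
        subst hm'
        refine (RunLE.loop_nil ?_).congr' ?_ (by simp)
        · rw [update_of_ne (by omega), update_self]
        · rw [upd_nil hsb]
      | cons a l ih =>
        intro m hm
        rw [List.length_cons] at hm
        have hlen := hq x m (by omega)
        have hlen' := hq x (m + 1) (by omega)
        rw [← hN] at hlen hlen'
        set y := st x m with hy
        have ih' := ih (m + 1) (by omega)
        set s1 := update (update s b l) (b + 1) y with hs1
        have r1 := hQ.2 (b + 1) (b + 2) (b + 3) (by omega) (by omega) (by omega)
          ⟨(x, m), by change m < (c x).length; omega⟩ s1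
          (by rw [hs1, update_self])
          (by rw [hs1, update_of_ne (by omega), update_of_ne (by omega)]; exact hsb2)
          (fun j hj => by
            rw [hs1, update_of_ne (by omega), update_of_ne (by omega)]; exact hs j (by omega))
        change RunLE _ s1 (update s1 (b + 2) (st x (m + 1))) (p.eval y.length) at r1
        have e1 : s1 (b + 1) = y := by rw [hs1, update_self]
        have r2 := clr_run (b + 1) y (update s1 (b + 2) (st x (m + 1)))
          (by rw [update_of_ne (by omega), e1])
        have r3 := mvo_run (a := b + 2) (b := b + 1) (t := b + 3) (by omega) (by omega) (by omega)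
          (update (update s1 (b + 2) (st x (m + 1))) (b + 1) [])
          (by
            rw [update_of_ne (by omega), update_of_ne (by omega), hs1, update_of_ne (by omega),
              update_of_ne (by omega)]
            exact hs _ (by omega))
        have e2 : update (update s1 (b + 2) (st x (m + 1))) (b + 1) [] (b + 2) =
            st x (m + 1) := by
          rw [update_of_ne (by omega), update_self]
        rw [e2] at r3
        have r4 := r1.seq (r2.seq r3)
        have e3 : update (update (update (update s1 (b + 2) (st x (m + 1))) (b + 1) [])
            (b + 2) []) (b + 1)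
            (st x (m + 1) ++ update (update s1 (b + 2) (st x (m + 1))) (b + 1) [] (b + 1)) =
            update (update s b l) (b + 1) (st x (m + 1)) := by
          funext j
          simp only [update_apply, hs1]
          split_ifs <;> simp_all
        rw [e3] at r4
        have r5 := RunLE.loop_cons (k := b) (a := a) (l := l) (t := body b) (f := body b)
          (s := update (update s b (a :: l)) (b + 1) y)
          (by rw [update_of_ne (by omega), update_self])
          (s' := update (update s b l) (b + 1) (st x (m + 1)))
          (n := p.eval y.length + ((2 * y.length + 1) + (4 * (st x (m + 1)).length + 3) + 1) + 1)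
          (by
            have e4 : update (update (update s b (a :: l)) (b + 1) y) b l = s1 := by
              funext j
              simp only [update_apply, hs1]
              split_ifs <;> simp_all
            rw [e4]
            cases a <;> exact r4) ih'
        refine r5.mono ?_
        have := eval_mono p hlen
        rw [List.length_cons, Nat.add_mul, Nat.one_mul]
        omega
    have h3 := hloop (c x) 0 (Nat.zero_add _)
    have h4 := mvo_run (a := b + 1) (b := o) (t := b + 2) (by omega) (by omega) (by omega)
      (update s (b + 1) (st x (c x).length))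
      (by rw [update_of_ne (by omega)]; exact hsb2)
    rw [update_self] at h4
    refine (h1.seq (h2.seq (h3.seq h4))).congr' ?_ ?_
    · funext j
      simp only [update_apply]
      split_ifs <;> simp_all
    · have hl1 := hC.length_le x
      have hl2 := hq x (c x).length le_rfl
      rw [← hN] at hl2
      have hmul := Nat.mul_le_mul_right (p.eval N + (2 * N + 1) + (4 * N + 3) + 3) hl1
      simp only [Polynomial.eval_add, Polynomial.eval_mul, Polynomial.eval_one,
        Polynomial.eval_ofNat, Polynomial.eval_comp]
      rw [← hN]
      omega

/-! ## The bridge to Mathlib's Turing machines -/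

set_option backward.isDefEq.respectTransparency false in
/-- Polynomial-time computable functions are computable in polynomial time by a machine of type
`FinTM2`. The input is given over an arbitrary finite alphabet `Γ₀`, whose symbols are coded by
strings. -/
theorem PT.tm2 {α β Γ₀ : Type} [Fintype Γ₀] (ea : α → List Γ₀) (eb : β → List Bool)
    (code : Γ₀ → List Bool) (F : α → β)
    (hF : PT (fun a => (ea a).flatMap code) (fun a => eb (F a))) :
    Nonempty (TM2ComputableInPolyTime ea eb F) := by
  classical
  obtain ⟨P, w, p, hP⟩ := hF
  -- clear the input at the end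
  let Q : Cmd := .seq (P 0 1 2) (clr 0)
  have hQ : Q.Below (w + 3) := by
    refine ⟨(hP.1 0 1 2 (by omega) (by omega)).mono (by omega), ?_⟩
    simp only [clr, Cmd.Below, and_true]; omega
  -- a bound on the length of the codes
  obtain ⟨L, hL⟩ : ∃ L : ℕ, ∀ a : Γ₀, (code a).length ≤ L :=
    ⟨Finset.univ.sup (fun a => (code a).length), fun a =>
      Finset.le_sup (f := fun a => (code a).length) (Finset.mem_univ a)⟩
  have hlen : ∀ x : List Γ₀, (x.flatMap code).length ≤ L * x.length := by
    intro x
    induction x with
    | nil => simp
    | cons a x ih =>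
      rw [List.flatMap_cons, List.length_append, List.length_cons]
      have := hL a
      calc (code a).length + (x.flatMap code).length ≤ L + L * x.length := by omega
        _ = L * (x.length + 1) := by ring
  have hrun : ∀ x : α, ∃ n, Run Q (St.one 0 ((ea x).flatMap code)) (St.one 1 (eb (F x))) n
      ∧ n ≤ p.eval (L * (ea x).length) + (2 * (L * (ea x).length) + 1) + 1 := by
    intro x
    have e1 : St.one 0 ((ea x).flatMap code) 0 = (ea x).flatMap code := by simp [St.one]
    have h1 := hP.2 0 1 2 (by omega) (by omega) (by omega) x (St.one 0 ((ea x).flatMap code)) e1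
      (by simp [St.one, St.empty])
      (fun j hj => by rw [St.one, update_of_ne (by omega)]; rfl)
    have hl := hlen (ea x)
    set y := (ea x).flatMap code with hy
    have h2 := clr_run 0 y (update (St.one 0 y) 1 (eb (F x))) (by
      rw [update_of_ne (by omega)]; exact e1)
    obtain ⟨k, hk, hr⟩ := (h1.seq h2).congr (s'' := St.one 1 (eb (F x))) (by
      funext j
      simp only [update_apply, St.one, St.empty]
      split_ifs <;> simp_all)
    have hk' : k ≤ p.eval y.length + (2 * y.length + 1) + 1 := hk
    refine ⟨k, hr, hk'.trans ?_⟩
    have := eval_mono p hl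
    omega
  refine ⟨{
    tm := machine w Γ₀ Q code
    inputAlphabet := Equiv.refl Γ₀
    outputAlphabet := Equiv.refl Bool
    time := 2 * Polynomial.X + 1 + (Polynomial.C L * Polynomial.X + 1) +
      (p.comp (Polynomial.C L * Polynomial.X) + (2 * (Polynomial.C L * Polynomial.X) + 1) + 1) + 1
    outputsFun := fun a => ?_ }⟩
  have hex := hrun a
  have hrun' := hex.choose_spec.1
  have htime := hex.choose_spec.2
  have hsteps := machine_outputs (m := w) Q hQ code (ea a) (eb (F a)) _ hrun'
  refine ⟨⟨2 * (ea a).length + 1 + (((ea a).flatMap code).length + 1) + hex.choose + 1, ?_⟩, ?_⟩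
  · have e1 : List.map (Equiv.refl Γ₀).invFun (ea a) = ea a := List.map_id _
    have e2 : List.map (Equiv.refl Bool).invFun (eb (F a)) = eb (F a) := List.map_id _
    rw [e1, e2]
    exact hsteps
  · have hl := hlen (ea a)
    simp only [Polynomial.eval_add, Polynomial.eval_mul, Polynomial.eval_one,
      Polynomial.eval_ofNat, Polynomial.eval_comp, Polynomial.eval_X, Polynomial.eval_C]
    omega

end Pool.Agent.Helper91.PolyTime
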