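import Mathlib
import Pool.Agent.Helper91.PolyTime.Basic

/-!
# Polynomial-time computable functions between encoded types

`PEnc α` is an injective encoding of `α` by strings of Booleans, and `PTF f` says that `f : α → β`
is computable in polynomial time with respect to these encodings.
-/

open Function

namespace Pool.Agent.Helper91.PolyTime

/-! ## More string functions -/

section strings

variable {α : Type*} {e : α → List Bool}

/-- The length of a string, in unary. -/
lemma PT.len {f : α → List Bool} (hf : PT e f) :
    PT e (fun x => List.replicate (f x).length true) := by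
  obtain ⟨p, hp⟩ := hf.length_le
  refine PT.iterate (st := fun _ m => List.replicate m true) hf (PT.const []) ?_ p ?_
  · exact PT.cons true (PT.refl _)
  · intro x m hm
    rw [List.length_replicate]
    exact hm.trans (hp x)

/-- Case distinction: emptiness. -/
lemma PT.ifNil {c f g : α → List Bool} (hc : PT e c) (hf : PT e f) (hg : PT e g) :
    PT e (fun x => if c x = [] then f x else g x) := by
  have h := PT.cases hc hf hg hg
  have he : (fun x => if c x = [] then f x else g x) = fun x => match c x with
      | [] => f x
      | true :: _ => g x
      | false :: _ => g x := by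
    funext x
    cases hcx : c x with
    | nil => simp
    | cons a l => cases a <;> simp
  rw [he]; exact h

/-- Case distinction: the first symbol is `true`. -/
lemma PT.ifTrue {c f g : α → List Bool} (hc : PT e c) (hf : PT e f) (hg : PT e g) :
    PT e (fun x => if (c x).head? = some true then f x else g x) := by
  have h := PT.cases hc hg hf hg
  have he : (fun x => if (c x).head? = some true then f x else g x) = fun x => match c x with
      | [] => g x
      | true :: _ => f x
      | false :: _ => g x := by
    funext x
    cases hcx : c x with
    | nil => simp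
    | cons a l => cases a <;> simp
  rw [he]; exact h

/-- One step of the comparison of two strings. -/
def cmpStep (s : List Bool) : List Bool :=
  match (upr s).1 with
  | [] => s
  | true :: _ => match (upr s).2 with
    | [] => s
    | true :: _ => pr (upr s).1.tail (upr s).2.tail
    | false :: _ => s
  | false :: _ => match (upr s).2 with
    | [] => s
    | true :: _ => s
    | false :: _ => pr (upr s).1.tail (upr s).2.tail

lemma PT.cmpStep {f : α → List Bool} : PT f (fun x => cmpStep (f x)) :=
  PT.cases (PT.refl f).fst (PT.refl f)
    (PT.cases (PT.refl f).snd (PT.refl f) (PT.pair (PT.refl f).fst.tail (PT.refl f).snd.tail)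
      (PT.refl f))
    (PT.cases (PT.refl f).snd (PT.refl f) (PT.refl f)
      (PT.pair (PT.refl f).fst.tail (PT.refl f).snd.tail))

lemma cmpStep_cons (a b : Bool) (u v : List Bool) :
    PolyTime.cmpStep (pr (a :: u) (b :: v)) = if a = b then pr u v else pr (a :: u) (b :: v) := by
  cases a <;> cases b <;> simp [PolyTime.cmpStep]

lemma cmpStep_nil (v : List Bool) : PolyTime.cmpStep (pr [] v) = pr [] v := by
  simp [PolyTime.cmpStep]

lemma cmpStep_nil' (u : List Bool) : PolyTime.cmpStep (pr u []) = pr u [] := by
  cases u with
  | nil => exact cmpStep_nil []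
  | cons a u => cases a <;> simp [PolyTime.cmpStep]

/-- The comparison always yields a pair, which does not grow. -/
lemma cmpStep_pair : ∀ (m : ℕ) (u v : List Bool), ∃ u' v',
    PolyTime.cmpStep^[m] (pr u v) = pr u' v' ∧ u'.length ≤ u.length ∧ v'.length ≤ v.length
  | 0, u, v => ⟨u, v, rfl, le_rfl, le_rfl⟩
  | m + 1, u, v => by
    rw [iterate_succ_apply]
    cases u with
    | nil => rw [cmpStep_nil]; exact cmpStep_pair m _ _
    | cons a u =>
      cases v with
      | nil => rw [cmpStep_nil']; exact cmpStep_pair m _ _
      | cons b v =>
        rw [cmpStep_cons]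
        split_ifs
        · obtain ⟨u', v', h1, h2, h3⟩ := cmpStep_pair m u v
          exact ⟨u', v', h1, h2.trans (by simp), h3.trans (by simp)⟩
        · exact cmpStep_pair m _ _

lemma cmpStep_iterate : ∀ (n : ℕ) (u v : List Bool), u.length ≤ n →
    (PolyTime.cmpStep^[n] (pr u v) = pr [] [] ↔ u = v)
  | 0, u, v, h => by
    have : u = [] := List.eq_nil_of_length_eq_zero (by omega)
    subst this
    simp only [iterate_zero, id_eq]
    constructor
    · intro h
      have := congrArg upr h
      simpa [eq_comm] using this
    · rintro rfl; rfl
  | n + 1, [], v, h => by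
    rw [iterate_succ_apply, cmpStep_nil]
    exact cmpStep_iterate n [] v (by simp)
  | n + 1, a :: u, [], h => by
    rw [iterate_succ_apply, cmpStep_nil']
    have hfix : ∀ m, PolyTime.cmpStep^[m] (pr (a :: u) []) = pr (a :: u) [] := by
      intro m
      induction m with
      | zero => rfl
      | succ m ih => rw [iterate_succ_apply, cmpStep_nil', ih]
    rw [hfix]
    constructor
    · intro h
      have := congrArg upr h
      simp at this
    · intro h; simp at h
  | n + 1, a :: u, b :: v, h => by
    rw [iterate_succ_apply, cmpStep_cons]
    by_cases hab : a = b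
    · rw [if_pos hab, cmpStep_iterate n u v (by simpa using h)]
      simp [hab]
    · rw [if_neg hab]
      have hfix : ∀ m, PolyTime.cmpStep^[m] (pr (a :: u) (b :: v)) = pr (a :: u) (b :: v) := by
        intro m
        induction m with
        | zero => rfl
        | succ m ih => rw [iterate_succ_apply, cmpStep_cons, if_neg hab, ih]
      rw [hfix]
      constructor
      · intro h
        have := congrArg upr h
        simp at this
      · intro h
        simp only [List.cons.injEq] at h
        exact absurd h.1 hab

/-- Equality of strings. -/
lemma PT.ifEq {c d f g : α → List Bool} (hc : PT e c) (hd : PT e d) (hf : PT e f)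
    (hg : PT e g) : PT e (fun x => if c x = d x then f x else g x) := by
  obtain ⟨p, hp⟩ := hc.length_le
  obtain ⟨q, hq⟩ := hd.length_le
  have h1 : PT e (fun x => PolyTime.cmpStep^[(c x).length] (pr (c x) (d x))) := by
    refine PT.iterate (st := fun x m => PolyTime.cmpStep^[m] (pr (c x) (d x))) hc (hc.pair hd) ?_
      (2 * p + q + 1) ?_
    · have h := PT.cmpStep (f := fun y : {y : α × ℕ // y.2 < (c y.1).length} =>
        PolyTime.cmpStep^[y.1.2] (pr (c y.1.1) (d y.1.1)))
      have he : (fun y : {y : α × ℕ // y.2 < (c y.1).length} =>
          PolyTime.cmpStep^[y.1.2 + 1] (pr (c y.1.1) (d y.1.1))) =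
          fun y : {y : α × ℕ // y.2 < (c y.1).length} =>
          PolyTime.cmpStep (PolyTime.cmpStep^[y.1.2] (pr (c y.1.1) (d y.1.1))) := by
        funext y; rw [iterate_succ_apply']
      rw [he]; exact h
    · intro x m hm
      obtain ⟨u', v', h1, h2, h3⟩ := cmpStep_pair m (c x) (d x)
      rw [h1, length_pr]
      have h4 := hp x
      have h5 := hq x
      simp only [Polynomial.eval_add, Polynomial.eval_mul, Polynomial.eval_one,
        Polynomial.eval_ofNat]
      omega
  -- the result is `pr [] []` iff both components are empty
  have h2 := PT.ifNil h1.fst (PT.ifNil (h1.snd) hf hg) hg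
  have he : (fun x => if c x = d x then f x else g x) = fun x =>
      if (upr (PolyTime.cmpStep^[(c x).length] (pr (c x) (d x)))).1 = [] then
        (if (upr (PolyTime.cmpStep^[(c x).length] (pr (c x) (d x)))).2 = [] then f x else g x)
      else g x := by
    funext x
    obtain ⟨u', v', hu, -, -⟩ := cmpStep_pair (c x).length (c x) (d x)
    have hiff := cmpStep_iterate (c x).length (c x) (d x) le_rfl
    rw [hu] at hiff ⊢
    simp only [upr_pr]
    by_cases hcd : c x = d x
    · have h3 := hiff.2 hcd
      have h4 := congrArg upr h3
      simp only [upr_pr, Prod.mk.injEq] at h4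
      rw [if_pos hcd, if_pos h4.1, if_pos h4.2]
    · rw [if_neg hcd]
      by_cases hu' : u' = []
      · by_cases hv' : v' = []
        · subst hu' hv'
          exact absurd (hiff.1 rfl) hcd
        · rw [if_pos hu', if_neg hv']
      · rw [if_neg hu']
  rw [he]; exact h2

end strings

/-! ## Encoded types -/

/-- An injective encoding by strings. -/
class PEnc (α : Type*) where
  /-- the encoding -/
  enc : α → List Bool
  enc_inj : Injective enc

export PEnc (enc)

/-- Polynomial-time computability of a function between encoded types. -/
def PTF {α β : Type*} [PEnc α] [PEnc β] (f : α → β) : Prop :=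
  PT (fun a => enc a) (fun a => enc (f a))

/-- Strings, encoded by themselves. -/
def Str : Type := List Bool

instance : PEnc Str := ⟨fun x => x, fun _ _ h => h⟩

instance : PEnc Bool := ⟨fun b => [b], fun a b h => by simpa using h⟩

instance : PEnc Unit := ⟨fun _ => [], fun _ _ _ => rfl⟩

instance : PEnc ℕ := ⟨fun n => List.replicate n true, fun a b h => by
  simpa using congrArg List.length h⟩

variable {α β γ δ σ : Type*} [PEnc α] [PEnc β] [PEnc γ] [PEnc δ] [PEnc σ]

instance instPEncProd : PEnc (α × β) := ⟨fun x => pr (enc x.1) (enc x.2), fun a b h => by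
  have := congrArg upr h
  simp only [upr_pr, Prod.mk.injEq] at this
  exact Prod.ext (PEnc.enc_inj this.1) (PEnc.enc_inj this.2)⟩

instance instPEncOption : PEnc (Option α) := ⟨fun x => match x with
    | none => []
    | some a => true :: enc a, fun a b h => by
  cases a <;> cases b <;> simp at h ⊢
  exact PEnc.enc_inj h⟩

instance instPEncSum : PEnc (α ⊕ β) := ⟨fun x => match x with
    | .inl a => true :: enc a
    | .inr b => false :: enc b, fun a b h => by
  cases a <;> cases b <;> simp at h ⊢
  · exact PEnc.enc_inj h
  · exact PEnc.enc_inj h⟩

/-- Encoding of lists. -/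
def encL : List α → List Bool
  | [] => []
  | a :: l => pr (enc a) (encL l)

lemma encL_inj : ∀ l l' : List α, encL l = encL l' → l = l'
  | [], [], _ => rfl
  | [], a :: l, h => by
    have := congrArg List.length h
    simp [encL, length_pr] at this
  | a :: l, [], h => by
    have := congrArg List.length h
    simp [encL, length_pr] at this
  | a :: l, b :: l', h => by
    have := congrArg upr h
    simp only [encL, upr_pr, Prod.mk.injEq] at this
    rw [PEnc.enc_inj this.1, encL_inj l l' this.2]

instance instPEncList : PEnc (List α) := ⟨encL, fun l l' h => encL_inj l l' h⟩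

/-- Encoding of subtypes. -/
instance instPEncSubtype {p : α → Prop} : PEnc {a // p a} :=
  ⟨fun a => enc a.1, fun _ _ h => Subtype.ext (PEnc.enc_inj h)⟩

lemma enc_prod (a : α) (b : β) : enc (a, b) = pr (enc a) (enc b) := rfl
lemma enc_bool (b : Bool) : enc b = [b] := rfl
lemma enc_nat (n : ℕ) : enc n = List.replicate n true := rfl
lemma enc_nil : enc ([] : List α) = [] := rfl
lemma enc_cons (a : α) (l : List α) : enc (a :: l) = pr (enc a) (enc l) := rfl
lemma enc_none : enc (none : Option α) = [] := rfl
lemma enc_some (a : α) : enc (some a) = true :: enc a := rfl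
lemma enc_inl (a : α) : enc (Sum.inl a : α ⊕ β) = true :: enc a := rfl
lemma enc_inr (b : β) : enc (Sum.inr b : α ⊕ β) = false :: enc b := rfl
lemma enc_str (x : Str) : enc x = x := rfl

lemma length_enc_nat (n : ℕ) : (enc n).length = n := by simp [enc_nat]

lemma length_enc_prod (a : α) (b : β) :
    (enc (a, b)).length = 2 * (enc a).length + (enc b).length + 1 := by
  rw [enc_prod, length_pr]

lemma length_enc_cons (a : α) (l : List α) :
    (enc (a :: l)).length = 2 * (enc a).length + (enc l).length + 1 := by
  rw [enc_cons, length_pr]

lemma enc_append (l l' : List α) : enc (l ++ l') = enc l ++ enc l' := by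
  induction l with
  | nil => rfl
  | cons a l ih =>
    rw [List.cons_append, enc_cons, ih, enc_cons]
    simp [pr]

lemma length_enc_append (l l' : List α) :
    (enc (l ++ l')).length = (enc l).length + (enc l').length := by
  rw [enc_append, List.length_append]

lemma length_le_enc (l : List α) : l.length ≤ (enc l).length := by
  induction l with
  | nil => simp
  | cons a l ih => rw [length_enc_cons, List.length_cons]; omega

lemma enc_mem_le {l : List α} {a : α} (h : a ∈ l) : (enc a).length ≤ (enc l).length := by
  induction l with
  | nil => simp at h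
  | cons b l ih =>
    rw [length_enc_cons]
    rcases List.mem_cons.1 h with rfl | h
    · omega
    · have := ih h; omega

namespace PTF

lemma id : PTF (fun a : α => a) := PT.refl _

lemma const (b : β) : PTF (fun _ : α => b) := PT.const (enc b)

lemma comp {g : β → γ} {f : α → β} (hg : PTF g) (hf : PTF f) : PTF (fun a => g (f a)) :=
  PT.trans hf (hg.reindex f)

lemma pair {f : α → β} {g : α → γ} (hf : PTF f) (hg : PTF g) : PTF (fun a => (f a, g a)) :=
  PT.pair hf hg

lemma of_eq {f g : α → β} (hf : PTF f) (h : ∀ a, f a = g a) : PTF g := by
  have : f = g := funext h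
  rwa [← this]

lemma fst {f : α → β × γ} (hf : PTF f) : PTF (fun a => (f a).1) := by
  have h := PT.fst hf
  have he : (fun a => (upr (enc (f a))).1) = fun a => enc (f a).1 := by
    funext a; exact congrArg Prod.fst (upr_pr _ _)
  rw [he] at h; exact h

lemma snd {f : α → β × γ} (hf : PTF f) : PTF (fun a => (f a).2) := by
  have h := PT.snd hf
  have he : (fun a => (upr (enc (f a))).2) = fun a => enc (f a).2 := by
    funext a; exact congrArg Prod.snd (upr_pr _ _)
  rw [he] at h; exact h

/-- Substitution in a function of two arguments. -/
lemma comp₂ {h : β → γ → δ} {f : α → β} {g : α → γ} (hh : PTF (fun p : β × γ => h p.1 p.2))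
    (hf : PTF f) (hg : PTF g) : PTF (fun a => h (f a) (g a)) :=
  hh.comp (hf.pair hg)

/-- The size of the value is polynomially bounded. -/
lemma length_le {f : α → β} (hf : PTF f) :
    ∃ p : Polynomial ℕ, ∀ a, (enc (f a)).length ≤ p.eval (enc a).length :=
  PT.length_le hf

/-! ### Booleans and case distinctions -/

lemma cond {c : α → Bool} {f g : α → β} (hc : PTF c) (hf : PTF f) (hg : PTF g) :
    PTF (fun a => bif c a then f a else g a) := by
  have h := PT.ifTrue hc hf hg
  have he : (fun a => if (enc (c a)).head? = some true then enc (f a) else enc (g a)) =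
      fun a => enc (bif c a then f a else g a) := by
    funext a
    cases hc : c a <;> simp [enc_bool]
  rw [he] at h; exact h

lemma ite {c : α → Prop} [DecidablePred c] {f g : α → β} (hc : PTF (fun a => decide (c a)))
    (hf : PTF f) (hg : PTF g) : PTF (fun a => if c a then f a else g a) := by
  refine (cond hc hf hg).of_eq fun a => ?_
  by_cases h : c a <;> simp [h]

lemma not {c : α → Bool} (hc : PTF c) : PTF (fun a => !(c a)) := by
  refine (cond hc (const false) (const true)).of_eq fun a => ?_
  cases c a <;> rfl

lemma and {c d : α → Bool} (hc : PTF c) (hd : PTF d) : PTF (fun a => c a && d a) := by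
  refine (cond hc hd (const false)).of_eq fun a => ?_
  cases c a <;> rfl

lemma or {c d : α → Bool} (hc : PTF c) (hd : PTF d) : PTF (fun a => c a || d a) := by
  refine (cond hc (const true) hd).of_eq fun a => ?_
  cases c a <;> rfl

lemma decide_not {c : α → Prop} [DecidablePred c] (hc : PTF (fun a => decide (c a))) :
    PTF (fun a => decide (¬ c a)) := by
  refine (not hc).of_eq fun a => ?_
  simp

lemma decide_and {c d : α → Prop} [DecidablePred c] [DecidablePred d]
    (hc : PTF (fun a => decide (c a))) (hd : PTF (fun a => decide (d a))) :
    PTF (fun a => decide (c a ∧ d a)) := by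
  refine (and hc hd).of_eq fun a => ?_
  simp

lemma decide_or {c d : α → Prop} [DecidablePred c] [DecidablePred d]
    (hc : PTF (fun a => decide (c a))) (hd : PTF (fun a => decide (d a))) :
    PTF (fun a => decide (c a ∨ d a)) := by
  refine (or hc hd).of_eq fun a => ?_
  simp

/-- Equality of encoded objects. -/
lemma eq [DecidableEq β] {f g : α → β} (hf : PTF f) (hg : PTF g) :
    PTF (fun a => decide (f a = g a)) := by
  have h := PT.ifEq hf hg (PT.const [true]) (PT.const [false])
  have he : (fun a => if enc (f a) = enc (g a) then [true] else [false]) =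
      fun a => enc (decide (f a = g a)) := by
    funext a
    by_cases h : f a = g a
    · simp [h, enc_bool]
    · have : enc (f a) ≠ enc (g a) := fun h' => h (PEnc.enc_inj h')
      simp [h, this, enc_bool]
  rw [he] at h; exact h

/-- Case distinction over a finite type. -/
lemma finCase [Finite δ] {d : α → δ} {f : δ → α → β} (hd : PTF d) (hf : ∀ x, PTF (f x)) :
    PTF (fun a => f (d a) a) := by
  classical
  have := Fintype.ofFinite δ
  -- for every list of values there is a function that is right on these values
  have key : ∀ l : List δ, ∀ x₀ : δ, ∃ g : α → β, PTF g ∧ ∀ a, (d a ∈ l ∨ d a = x₀) →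
      g a = f (d a) a := by
    intro l x₀
    induction l with
    | nil =>
      refine ⟨f x₀, hf x₀, fun a ha => ?_⟩
      rcases ha with ha | ha
      · simp at ha
      · rw [ha]
    | cons x l ih =>
      obtain ⟨g, hg, hg'⟩ := ih
      refine ⟨fun a => if d a = x then f x a else g a, ite (eq hd (const x)) (hf x) hg, ?_⟩
      intro a ha
      by_cases h : d a = x
      · simp [h]
      · simp only [if_neg h]
        apply hg'
        rcases ha with ha | ha
        · rcases List.mem_cons.1 ha with h' | h'
          · exact absurd h' h
          · exact Or.inl h'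
        · exact Or.inr ha
  by_cases hδ : Nonempty δ
  · obtain ⟨x₀⟩ := hδ
    obtain ⟨g, hg, hg'⟩ := key Finset.univ.toList x₀
    exact hg.of_eq fun a => hg' a (Or.inl (by simp))
  · have hα : IsEmpty α := ⟨fun a => hδ ⟨d a⟩⟩
    exact ⟨fun _ _ _ => .skip, 0, 0, fun _ _ _ _ _ => trivial,
      fun _ _ _ _ _ _ x => (hα.false x).elim⟩

/-- Every function on a finite type is computable in polynomial time. -/
lemma ofFinite [Finite α] (f : α → β) : PTF f :=
  finCase (d := fun a : α => a) (f := fun x _ => f x) id fun x => const (f x)

/-! ### Options and sums -/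

lemma some {f : α → β} (hf : PTF f) : PTF (fun a => Option.some (f a)) := PT.cons true hf

lemma optCase {o : α → Option β} {n : α → γ} {s : α → β → γ} (ho : PTF o) (hn : PTF n)
    (hs : PTF (fun p : α × β => s p.1 p.2)) :
    PTF (fun a => match o a with
      | none => n a
      | Option.some b => s a b) := by
  refine PT.casesOn ho ?_ ?_ ?_
  · have h := hn.reindex (fun x : {x : α // enc (o x) = []} => (x : α))
    have he : (fun x : {x : α // enc (o x) = []} => enc (match o x with
      | none => n x
      | Option.some b => s x b)) = fun x : {x : α // enc (o x) = []} => enc (n x) := by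
      funext x
      have := x.2
      cases hx : o x with
      | none => rfl
      | some b => rw [hx, enc_some] at this; simp at this
    rw [he]; exact h
  · -- extract the value
    have hval : ∀ x : {x : α // ∃ l, enc (o x) = true :: l}, ∃ b, o x = Option.some b := by
      intro x
      obtain ⟨l, hl⟩ := x.2
      cases hx : o x with
      | none => rw [hx, enc_none] at hl; simp at hl
      | some b => exact ⟨b, rfl⟩
    choose φ hφ using hval
    have h1 : PT (fun x : {x : α // ∃ l, enc (o x) = true :: l} => enc (x : α))
        (fun x => pr (enc (x : α)) (enc (o x)).tail) :=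
      PT.pair (PT.refl _) (ho.reindex (fun x : {x : α // ∃ l, enc (o x) = true :: l} =>
        (x : α))).tail
    have h2 := hs.reindex (fun x : {x : α // ∃ l, enc (o x) = true :: l} => ((x : α), φ x))
    have he : (fun x : {x : α // ∃ l, enc (o x) = true :: l} =>
        pr (enc (x : α)) (enc (o x)).tail) =
        fun x : {x : α // ∃ l, enc (o x) = true :: l} => enc ((x : α), φ x) := by
      funext x
      rw [hφ x, enc_some, List.tail_cons, enc_prod]
    rw [he] at h1
    have he2 : (fun x : {x : α // ∃ l, enc (o x) = true :: l} => enc (match o x with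
      | none => n x
      | Option.some b => s x b)) =
        fun x : {x : α // ∃ l, enc (o x) = true :: l} => enc (s x (φ x)) := by
      funext x; rw [hφ x]
    rw [he2]; exact h1.trans h2
  · have hα : IsEmpty {x : α // ∃ l, enc (o x) = false :: l} := ⟨fun x => by
      obtain ⟨l, hl⟩ := x.2
      cases hx : o x with
      | none => rw [hx, enc_none] at hl; simp at hl
      | some b => rw [hx, enc_some] at hl; simp at hl⟩
    exact ⟨fun _ _ _ => .skip, 0, 0, fun _ _ _ _ _ => trivial,
      fun _ _ _ _ _ _ x => (hα.false x).elim⟩

lemma inl {f : α → β} (hf : PTF f) : PTF (fun a => (Sum.inl (f a) : β ⊕ γ)) := PT.cons true hf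

lemma inr {f : α → γ} (hf : PTF f) : PTF (fun a => (Sum.inr (f a) : β ⊕ γ)) := PT.cons false hf

/-! ### Lists -/

lemma cons {f : α → β} {g : α → List β} (hf : PTF f) (hg : PTF g) :
    PTF (fun a => f a :: g a) := PT.pair hf hg

lemma append {f g : α → List β} (hf : PTF f) (hg : PTF g) : PTF (fun a => f a ++ g a) := by
  have h := PT.append hf hg
  have he : (fun a => enc (f a) ++ enc (g a)) = fun a => enc (f a ++ g a) := by
    funext a; rw [enc_append]
  rw [he] at h; exact h

lemma enc_cons_ne_nil (b : β) (l : List β) : enc (b :: l) ≠ [] := by
  intro h'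
  have := congrArg List.length h'
  rw [length_enc_cons] at this
  simp at this

lemma listCase {o : α → List β} {n : α → γ} {s : α → β → List β → γ} (ho : PTF o) (hn : PTF n)
    (hs : PTF (fun p : α × β × List β => s p.1 p.2.1 p.2.2)) :
    PTF (fun a => match o a with
      | [] => n a
      | b :: l => s a b l) := by
  have hnil : PT (fun x : {x : α // enc (o x) = []} => enc (x : α))
      (fun x => enc (match o x with
      | [] => n x
      | b :: l => s x b l)) := by
    have h := hn.reindex (fun x : {x : α // enc (o x) = []} => (x : α))
    have he : (fun x : {x : α // enc (o x) = []} => enc (match o x with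
      | [] => n x
      | b :: l => s x b l)) = fun x : {x : α // enc (o x) = []} => enc (n x) := by
      funext x
      have := x.2
      cases hx : o x with
      | nil => rfl
      | cons b l => rw [hx] at this; exact absurd this (enc_cons_ne_nil b l)
    rw [he]; exact h
  have hcons : ∀ p : α → Prop, (∀ x, p x → enc (o x) ≠ []) →
      PT (fun x : {x : α // p x} => enc (x : α)) (fun x => enc (match o x with
      | [] => n x
      | b :: l => s x b l)) := by
    intro p hp
    have hval : ∀ x : {x : α // p x}, ∃ q : β × List β, o x = q.1 :: q.2 := by
      intro x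
      have h := hp x x.2
      cases hx : o x with
      | nil => rw [hx] at h; exact absurd rfl h
      | cons b l => exact ⟨(b, l), rfl⟩
    choose φ hφ using hval
    have h1 : PT (fun x : {x : α // p x} => enc (x : α)) (fun x => pr (enc (x : α)) (enc (o x))) :=
      PT.pair (PT.refl _) (ho.reindex (fun x : {x : α // p x} => (x : α)))
    have h2 := hs.reindex (fun x : {x : α // p x} => ((x : α), φ x))
    have he : (fun x : {x : α // p x} => pr (enc (x : α)) (enc (o x))) =
        fun x : {x : α // p x} => enc ((x : α), φ x) := by
      funext x
      rw [hφ x]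
      rfl
    rw [he] at h1
    have he2 : (fun x : {x : α // p x} => enc (match o x with
      | [] => n x
      | b :: l => s x b l)) = fun x : {x : α // p x} => enc (s x (φ x).1 (φ x).2) := by
      funext x; rw [hφ x]
    rw [he2]; exact h1.trans h2
  refine PT.casesOn ho hnil (hcons _ ?_) (hcons _ ?_)
  · rintro x ⟨l, hl⟩ h; rw [hl] at h; simp at h
  · rintro x ⟨l, hl⟩ h; rw [hl] at h; simp at h

/-! ### Iteration -/

/-- Bounded iteration. -/
lemma iterate {n : α → ℕ} {g : α → β} {F : α → β → β} (hn : PTF n) (hg : PTF g)
    (hF : PTF (fun p : α × β => F p.1 p.2)) (q : Polynomial ℕ)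
    (hq : ∀ a, ∀ m ≤ n a, (enc ((F a)^[m] (g a))).length ≤ q.eval (enc a).length) :
    PTF (fun a => (F a)^[n a] (g a)) := by
  have h := PT.iterate (st := fun a m => pr (enc a) (enc ((F a)^[m] (g a)))) hn
    (PT.pair (PT.refl _) hg) ?_ (2 * Polynomial.X + q + 1) ?_
  · have h2 := h.snd
    have he : (fun a => (upr (pr (enc a) (enc ((F a)^[(enc (n a)).length] (g a))))).2) =
        fun a => enc ((F a)^[n a] (g a)) := by
      funext a; rw [upr_pr, length_enc_nat]
    rw [he] at h2; exact h2
  · have h1 := hF.reindex (fun y : {y : α × ℕ // y.2 < (enc (n y.1)).length} =>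
      (y.1.1, (F y.1.1)^[y.1.2] (g y.1.1)))
    have h2 : PT (fun y : {y : α × ℕ // y.2 < (enc (n y.1)).length} =>
        pr (enc y.1.1) (enc ((F y.1.1)^[y.1.2] (g y.1.1)))) (fun y => enc y.1.1) := by
      have := (PT.refl (fun y : {y : α × ℕ // y.2 < (enc (n y.1)).length} =>
        pr (enc y.1.1) (enc ((F y.1.1)^[y.1.2] (g y.1.1))))).fst
      simpa using this
    have h3 := PT.pair h2 h1
    have he : (fun y : {y : α × ℕ // y.2 < (enc (n y.1)).length} =>
        pr (enc y.1.1) (enc ((F y.1.1)^[y.1.2 + 1] (g y.1.1)))) =
        fun y => pr (enc y.1.1) (enc (F y.1.1 ((F y.1.1)^[y.1.2] (g y.1.1)))) := by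
      funext y; rw [iterate_succ_apply']
    rw [he]; exact h3
  · intro a m hm
    rw [length_enc_nat] at hm
    rw [length_pr]
    have := hq a m hm
    simp only [Polynomial.eval_add, Polynomial.eval_mul, Polynomial.eval_one,
      Polynomial.eval_ofNat, Polynomial.eval_X]
    omega

/-- Length of the code, in unary. -/
lemma codeLength {f : α → β} (hf : PTF f) : PTF (fun a => (enc (f a)).length) := PT.len hf

/-- Bounded left fold over a list. -/
lemma foldl {l : α → List β} {g : α → σ} {F : α → σ → β → σ} (hl : PTF l) (hg : PTF g)
    (hF : PTF (fun p : α × σ × β => F p.1 p.2.1 p.2.2)) (q : Polynomial ℕ)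
    (hq : ∀ a l', l' <+: l a → (enc (l'.foldl (F a) (g a))).length ≤ q.eval (enc a).length) :
    PTF (fun a => (l a).foldl (F a) (g a)) := by
  -- the state: the remaining list and the accumulator
  let step : α → List β × σ → List β × σ := fun a s => match s.1 with
    | [] => s
    | b :: t => (t, F a s.2 b)
  have hstep : PTF (fun p : α × List β × σ => step p.1 p.2) := by
    have h := listCase (α := α × List β × σ) (β := β) (γ := List β × σ) (o := fun p => p.2.1)
      (n := fun p => p.2) (s := fun p b t => (t, F p.1 p.2.2 b)) id.snd.fst id.snd
      (pair id.snd.snd (hF.comp (pair id.fst.fst (pair id.fst.snd.snd id.snd.fst))))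
    refine h.of_eq fun p => ?_
    simp only [step]
  have hiter : ∀ (a : α) (t : List β) (s : σ) (m : ℕ),
      (step a)^[m] (t, s) = (t.drop m, (t.take m).foldl (F a) s) := by
    intro a t s m
    induction m generalizing t s with
    | zero => simp
    | succ m ih =>
      rw [iterate_succ_apply]
      cases t with
      | nil =>
        have : step a ([], s) = ([], s) := rfl
        rw [this, ih]; simp
      | cons b t =>
        have : step a (b :: t, s) = (t, F a s b) := rfl
        rw [this, ih]; simp
  have hdrop : ∀ (t : List β) (m : ℕ), (enc (t.drop m)).length ≤ (enc t).length := by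
    intro t m
    induction m generalizing t with
    | zero => simp
    | succ m ih =>
      cases t with
      | nil => simp
      | cons b t =>
        rw [List.drop_succ_cons, length_enc_cons]
        have := ih t
        omega
  obtain ⟨p, hp⟩ := hl.length_le
  have h := iterate (n := fun a => (enc (l a)).length) (g := fun a => (l a, g a)) (F := step)
    hl.codeLength (pair hl hg) hstep (2 * p + q + 1) (by
      intro a m _
      rw [hiter, length_enc_prod]
      have h1 := hq a ((l a).take m) (List.take_prefix _ _)
      have h2 := (hdrop (l a) m).trans (hp a)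
      simp only [Polynomial.eval_add, Polynomial.eval_mul, Polynomial.eval_one,
        Polynomial.eval_ofNat]
      omega)
  refine h.snd.of_eq fun a => ?_
  rw [hiter, List.take_of_length_le (length_le_enc (l a))]

/-- Flattening a list of results. -/
lemma flatMap {l : α → List β} {f : α → β → List γ} (hl : PTF l)
    (hf : PTF (fun p : α × β => f p.1 p.2)) : PTF (fun a => (l a).flatMap (f a)) := by
  obtain ⟨p, hp⟩ := hl.length_le
  obtain ⟨r, hr⟩ := hf.length_le
  have hfold : ∀ (a : α) (t : List β) (acc : List γ),
      t.foldl (fun s b => s ++ f a b) acc = acc ++ t.flatMap (f a) := by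
    intro a t
    induction t with
    | nil => intro acc; simp
    | cons b t ih => intro acc; simp [ih]
  have hbound : ∀ (a : α) (t : List β), (∀ b ∈ t, b ∈ l a) → (enc (t.flatMap (f a))).length ≤
      t.length * r.eval (2 * (enc a).length + p.eval (enc a).length + 1) := by
    intro a t
    induction t with
    | nil => intro _; simp [enc_nil]
    | cons b t ih =>
      intro h
      rw [List.flatMap_cons, length_enc_append, List.length_cons, Nat.add_mul, Nat.one_mul]
      have h1 := ih fun x hx => h x (List.mem_cons_of_mem _ hx)
      have h2 := hr (a, b)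
      have h3 : (enc (a, b)).length ≤ 2 * (enc a).length + p.eval (enc a).length + 1 := by
        rw [length_enc_prod]
        have h4 := (enc_mem_le (h b List.mem_cons_self)).trans (hp a)
        omega
      have h5 := h2.trans (eval_mono r h3)
      have h6 : (enc (f a b)).length ≤
        r.eval (2 * (enc a).length + p.eval (enc a).length + 1) := h5
      omega
  have h := foldl (l := l) (g := fun _ => ([] : List γ)) (F := fun a s b => s ++ f a b) hl
    (const []) (append id.snd.fst (hf.comp (pair id.fst id.snd.snd)))
    (p * r.comp (2 * Polynomial.X + p + 1)) (by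
      intro a t ht
      rw [hfold, List.nil_append]
      refine (hbound a t fun b hb => ht.subset hb).trans ?_
      have h1 : t.length ≤ p.eval (enc a).length :=
        (ht.length_le.trans (length_le_enc (l a))).trans (hp a)
      simp only [Polynomial.eval_add, Polynomial.eval_mul, Polynomial.eval_one,
        Polynomial.eval_ofNat, Polynomial.eval_comp, Polynomial.eval_X]
      exact Nat.mul_le_mul_right _ h1)
  refine h.of_eq fun a => ?_
  rw [hfold, List.nil_append]

lemma map {l : α → List β} {f : α → β → γ} (hl : PTF l)
    (hf : PTF (fun p : α × β => f p.1 p.2)) : PTF (fun a => (l a).map (f a)) := by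
  refine (flatMap (f := fun a b => [f a b]) hl (cons hf (const []))).of_eq fun a => ?_
  induction l a with
  | nil => rfl
  | cons b t ih => simp [ih]

lemma filter {l : α → List β} {f : α → β → Bool} (hl : PTF l)
    (hf : PTF (fun p : α × β => f p.1 p.2)) : PTF (fun a => (l a).filter (f a)) := by
  refine (flatMap (f := fun a b => bif f a b then [b] else []) hl
    (cond hf (cons id.snd (const [])) (const []))).of_eq fun a => ?_
  induction l a with
  | nil => rfl
  | cons b t ih =>
    rw [List.flatMap_cons, ih]
    cases h : f a b <;> simp [h]

lemma any {l : α → List β} {f : α → β → Bool} (hl : PTF l)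
    (hf : PTF (fun p : α × β => f p.1 p.2)) : PTF (fun a => (l a).any (f a)) := by
  have hfold : ∀ (a : α) (t : List β) (c : Bool),
      t.foldl (fun s b => s || f a b) c = (c || t.any (f a)) := by
    intro a t
    induction t with
    | nil => intro c; simp
    | cons b t ih => intro c; simp [ih, Bool.or_assoc]
  have h := foldl (l := l) (g := fun _ => false) (F := fun a s b => s || f a b) hl
    (const false) (or id.snd.fst (hf.comp (pair id.fst id.snd.snd))) 1 (by
      intro a t _
      simp [enc_bool])
  refine h.of_eq fun a => ?_
  rw [hfold, Bool.false_or]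

lemma all {l : α → List β} {f : α → β → Bool} (hl : PTF l)
    (hf : PTF (fun p : α × β => f p.1 p.2)) : PTF (fun a => (l a).all (f a)) := by
  refine (not (any (f := fun a b => !(f a b)) hl (not hf))).of_eq fun a => ?_
  induction l a with
  | nil => rfl
  | cons b t ih => simp [← ih]

lemma length {l : α → List β} (hl : PTF l) : PTF (fun a => (l a).length) := by
  have hfold : ∀ (t : List β) (c : ℕ), t.foldl (fun s _ => s + 1) c = c + t.length := by
    intro t
    induction t with
    | nil => intro c; simp
    | cons b t ih => intro c; rw [List.foldl_cons, ih, List.length_cons]; ring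
  have hsucc : PTF (fun n : ℕ => n + 1) := by
    have h : PT (fun n : ℕ => enc n) (fun n => true :: enc n) := PT.cons true (PT.refl _)
    have he : (fun n : ℕ => true :: enc n) = fun n : ℕ => enc (n + 1) := by
      funext n; rw [enc_nat, enc_nat, List.replicate_succ]
    rw [he] at h; exact h
  obtain ⟨p, hp⟩ := hl.length_le
  have h := foldl (l := l) (g := fun _ => 0) (F := fun _ s _ => s + 1) hl
    (const 0) (hsucc.comp id.snd.fst) p (by
      intro a t ht
      rw [hfold, length_enc_nat, Nat.zero_add]
      exact (ht.length_le.trans (length_le_enc (l a))).trans (hp a))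
  refine h.of_eq fun a => ?_
  rw [hfold, Nat.zero_add]

lemma tail {l : α → List β} (hl : PTF l) : PTF (fun a => (l a).tail) := by
  refine (listCase (s := fun _ _ t => t) hl (const []) id.snd.snd).of_eq fun a => ?_
  cases l a <;> rfl

lemma head? {l : α → List β} (hl : PTF l) : PTF (fun a => (l a).head?) := by
  refine (listCase (s := fun _ b _ => Option.some b) hl (const none)
    (some id.snd.fst)).of_eq fun a => ?_
  cases l a <;> rfl

lemma reverse {l : α → List β} (hl : PTF l) : PTF (fun a => (l a).reverse) := by
  have hfold : ∀ (t acc : List β), t.foldl (fun s b => b :: s) acc = t.reverse ++ acc := by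
    intro t
    induction t with
    | nil => intro acc; simp
    | cons b t ih => intro acc; simp [ih]
  have hlen : ∀ t : List β, (enc t.reverse).length = (enc t).length := by
    intro t
    induction t with
    | nil => rfl
    | cons b t ih =>
      rw [List.reverse_cons, length_enc_append, ih, length_enc_cons, length_enc_cons, enc_nil]
      simp; ring
  have hpre : ∀ (t u : List β), t <+: u → (enc t).length ≤ (enc u).length := by
    rintro t _ ⟨v, rfl⟩
    rw [length_enc_append]; omega
  obtain ⟨p, hp⟩ := hl.length_le
  have h := foldl (l := l) (g := fun _ => ([] : List β)) (F := fun _ s b => b :: s) hl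
    (const []) (cons id.snd.snd id.snd.fst) p (by
      intro a t ht
      rw [hfold, List.append_nil, hlen]
      exact (hpre _ _ ht).trans (hp a))
  refine h.of_eq fun a => ?_
  rw [hfold, List.append_nil]

/-! ### Arithmetic of unary numbers -/

lemma succ {f : α → ℕ} (hf : PTF f) : PTF (fun a => f a + 1) := by
  have h : PT (fun a => enc a) (fun a => true :: enc (f a)) := PT.cons true hf
  have he : (fun a => true :: enc (f a)) = fun a => enc (f a + 1) := by
    funext n; rw [enc_nat, enc_nat, List.replicate_succ]
  rw [he] at h; exact h

lemma pred {f : α → ℕ} (hf : PTF f) : PTF (fun a => f a - 1) := by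
  have h : PT (fun a => enc a) (fun a => (enc (f a)).tail) := PT.tail hf
  have he : (fun a => (enc (f a)).tail) = fun a => enc (f a - 1) := by
    funext n; simp [enc_nat, List.tail_replicate]
  rw [he] at h; exact h

lemma add {f g : α → ℕ} (hf : PTF f) (hg : PTF g) : PTF (fun a => f a + g a) := by
  have h := PT.append hf hg
  have he : (fun a => enc (f a) ++ enc (g a)) = fun a => enc (f a + g a) := by
    funext a; rw [enc_nat, enc_nat, enc_nat, List.replicate_append_replicate]
  rw [he] at h; exact h

lemma sub {f g : α → ℕ} (hf : PTF f) (hg : PTF g) : PTF (fun a => f a - g a) := by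
  have hit : ∀ m k : ℕ, (fun x => x - 1)^[m] k = k - m := by
    intro m
    induction m with
    | zero => intro k; rfl
    | succ m ih => intro k; rw [iterate_succ_apply', ih]; omega
  obtain ⟨p, hp⟩ := hf.length_le
  have h := iterate (n := g) (g := f) (F := fun _ x => x - 1) hg hf (pred id.snd) p (by
    intro a m _
    rw [hit, length_enc_nat]
    have := hp a
    rw [length_enc_nat] at this
    omega)
  refine h.of_eq fun a => ?_
  rw [hit]

lemma mul {f g : α → ℕ} (hf : PTF f) (hg : PTF g) : PTF (fun a => f a * g a) := by
  have hit : ∀ c m k : ℕ, (fun x => x + c)^[m] k = k + m * c := by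
    intro c m
    induction m with
    | zero => intro k; simp
    | succ m ih => intro k; rw [iterate_succ_apply', ih]; ring
  obtain ⟨p, hp⟩ := hf.length_le
  obtain ⟨q, hq⟩ := hg.length_le
  have h := iterate (n := f) (g := fun _ => 0) (F := fun a x => x + g a) hf (const 0)
    (add id.snd (hg.comp id.fst)) (p * q) (by
    intro a m hm
    rw [hit, length_enc_nat, Nat.zero_add]
    have h1 := hp a
    have h2 := hq a
    rw [length_enc_nat] at h1 h2
    rw [Polynomial.eval_mul]
    exact Nat.mul_le_mul (hm.trans h1) h2)
  refine h.of_eq fun a => ?_
  rw [hit, Nat.zero_add]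

lemma isZero {f : α → ℕ} (hf : PTF f) : PTF (fun a => decide (f a = 0)) := eq hf (const 0)

lemma le {f g : α → ℕ} (hf : PTF f) (hg : PTF g) : PTF (fun a => decide (f a ≤ g a)) := by
  refine (isZero (sub hf hg)).of_eq fun a => ?_
  rw [decide_eq_decide]; omega

lemma lt {f g : α → ℕ} (hf : PTF f) (hg : PTF g) : PTF (fun a => decide (f a < g a)) := by
  refine (le (succ hf) hg).of_eq fun a => ?_
  rw [decide_eq_decide]; omega

lemma pow {f : α → ℕ} (hf : PTF f) : ∀ k : ℕ, PTF (fun a => f a ^ k)
  | 0 => (const 1).of_eq fun a => (pow_zero _).symm
  | k + 1 => (mul (pow hf k) hf).of_eq fun a => (pow_succ _ _).symm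

/-- Evaluation of a fixed polynomial. -/
lemma polyEval (p : Polynomial ℕ) {f : α → ℕ} (hf : PTF f) : PTF (fun a => p.eval (f a)) := by
  induction p using Polynomial.induction_on' with
  | add p q hp hq => exact (add hp hq).of_eq fun a => Polynomial.eval_add.symm
  | monomial n c =>
    exact (mul (const c) (pow hf n)).of_eq fun a => Polynomial.eval_monomial.symm

/-- Initial segments of the natural numbers. -/
lemma range {f : α → ℕ} (hf : PTF f) : PTF (fun a => List.range (f a)) := by
  have hit : ∀ m : ℕ, (fun x : ℕ × List ℕ => (x.1 + 1, x.2 ++ [x.1]))^[m] (0, []) =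
      (m, List.range m) := by
    intro m
    induction m with
    | zero => rfl
    | succ m ih => rw [iterate_succ_apply', ih, List.range_succ]
  have hlen : ∀ m : ℕ, (enc (List.range m)).length ≤ m * (2 * m + 1) := by
    intro m
    induction m with
    | zero => simp [enc_nil]
    | succ m ih =>
      rw [List.range_succ, length_enc_append, length_enc_cons, enc_nil, length_enc_nat,
        List.length_nil]
      nlinarith
  obtain ⟨p, hp⟩ := hf.length_le
  have h := iterate (n := f) (g := fun _ => ((0, []) : ℕ × List ℕ))
    (F := fun _ x => (x.1 + 1, x.2 ++ [x.1])) hf (const _)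
    (pair (succ id.snd.fst) (append id.snd.snd (cons id.snd.fst (const []))))
    (2 * p + p * (2 * p + 1) + 1) (by
    intro a m hm
    rw [hit, length_enc_prod, length_enc_nat]
    have h1 := hp a
    rw [length_enc_nat] at h1
    have h2 := hlen m
    simp only [Polynomial.eval_add, Polynomial.eval_mul, Polynomial.eval_one,
      Polynomial.eval_ofNat]
    have h3 : m ≤ p.eval (enc a).length := hm.trans h1
    have h4 : m * (2 * m + 1) ≤ p.eval (enc a).length * (2 * p.eval (enc a).length + 1) :=
      Nat.mul_le_mul h3 (by omega)
    omega)
  refine h.snd.of_eq fun a => ?_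
  rw [hit]

lemma drop {n : α → ℕ} {l : α → List β} (hn : PTF n) (hl : PTF l) :
    PTF (fun a => (l a).drop (n a)) := by
  have hit : ∀ (m : ℕ) (t : List β), (fun x : List β => x.tail)^[m] t = t.drop m := by
    intro m
    induction m with
    | zero => intro t; rfl
    | succ m ih => intro t; rw [iterate_succ_apply', ih, List.tail_drop]
  have hdrop : ∀ (t : List β) (m : ℕ), (enc (t.drop m)).length ≤ (enc t).length := by
    intro t m
    induction m generalizing t with
    | zero => simp
    | succ m ih =>
      cases t with
      | nil => simp
      | cons b t =>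
        rw [List.drop_succ_cons, length_enc_cons]
        have := ih t
        omega
  obtain ⟨p, hp⟩ := hl.length_le
  have h := iterate (n := n) (g := l) (F := fun _ x => x.tail) hn hl (tail id.snd) p (by
    intro a m _
    rw [hit]
    exact (hdrop _ _).trans (hp a))
  refine h.of_eq fun a => ?_
  rw [hit]

lemma getElem? {n : α → ℕ} {l : α → List β} (hn : PTF n) (hl : PTF l) :
    PTF (fun a => (l a)[n a]?) := by
  refine (head? (drop hn hl)).of_eq fun a => ?_
  rw [List.head?_drop]

end PTF

/-! ### Strings as lists of Booleans -/

/-- A string as a list of Booleans. -/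
def Str.toList (x : Str) : List Bool := x

/-- A list of Booleans as a string. -/
def Str.ofList (x : List Bool) : Str := x

lemma PTF.strToList {f : α → Str} (hf : PTF f) : PTF (fun a => (f a).toList) := by
  -- the iteration moves the symbols one by one
  have hkey : PTF (fun x : Str => x.toList) := by
    have h := PT.iterate (α := Str) (e := fun x => enc x)
      (st := fun (x : Str) m => pr (x.toList.drop m) (enc (x.toList.take m))) (PT.refl _)
      (PT.pair (PT.refl _) (PT.const [])) ?_ (2 * Polynomial.X + 3 * Polynomial.X + 1) ?_
    · have h2 := h.snd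
      have he : (fun x : Str => (upr (pr (x.toList.drop (enc x).length)
          (enc (x.toList.take (enc x).length)))).2) = fun x : Str => enc (x.toList) := by
        funext x
        rw [upr_pr]
        have : (enc x).length = x.toList.length := rfl
        rw [this, List.take_length]
      rw [he] at h2; exact h2
    · -- the step
      have h1 : PT (fun y : {y : Str × ℕ // y.2 < (enc y.1).length} =>
          pr (y.1.1.toList.drop y.1.2) (enc (y.1.1.toList.take y.1.2)))
          (fun y => y.1.1.toList.drop y.1.2) := by
        have := (PT.refl (fun y : {y : Str × ℕ // y.2 < (enc y.1).length} =>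
          pr (y.1.1.toList.drop y.1.2) (enc (y.1.1.toList.take y.1.2)))).fst
        simpa using this
      have h2 : PT (fun y : {y : Str × ℕ // y.2 < (enc y.1).length} =>
          pr (y.1.1.toList.drop y.1.2) (enc (y.1.1.toList.take y.1.2)))
          (fun y => enc (y.1.1.toList.take y.1.2)) := by
        have := (PT.refl (fun y : {y : Str × ℕ // y.2 < (enc y.1).length} =>
          pr (y.1.1.toList.drop y.1.2) (enc (y.1.1.toList.take y.1.2)))).snd
        simpa using this
      have h3 := PT.pair h1.tail (PT.append h2 (PT.cases h1 (PT.const [])
        (PT.const (enc [true])) (PT.const (enc [false]))))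
      have he : (fun y : {y : Str × ℕ // y.2 < (enc y.1).length} =>
          pr (y.1.1.toList.drop (y.1.2 + 1)) (enc (y.1.1.toList.take (y.1.2 + 1)))) =
          fun y => pr (y.1.1.toList.drop y.1.2).tail (enc (y.1.1.toList.take y.1.2) ++
            (match y.1.1.toList.drop y.1.2 with
            | [] => []
            | true :: _ => enc [true]
            | false :: _ => enc [false])) := by
        funext y
        have hy : y.1.2 < y.1.1.toList.length := y.2
        rw [List.tail_drop, List.drop_eq_getElem_cons hy, List.take_succ_eq_append_getElem hy,
          enc_append]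
        cases y.1.1.toList[y.1.2] <;> rfl
      rw [he]; exact h3
    · intro x m hm
      have hlen : ∀ t : List Bool, (enc t).length = 3 * t.length := by
        intro t
        induction t with
        | nil => rfl
        | cons b t ih => rw [length_enc_cons, ih, enc_bool]; simp; ring
      rw [length_pr, hlen, List.length_drop, List.length_take]
      have : (enc x).length = x.toList.length := rfl
      simp only [Polynomial.eval_add, Polynomial.eval_mul, Polynomial.eval_one,
        Polynomial.eval_ofNat, Polynomial.eval_X]
      omega
  exact hkey.comp hf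

/-- Appending a symbol at the end of a string. -/
def Str.snoc (s : Str) (b : Bool) : Str := List.append s [b]

/-- Concatenation of strings. -/
def Str.app (s t : Str) : Str := List.append s t

/-- Length of a string. -/
def Str.len (s : Str) : ℕ := List.length s

lemma PTF.strApp {f g : α → Str} (hf : PTF f) (hg : PTF g) : PTF (fun a => (f a).app (g a)) :=
  PT.append hf hg

lemma PTF.strLen {f : α → Str} (hf : PTF f) : PTF (fun a => (f a).len) := PT.len hf

lemma PTF.strOfList {f : α → List Bool} (hf : PTF f) : PTF (fun a => Str.ofList (f a)) := by
  -- fold from the left, appending single symbols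
  have hkey : PTF (fun x : List Bool => Str.ofList x) := by
    have happ : PTF (fun p : List Bool × Str × Bool => Str.snoc p.2.1 p.2.2) := by
      have h1 : PTF (fun p : List Bool × Str × Bool => p.2.1) := PTF.id.snd.fst
      have h2 : PTF (fun p : List Bool × Str × Bool => p.2.2) := PTF.id.snd.snd
      exact PT.append h1 h2
    have hfold : ∀ (t : List Bool) (acc : Str),
        t.foldl (fun (s : Str) b => Str.snoc s b) acc = Str.app acc t := by
      intro t
      induction t with
      | nil => intro acc; exact (List.append_nil _).symm
      | cons b t ih =>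
        intro acc
        rw [List.foldl_cons, ih]
        exact List.append_assoc _ _ _
    have h := PTF.foldl (α := List Bool) (σ := Str) (l := fun x => x)
      (g := fun _ => Str.ofList [])
      (F := fun _ (s : Str) b => Str.snoc s b)
      PTF.id (PTF.const _) happ Polynomial.X (by
        intro a t ht
        rw [hfold]
        have h1 : (enc (Str.app (Str.ofList []) t)).length = t.length := rfl
        rw [Polynomial.eval_X]
        refine le_trans (le_of_eq h1) ?_
        exact ht.length_le.trans (length_le_enc a))
    refine h.of_eq fun a => ?_
    rw [hfold]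
    rfl
  exact hkey.comp hf

end Pool.Agent.Helper91.PolyTime
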