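import Mathlib
import Pool.Agent.Helper91.PolyTime.Typed

/-!
# Verifiers: functions of a pair of strings
-/

open Turing Function Computability
open Pool.Agent.Helper91.PolyTime

namespace Pool.Agent.Helper91.Verifier

/-- One step of the decoding of a pair. -/
def dstep (s : Option Bool × List Bool × List Bool) (b : Bool) :
    Option Bool × List Bool × List Bool :=
  match s.1 with
  | none => (some b, s.2.1, s.2.2)
  | some c => if c = true then (none, s.2.1 ++ [b], s.2.2) else (none, s.2.1, s.2.2 ++ [b])

/-- The code of a symbol. -/
def code : Bool ⊕ Bool → List Bool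
  | .inl b => [true, b]
  | .inr b => [false, b]

lemma foldl_code (l : List (Bool ⊕ Bool)) : ∀ xs ys : List Bool,
    (l.flatMap code).foldl dstep (none, xs, ys) =
      (none, xs ++ l.filterMap Sum.getLeft?, ys ++ l.filterMap Sum.getRight?) := by
  induction l with
  | nil => intro xs ys; simp
  | cons a l ih =>
    intro xs ys
    cases a with
    | inl b =>
      rw [List.flatMap_cons, List.foldl_append]
      have h1 : (code (Sum.inl b)).foldl dstep (none, xs, ys) = (none, xs ++ [b], ys) := rfl
      rw [h1, ih, List.append_assoc]
      rfl
    | inr b =>
      rw [List.flatMap_cons, List.foldl_append]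
      have h1 : (code (Sum.inr b)).foldl dstep (none, xs, ys) = (none, xs, ys ++ [b]) := rfl
      rw [h1, ih, List.append_assoc]
      rfl

lemma foldl_length (l : List Bool) : ∀ s : Option Bool × List Bool × List Bool,
    (l.foldl dstep s).2.1.length + (l.foldl dstep s).2.2.length ≤
      s.2.1.length + s.2.2.length + l.length := by
  induction l with
  | nil => intro s; simp
  | cons b l ih =>
    intro s
    rw [List.foldl_cons]
    refine (ih _).trans ?_
    have : (dstep s b).2.1.length + (dstep s b).2.2.length ≤
        s.2.1.length + s.2.2.length + 1 := by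
      unfold dstep
      rcases s.1 with _ | c
      · simp
      · cases c <;> simp <;> omega
    rw [List.length_cons]
    omega

lemma length_enc_bools (t : List Bool) : (enc t).length = 3 * t.length := by
  induction t with
  | nil => rfl
  | cons b t ih => rw [length_enc_cons, ih, enc_bool]; simp; ring

lemma length_enc_optBool (t : Option Bool) : (enc t).length ≤ 2 := by
  cases t with
  | none => rw [enc_none]; simp
  | some b => rw [enc_some, enc_bool]; simp

lemma ptf_dstep : PTF (fun p : List Bool × (Option Bool × List Bool × List Bool) × Bool =>
    dstep p.2.1 p.2.2) := by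
  have h := PTF.optCase
    (α := List Bool × (Option Bool × List Bool × List Bool) × Bool)
    (o := fun p => p.2.1.1)
    (n := fun p => (some p.2.2, p.2.1.2.1, p.2.1.2.2))
    (s := fun p (c : Bool) => if c = true then
      ((none : Option Bool), p.2.1.2.1 ++ [p.2.2], p.2.1.2.2) else
      (none, p.2.1.2.1, p.2.1.2.2 ++ [p.2.2]))
    PTF.id.snd.fst.fst
    (PTF.pair (PTF.some PTF.id.snd.snd) (PTF.pair PTF.id.snd.fst.snd.fst PTF.id.snd.fst.snd.snd))
    (PTF.ite (PTF.eq PTF.id.snd (PTF.const true))
      (PTF.pair (PTF.const _) (PTF.pair (PTF.append PTF.id.fst.snd.fst.snd.fst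
        (PTF.cons PTF.id.fst.snd.snd (PTF.const []))) PTF.id.fst.snd.fst.snd.snd))
      (PTF.pair (PTF.const _) (PTF.pair PTF.id.fst.snd.fst.snd.fst
        (PTF.append PTF.id.fst.snd.fst.snd.snd (PTF.cons PTF.id.fst.snd.snd (PTF.const []))))))
  refine h.of_eq fun p => ?_
  unfold dstep
  cases p.2.1.1 <;> rfl

lemma length_fold (t : List Bool) :
    (enc (t.foldl dstep (none, [], []))).length ≤ 9 * t.length + 6 := by
  have h1 := foldl_length t (none, [], [])
  rcases hs : t.foldl dstep (none, [], []) with ⟨a, b, c⟩
  rw [hs] at h1
  rw [length_enc_prod, length_enc_prod, length_enc_bools, length_enc_bools]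
  have h2 := length_enc_optBool a
  simp only [List.length_nil] at h1
  omega

lemma ptf_fold : PTF (fun z : List Bool => z.foldl dstep (none, [], [])) := by
  refine PTF.foldl (l := fun z : List Bool => z) (g := fun _ => (none, [], []))
    (F := fun _ => dstep) PTF.id (PTF.const _) ptf_dstep
    (9 * Polynomial.X + 6) ?_
  intro a t ht
  refine (length_fold t).trans ?_
  have h3 := ht.length_le.trans (length_le_enc a)
  simp only [Polynomial.eval_add, Polynomial.eval_mul, Polynomial.eval_ofNat,
    Polynomial.eval_X]
  omega

lemma filterMap_left (x y : List Bool) :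
    (x.map Sum.inl ++ y.map Sum.inr : List (Bool ⊕ Bool)).filterMap Sum.getLeft? = x := by
  induction x with
  | nil =>
    induction y with
    | nil => rfl
    | cons b y ih => exact ih
  | cons a x ih =>
    rw [List.map_cons, List.cons_append, List.filterMap_cons]
    simp only [Sum.getLeft?_inl]
    rw [ih]

lemma filterMap_right (x y : List Bool) :
    (x.map Sum.inl ++ y.map Sum.inr : List (Bool ⊕ Bool)).filterMap Sum.getRight? = y := by
  induction x with
  | nil =>
    induction y with
    | nil => rfl
    | cons b y ih =>
      simp only [List.map_nil, List.nil_append, List.map_cons, List.filterMap_cons,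
        Sum.getRight?_inr] at ih ⊢
      rw [ih]
  | cons a x ih =>
    rw [List.map_cons, List.cons_append, List.filterMap_cons]
    simp only [Sum.getRight?_inl]
    rw [ih]

/-- A polynomial-time function of two strings gives a polynomial-time machine. -/
theorem tm2_of_ptf {R : List Bool × List Bool → Bool} (hR : PTF R) :
    Nonempty (TM2ComputableInPolyTime
      (encodingProd (encodingList Bool) (encodingList Bool)).encode encodeBool R) := by
  refine PT.tm2 _ _ code R ?_
  have h1 : PTF (fun z : Str => R ((z.toList.foldl dstep (none, [], [])).2)) :=
    hR.comp ((ptf_fold.comp (PTF.strToList PTF.id)).snd)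
  have h2 := h1.reindex (fun a : List Bool × List Bool =>
    Str.ofList (((encodingProd (encodingList Bool) (encodingList Bool)).encode a).flatMap code))
  have h3 : (fun a : List Bool × List Bool => enc (R (((Str.ofList
      (((encodingProd (encodingList Bool) (encodingList Bool)).encode a).flatMap
        code)).toList.foldl dstep (none, [], [])).2))) = fun a => encodeBool (R a) := by
    funext a
    have h4 : (Str.ofList (((encodingProd (encodingList Bool) (encodingList Bool)).encode
        a).flatMap code)).toList = ((encodingProd (encodingList Bool)
        (encodingList Bool)).encode a).flatMap code := rfl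
    rw [h4, foldl_code]
    have h5 : (encodingProd (encodingList Bool) (encodingList Bool)).encode a =
      a.1.map Sum.inl ++ a.2.map Sum.inr := rfl
    rw [h5, List.nil_append, List.nil_append, enc_bool]
    rw [filterMap_left, filterMap_right]
    rfl
  rw [h3] at h2
  exact h2

/-- A polynomial-time function on strings gives a polynomial-time machine. -/
theorem tm2_of_ptf_str {f : List Bool → List Bool}
    (hf : PTF (fun x : Str => Str.ofList (f x.toList))) :
    Nonempty (TM2ComputableInPolyTime (id : List Bool → List Bool) (id : List Bool → List Bool) f) := by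
  refine PT.tm2 _ _ (fun b => [b]) f ?_
  have h : (fun a : List Bool => (id a).flatMap (fun b => [b])) = fun a => a := by
    funext a
    simp
  rw [h]
  exact hf

end Pool.Agent.Helper91.Verifier
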