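import Mathlib

/-!
# Computations of stack machines as constraint satisfaction problems

The semantic part of the Cook-Levin theorem: the acceptance of an input by one of Mathlib's
`FinTM2` machines is described by local constraints on a table of cells.
-/

open Turing Function Computability

namespace Pool.Agent.Helper91.CookLevin

section machine

variable (tm : FinTM2)

/-- The control part of a configuration: what remains of the current statement (`none` if the
machine has halted) and the internal state. -/
abbrev Ctl : Type := Option (TM2.Stmt tm.Γ tm.Λ tm.σ) × tm.σ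

/-- A column: one symbol (or none) for each stack. -/
abbrev Col : Type := ∀ k, Option (tm.Γ k)

/-- The stacks. -/
abbrev Stk : Type := ∀ k, List (tm.Γ k)

variable {tm}

/-- The next control. -/
def nextCtl : Ctl tm → Col tm → Ctl tm
  | (none, v), _ => (none, v)
  | (some (.push _ _ q), v), _ => (some q, v)
  | (some (.peek k f q), v), c => (some q, f v (c k))
  | (some (.pop k f q), v), c => (some q, f v (c k))
  | (some (.load f q), v), _ => (some q, f v)
  | (some (.branch f q₁ q₂), v), _ => (some (bif f v then q₁ else q₂), v)
  | (some (.goto l), v), _ => (some (tm.m (l v)), v)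
  | (some .halt, v), _ => (none, v)

/-- The next stacks. -/
def nextStk : Ctl tm → Stk tm → Stk tm
  | (some (.push k f _), v), S => update S k (f v :: S k)
  | (some (.pop k _ _), _), S => update S k (S k).tail
  | _, S => S

/-- The next contents of a column, in terms of its neighbours. -/
def nextCol (first : Bool) : Ctl tm → Col tm → Col tm → Col tm → Col tm
  | (some (.push k f _), v), l, m, _ => update m k (bif first then some (f v) else l k)
  | (some (.pop k _ _), _), _, m, r => update m k (r k)
  | _, _, m, _ => m

/-- The symbols at depth `i`. -/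
def col (S : Stk tm) (i : ℕ) : Col tm := fun k => (S k)[i]?

lemma col_nextStk (c : Ctl tm) (S : Stk tm) (i : ℕ) :
    col (nextStk c S) i =
      nextCol (decide (i = 0)) c (col S (i - 1)) (col S i) (col S (i + 1)) := by
  obtain ⟨c, v⟩ := c
  funext k'
  cases c with
  | none => rfl
  | some q =>
    cases q with
    | push k f q =>
      simp only [col, nextStk, nextCol]
      by_cases h : k' = k
      · subst h
        rw [update_self, update_self]
        cases i with
        | zero => simp
        | succ i => simp
      · rw [update_of_ne h, update_of_ne h]; rfl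
    | pop k f q =>
      simp only [col, nextStk, nextCol]
      by_cases h : k' = k
      · subst h
        rw [update_self, update_self]
        simp
      · rw [update_of_ne h, update_of_ne h]; rfl
    | peek k f q => rfl
    | load f q => rfl
    | branch f q₁ q₂ => rfl
    | goto l => rfl
    | halt => rfl

/-- One small step. -/
def small (x : Ctl tm × Stk tm) : Ctl tm × Stk tm := (nextCtl x.1 (col x.2 0), nextStk x.1 x.2)

/-- The configuration with explicit statement. -/
def conf (c : TM2.Cfg tm.Γ tm.Λ tm.σ) : Ctl tm × Stk tm := ((c.l.map tm.m, c.var), c.stk)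

/-- The size of a statement. -/
def sz : TM2.Stmt tm.Γ tm.Λ tm.σ → ℕ
  | .push _ _ q => sz q + 1
  | .peek _ _ q => sz q + 1
  | .pop _ _ q => sz q + 1
  | .load _ q => sz q + 1
  | .branch _ q₁ q₂ => sz q₁ + sz q₂ + 1
  | .goto _ => 1
  | .halt => 1

lemma small_stepAux : ∀ (q : TM2.Stmt tm.Γ tm.Λ tm.σ) (v : tm.σ) (S : Stk tm),
    ∃ n ≤ sz q, small^[n] ((some q, v), S) = conf (TM2.stepAux q v S)
  | .push k f q, v, S => by
    obtain ⟨n, hn, h⟩ := small_stepAux q v (update S k (f v :: S k))
    exact ⟨n + 1, by simp only [sz]; omega, h⟩
  | .peek k f q, v, S => by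
    obtain ⟨n, hn, h⟩ := small_stepAux q (f v (S k).head?) S
    refine ⟨n + 1, by simp only [sz]; omega, ?_⟩
    rw [iterate_succ_apply, TM2.stepAux, ← h, List.head?_eq_getElem?]
    rfl
  | .pop k f q, v, S => by
    obtain ⟨n, hn, h⟩ := small_stepAux q (f v (S k).head?) (update S k (S k).tail)
    refine ⟨n + 1, by simp only [sz]; omega, ?_⟩
    rw [iterate_succ_apply, TM2.stepAux, ← h, List.head?_eq_getElem?]
    rfl
  | .load f q, v, S => by
    obtain ⟨n, hn, h⟩ := small_stepAux q (f v) S
    exact ⟨n + 1, by simp only [sz]; omega, h⟩
  | .branch f q₁ q₂, v, S => by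
    cases hf : f v with
    | true =>
      obtain ⟨n, hn, h⟩ := small_stepAux q₁ v S
      refine ⟨n + 1, by simp only [sz]; omega, ?_⟩
      rw [iterate_succ_apply, TM2.stepAux, hf, cond_true, ← h]
      simp only [small, nextCtl, nextStk, hf, cond_true]
    | false =>
      obtain ⟨n, hn, h⟩ := small_stepAux q₂ v S
      refine ⟨n + 1, by simp only [sz]; omega, ?_⟩
      rw [iterate_succ_apply, TM2.stepAux, hf, cond_false, ← h]
      simp only [small, nextCtl, nextStk, hf, cond_false]
  | .goto l, v, S => ⟨1, le_rfl, rfl⟩
  | .halt, v, S => ⟨1, le_rfl, rfl⟩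

variable (tm) in
/-- A bound for the size of the statements of the machine. -/
def bnd : ℕ := haveI := tm.ΛFin; Finset.univ.sup (fun l => sz (tm.m l))

lemma sz_le_bnd (l : tm.Λ) : sz (tm.m l) ≤ bnd tm := by
  exact @Finset.le_sup _ _ _ _ _ (fun l => sz (tm.m l)) l (@Finset.mem_univ _ tm.ΛFin l)

lemma bind_none (s : ℕ) :
    (flip bind tm.step)^[s] (none : Option tm.Cfg) = none := by
  induction s with
  | zero => rfl
  | succ s ih => rw [iterate_succ_apply]; exact ih

lemma run_small : ∀ (s : ℕ) (c c' : tm.Cfg),
    (flip bind tm.step)^[s] (some c) = some c' →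
    ∃ n ≤ bnd tm * s, small^[n] (conf c) = conf c'
  | 0, c, c', h => ⟨0, Nat.zero_le _, by
    rw [iterate_zero, id_eq, Option.some.injEq] at h; rw [h]; rfl⟩
  | s + 1, c, c', h => by
    rw [iterate_succ_apply] at h
    have h1 : flip bind tm.step (some c) = tm.step c := rfl
    rw [h1] at h
    obtain ⟨l, v, S⟩ := c
    cases l with
    | none =>
      have h2 : tm.step ⟨none, v, S⟩ = none := rfl
      rw [h2, bind_none] at h
      exact absurd h (by simp)
    | some l =>
      have h2 : tm.step ⟨some l, v, S⟩ = some (TM2.stepAux (tm.m l) v S) := rfl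
      rw [h2] at h
      obtain ⟨n, hn, h3⟩ := run_small s _ _ h
      obtain ⟨k, hk, h4⟩ := small_stepAux (tm.m l) v S
      refine ⟨n + k, ?_, ?_⟩
      · have := sz_le_bnd l
        calc n + k ≤ bnd tm * s + bnd tm := by omega
          _ = bnd tm * (s + 1) := by ring
      · rw [iterate_add_apply]
        have h5 : small^[k] (conf ⟨some l, v, S⟩) = conf (TM2.stepAux (tm.m l) v S) := h4
        rw [h5]; exact h3

lemma small_halted (n : ℕ) (v : tm.σ) (S : Stk tm) :
    small^[n] ((none, v), S) = ((none, v), S) := by
  induction n with
  | zero => rfl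
  | succ n ih => rw [iterate_succ_apply]; exact ih

/-- The run up to a late enough time ends in the halting configuration. -/
lemma run_output {l : List (tm.Γ tm.k₀)} {l' : List (tm.Γ tm.k₁)} {m N : ℕ}
    (h : TM2OutputsInTime tm l (some l') m) (hN : bnd tm * m ≤ N) :
    small^[N] (conf (initList tm l)) = conf (haltList tm l') := by
  obtain ⟨n, hn, h1⟩ := run_small _ _ _ h.evals_in_steps
  have hle : n ≤ N := hn.trans ((Nat.mul_le_mul_left _ h.steps_le_m).trans hN)
  obtain ⟨d, rfl⟩ := Nat.exists_eq_add_of_le hle
  rw [Nat.add_comm, iterate_add_apply, h1]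
  exact small_halted _ _ _

/-! ### Cells -/

variable (tm) in
/-- The contents of a cell of the table: the control, and the symbols at some depth. -/
abbrev Cell : Type := Ctl tm × Col tm

/-- The new contents of a cell in terms of the contents of the first cell, and of the left
neighbour, the cell itself, and the right neighbour. -/
def nextCell (first : Bool) (z l m r : Cell tm) : Cell tm :=
  (nextCtl z.1 z.2, nextCol first z.1 l.2 m.2 r.2)

/-- The table of a run. -/
def table (x : Ctl tm × Stk tm) (t i : ℕ) : Cell tm :=
  ((small^[t] x).1, col (small^[t] x).2 i)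

lemma table_succ (x : Ctl tm × Stk tm) (t i : ℕ) :
    table x (t + 1) i = nextCell (decide (i = 0)) (table x t 0) (table x t (i - 1)) (table x t i)
      (table x t (i + 1)) := by
  simp only [table, nextCell, iterate_succ_apply']
  rw [← col_nextStk]
  rfl

/-! ### Finiteness -/

variable (tm) in
/-- All substatements of the machine. -/
noncomputable def stmtSet : Finset (Option (TM2.Stmt tm.Γ tm.Λ tm.σ)) :=
  haveI := tm.ΛFin; TM2.stmts tm.m Finset.univ

lemma none_mem : none ∈ stmtSet tm := by
  unfold stmtSet TM2.stmts
  exact Finset.none_mem_insertNone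

lemma label_mem (l : tm.Λ) : some (tm.m l) ∈ stmtSet tm := by
  classical
  unfold stmtSet TM2.stmts
  rw [Finset.some_mem_insertNone, Finset.mem_biUnion]
  exact ⟨l, @Finset.mem_univ _ tm.ΛFin l, TM2.stmts₁_self⟩

lemma sub_mem {q q' : TM2.Stmt tm.Γ tm.Λ tm.σ} (h : q ∈ TM2.stmts₁ q')
    (h' : some q' ∈ stmtSet tm) : some q ∈ stmtSet tm := TM2.stmts_trans h h'

lemma nextCtl_mem (c : Ctl tm) (x : Col tm) (h : c.1 ∈ stmtSet tm) :
    (nextCtl c x).1 ∈ stmtSet tm := by
  classical
  obtain ⟨c, v⟩ := c
  cases c with
  | none => exact h
  | some q =>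
    cases q with
    | push k f q =>
      exact sub_mem (by simp [TM2.stmts₁, TM2.stmts₁_self]) h
    | pop k f q => exact sub_mem (by simp [TM2.stmts₁, TM2.stmts₁_self]) h
    | peek k f q => exact sub_mem (by simp [TM2.stmts₁, TM2.stmts₁_self]) h
    | load f q => exact sub_mem (by simp [TM2.stmts₁, TM2.stmts₁_self]) h
    | branch f q₁ q₂ =>
      simp only [nextCtl]
      cases f v
      · exact sub_mem (by simp [TM2.stmts₁, TM2.stmts₁_self]) h
      · exact sub_mem (by simp [TM2.stmts₁, TM2.stmts₁_self]) h
    | goto l => exact label_mem _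
    | halt => exact none_mem

variable (tm) in
/-- The symbols of stack `k` that can occur. -/
def syms (k : tm.K) : Set (tm.Γ k) :=
  {g | (∃ f q v, some (TM2.Stmt.push k f q) ∈ stmtSet tm ∧ g = f v) ∨ k = tm.k₀}

lemma finite_syms (k : tm.K) : (syms tm k).Finite := by
  by_cases hk : k = tm.k₀
  · subst hk
    have := tm.Γk₀Fin
    exact Set.toFinite _
  · have := tm.σFin
    have hsub : syms tm k ⊆ ⋃ o ∈ stmtSet tm, ⋃ v : tm.σ,
        {g | ∃ f q, o = some (TM2.Stmt.push k f q) ∧ g = f v} := by
      rintro g (⟨f, q, v, h, rfl⟩ | h)
      · simp only [Set.mem_iUnion]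
        exact ⟨_, h, v, f, q, rfl, rfl⟩
      · exact absurd h hk
    refine Set.Finite.subset ?_ hsub
    refine Set.Finite.biUnion (Finset.finite_toSet _) fun o _ => ?_
    refine Set.finite_iUnion fun v => ?_
    refine Set.Subsingleton.finite ?_
    rintro g ⟨f, q, h, rfl⟩ g' ⟨f', q', h', rfl⟩
    rw [h] at h'
    simp only [Option.some.injEq, TM2.Stmt.push.injEq, true_and, heq_eq_eq] at h'
    rw [h'.1]

/-- The cells that can occur. -/
def CellOK (c : Cell tm) : Prop := c.1.1 ∈ stmtSet tm ∧ ∀ k, ∀ a, c.2 k = some a → a ∈ syms tm k

lemma finite_cellOK : {c : Cell tm | CellOK c}.Finite := by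
  have := tm.σFin
  have := tm.kFin
  have h1 : ((stmtSet tm : Set (Option (TM2.Stmt tm.Γ tm.Λ tm.σ))) ×ˢ
      (Set.univ : Set tm.σ)).Finite := (Finset.finite_toSet _).prod Set.finite_univ
  have h2 : (Set.univ.pi (fun k => insert none (some '' syms tm k)) : Set (Col tm)).Finite :=
    Set.Finite.pi fun k => ((finite_syms k).image _).insert _
  refine (h1.prod h2).subset ?_
  rintro ⟨⟨c, v⟩, x⟩ ⟨h3, h4⟩
  refine ⟨⟨h3, Set.mem_univ _⟩, fun k _ => ?_⟩
  cases hx : x k with
  | none => exact Set.mem_insert_iff.2 (Or.inl hx)
  | some a => exact Set.mem_insert_iff.2 (Or.inr ⟨a, h4 k a hx, hx.symm⟩)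

variable (tm) in
/-- The finite type of cells that can occur. -/
def D : Type := {c : Cell tm // CellOK c}

instance : Finite (D tm) := finite_cellOK.to_subtype

/-- Good configurations. -/
def Good (x : Ctl tm × Stk tm) : Prop :=
  x.1.1 ∈ stmtSet tm ∧ ∀ k, ∀ a ∈ x.2 k, a ∈ syms tm k

lemma Good.small {x : Ctl tm × Stk tm} (h : Good x) : Good (small x) := by
  obtain ⟨⟨c, v⟩, S⟩ := x
  refine ⟨nextCtl_mem _ _ h.1, ?_⟩
  cases c with
  | none => exact h.2
  | some q =>
    cases q with
    | push k f q =>
      intro k' a ha
      simp only [CookLevin.small, nextStk] at ha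
      by_cases hk : k' = k
      · subst hk
        rw [update_self, List.mem_cons] at ha
        rcases ha with rfl | ha
        · exact Or.inl ⟨f, q, v, h.1, rfl⟩
        · exact h.2 _ _ ha
      · rw [update_of_ne hk] at ha
        exact h.2 _ _ ha
    | pop k f q =>
      intro k' a ha
      simp only [CookLevin.small, nextStk] at ha
      by_cases hk : k' = k
      · subst hk
        rw [update_self] at ha
        exact h.2 _ _ (List.mem_of_mem_tail ha)
      · rw [update_of_ne hk] at ha
        exact h.2 _ _ ha
    | peek k f q => exact h.2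
    | load f q => exact h.2
    | branch f q₁ q₂ => exact h.2
    | goto l => exact h.2
    | halt => exact h.2

lemma Good.iterate {x : Ctl tm × Stk tm} (h : Good x) : ∀ n, Good (CookLevin.small^[n] x)
  | 0 => h
  | n + 1 => by rw [iterate_succ_apply']; exact (h.iterate n).small

lemma Good.cellOK {x : Ctl tm × Stk tm} (h : Good x) (i : ℕ) : CellOK (x.1, col x.2 i) :=
  ⟨h.1, fun k a ha => h.2 k a (List.mem_of_getElem? ha)⟩

lemma good_init (l : List (tm.Γ tm.k₀)) : Good (conf (initList tm l)) := by
  refine ⟨label_mem _, fun k a ha => ?_⟩
  by_cases hk : k = tm.k₀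
  · exact Or.inr hk
  · simp only [conf, initList, dif_neg hk] at ha
    simp at ha

/-- The table of a run on some input, with values in the finite type. -/
def tableD (l : List (tm.Γ tm.k₀)) (p : ℕ × ℕ) : D tm :=
  ⟨table (conf (initList tm l)) p.1 p.2, ((good_init l).iterate p.1).cellOK p.2⟩

end machine

/-! ### The constraints -/

/-- The types of constraints. -/
inductive CType
  | trans (first : Bool)
  | fixed (b : Bool)
  | free
  | blank
  | contig
  | final
  deriving DecidableEq

instance : Fintype CType :=
  ⟨{.trans true, .trans false, .fixed true, .fixed false, .free, .blank, .contig, .final}, by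
    intro x
    cases x with
    | trans b => cases b <;> decide
    | fixed b => cases b <;> decide
    | free => decide
    | blank => decide
    | contig => decide
    | final => decide⟩

section csp

variable (M : TM2ComputableAux (Bool ⊕ Bool) Bool)

/-- The cell in the first row with a given input symbol. -/
def initCell (s : Option (Bool ⊕ Bool)) : Cell M.tm :=
  ((some (M.tm.m M.tm.main), M.tm.initialState),
    col (initList M.tm (s.toList.map M.inputAlphabet.invFun)).stk 0)

/-- The constraints. -/
def ok : CType → Cell M.tm → Cell M.tm → Cell M.tm → Cell M.tm → Cell M.tm → Prop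
  | .trans first, a, z, l, m, r => a = nextCell first z l m r
  | .fixed b, a, _, _, _, _ => a = initCell M (some (.inl b))
  | .free, a, _, _, _, _ => ∃ b : Option Bool, a = initCell M (b.map .inr)
  | .blank, a, _, _, _, _ => a = initCell M none
  | .contig, a, b, _, _, _ => a = initCell M none → b = initCell M none
  | .final, a, _, _, _, _ => a.2 M.tm.k₁ = some (M.outputAlphabet.invFun true)

lemma initCell_injective : Injective (initCell M) := by
  intro s s' h
  have h1 := congrFun (congrArg Prod.snd h) M.tm.k₀
  simp only [initCell, col, initList, dite_true] at h1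
  cases s with
  | none =>
    cases s' with
    | none => rfl
    | some b => simp at h1
  | some a =>
    cases s' with
    | none => simp at h1
    | some b => simpa using h1

lemma col_init (l : List (Bool ⊕ Bool)) (i : ℕ) :
    col (initList M.tm (l.map M.inputAlphabet.invFun)).stk i =
      col (initList M.tm (l[i]?.toList.map M.inputAlphabet.invFun)).stk 0 := by
  funext k
  by_cases hk : k = M.tm.k₀
  · subst hk
    simp only [col, initList, dite_true]
    cases hl : l[i]? <;> simp [hl]
  · simp only [col, initList, dif_neg hk]
    simp

/-- The type of the constraint on cell `i` of the first row. -/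
def initType (x : List Bool) (P i : ℕ) : CType :=
  match x[i]? with
  | some b => .fixed b
  | none => if i < x.length + P then .free else .blank

lemma exists_list : ∀ (P : ℕ) (g : ℕ → Option Bool), (∀ i < P, g i = none → g (i + 1) = none) →
    (∀ i, P ≤ i → g i = none) → ∃ y : List Bool, y.length ≤ P ∧ ∀ i, y[i]? = g i
  | 0, g, _, h2 => ⟨[], le_rfl, fun i => by rw [h2 i (Nat.zero_le _)]; rfl⟩
  | P + 1, g, h1, h2 => by
    obtain ⟨y, hy, hy'⟩ := exists_list P (fun i => g (i + 1))
      (fun i hi h => h1 (i + 1) (by omega) h) (fun i hi => h2 (i + 1) (by omega))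
    cases h0 : g 0 with
    | none =>
      have hall : ∀ i, g i = none := by
        intro i
        induction i with
        | zero => exact h0
        | succ i ih =>
          by_cases hi : i < P + 1
          · exact h1 i hi ih
          · exact h2 _ (by omega)
      exact ⟨[], by simp, fun i => by rw [hall i]; rfl⟩
    | some b =>
      refine ⟨b :: y, by simpa using hy, fun i => ?_⟩
      cases i with
      | zero => rw [h0]; rfl
      | succ i => rw [← hy' i]; rfl

variable {M}

/-- All constraints hold. -/
def Sat (M : TM2ComputableAux (Bool ⊕ Bool) Bool) (x : List Bool) (P N : ℕ)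
    (α : ℕ × ℕ → D M.tm) : Prop :=
  (∀ t < N, ∀ i < N, ok M (.trans (decide (i = 0))) (α (t + 1, i)).1 (α (t, 0)).1
    (α (t, i - 1)).1 (α (t, i)).1 (α (t, i + 1)).1) ∧
  (∀ i ≤ N, ok M (initType x P i) (α (0, i)).1 (α (0, i)).1 (α (0, i)).1 (α (0, i)).1
    (α (0, i)).1) ∧
  (∀ i < N, x.length ≤ i → ok M .contig (α (0, i)).1 (α (0, i + 1)).1 (α (0, i)).1 (α (0, i)).1
    (α (0, i)).1) ∧
  ok M .final (α (N, 0)).1 (α (N, 0)).1 (α (N, 0)).1 (α (N, 0)).1 (α (N, 0)).1

theorem sat_iff {R : List Bool × List Bool → Bool}
    (H : TM2ComputableInPolyTime (encodingProd (encodingList Bool) (encodingList Bool)).encode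
      encodeBool R) (x : List Bool) (P N : ℕ)
    (hN1 : bnd H.tm * H.time.eval (x.length + P) ≤ N) (hN2 : x.length + P ≤ N) :
    (∃ y : List Bool, y.length ≤ P ∧ R (x, y) = true) ↔
      ∃ α : ℕ × ℕ → D H.tm, Sat H.toTM2ComputableAux x P N α := by
  -- the row 0 of the table of an input
  have hrow : ∀ (y : List Bool) (i : ℕ),
      (tableD ((x.map Sum.inl ++ y.map Sum.inr).map H.inputAlphabet.invFun) (0, i)).1 =
        initCell H.toTM2ComputableAux ((x.map Sum.inl ++ y.map Sum.inr)[i]?) := by
    intro y i
    simp only [tableD, table, iterate_zero, id_eq, conf, initCell]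
    rw [← col_init]
    rfl
  have hrow2 : ∀ (y : List Bool) (i : ℕ), (x.map Sum.inl ++ y.map Sum.inr)[i]? =
      match x[i]? with
      | some b => some (Sum.inl b)
      | none => (y[i - x.length]?).map Sum.inr := by
    intro y i
    by_cases hi : i < x.length
    · rw [List.getElem?_append_left (by simpa using hi), List.getElem?_eq_getElem hi]
      simp [hi]
    · have h1 : x[i]? = none := List.getElem?_eq_none (by omega)
      rw [List.getElem?_append_right (by simp; omega), h1]
      simp
  -- the cell at the end
  have hend : ∀ y : List Bool, y.length ≤ P →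
      ((tableD ((x.map Sum.inl ++ y.map Sum.inr).map H.inputAlphabet.invFun) (N, 0)).1.2
        H.tm.k₁ = some (H.outputAlphabet.invFun true) ↔ R (x, y) = true) := by
    intro y hy
    have h1 := H.outputsFun (x, y)
    have h2 : (encodingProd (encodingList Bool) (encodingList Bool)).encode (x, y) =
      x.map Sum.inl ++ y.map Sum.inr := rfl
    rw [h2] at h1
    have h3 : (x.map Sum.inl ++ y.map Sum.inr : List (Bool ⊕ Bool)).length = x.length + y.length := by
      simp
    rw [h3] at h1
    have h4 : bnd H.tm * H.time.eval (x.length + y.length) ≤ N := by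
      refine le_trans (Nat.mul_le_mul_left _ ?_) hN1
      have : Monotone (fun n : ℕ => H.time.eval n) := by
        intro a b hab
        induction H.time using Polynomial.induction_on' with
        | add p q hp hq =>
          simp only [Polynomial.eval_add]
          exact Nat.add_le_add hp hq
        | monomial n c =>
          simp only [Polynomial.eval_monomial]
          exact Nat.mul_le_mul_left _ (Nat.pow_le_pow_left hab _)
      exact this (by omega)
    have h5 := run_output h1 h4
    have h6 : (tableD ((x.map Sum.inl ++ y.map Sum.inr).map H.inputAlphabet.invFun) (N, 0)).1 =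
        ((conf (haltList H.tm (List.map H.outputAlphabet.invFun (encodeBool (R (x, y)))))).1,
          col (conf (haltList H.tm (List.map H.outputAlphabet.invFun
            (encodeBool (R (x, y)))))).2 0) := by
      rw [← h5]; rfl
    rw [h6]
    simp only [conf, haltList, col, dite_true]
    have h7 : encodeBool (R (x, y)) = [R (x, y)] := rfl
    rw [h7]
    simp
  constructor
  · rintro ⟨y, hy, hR⟩
    refine ⟨tableD ((x.map Sum.inl ++ y.map Sum.inr).map H.inputAlphabet.invFun),
      ?_, ?_, ?_, ?_⟩
    · intro t _ i _
      exact table_succ _ _ _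
    · intro i _
      unfold initType
      cases hx : x[i]? with
      | some b =>
        simp only [ok]
        rw [hrow, hrow2, hx]
      | none =>
        simp only
        split_ifs with hi
        · simp only [ok]
          refine ⟨y[i - x.length]?, ?_⟩
          rw [hrow, hrow2, hx]
        · simp only [ok]
          rw [hrow, hrow2, hx]
          simp only
          have : y[i - x.length]? = none := List.getElem?_eq_none (by omega)
          rw [this]
          rfl
    · intro i _ hi
      simp only [ok]
      rw [hrow, hrow]
      intro h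
      have h1 := initCell_injective _ h
      rw [List.getElem?_eq_none_iff] at h1
      congr 1
      rw [List.getElem?_eq_none_iff]
      omega
    · exact (hend y hy).2 hR
  · rintro ⟨α, h1, h2, h3, h4⟩
    -- the certificate
    have hfree : ∀ i, x.length ≤ i → i ≤ N → ∃ b : Option Bool,
        (α (0, i)).1 = initCell H.toTM2ComputableAux (b.map .inr) ∧
          (x.length + P ≤ i → b = none) := by
      intro i hi hiN
      have h5 := h2 i hiN
      have hx : x[i]? = none := List.getElem?_eq_none hi
      unfold initType at h5
      rw [hx] at h5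
      split_ifs at h5 with h6
      · obtain ⟨b, hb⟩ := h5
        exact ⟨b, hb, fun h => absurd h (by omega)⟩
      · exact ⟨none, h5, fun _ => rfl⟩
    choose! g hg hg' using hfree
    obtain ⟨y, hy, hy'⟩ := exists_list P (fun i => if x.length + i < x.length + P then
        g (x.length + i) else none) (by
      intro i hi h
      rw [if_pos (by omega)] at h
      split_ifs with h5
      · have h6 := h3 (x.length + i) (by omega) (by omega)
        simp only [ok] at h6
        have h7 := hg (x.length + i) (by omega) (by omega)
        rw [h] at h7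
        have h8 := h6 h7
        have h9 := hg (x.length + i + 1) (by omega) (by omega)
        rw [h8] at h9
        have h10 := initCell_injective _ h9
        have h11 : g (x.length + (i + 1)) = g (x.length + i + 1) := rfl
        rw [h11]
        cases hgg : g (x.length + i + 1) with
        | none => rfl
        | some b => rw [hgg] at h10; simp at h10
      · rfl) (by
      intro i hi
      rw [if_neg (by omega)])
    refine ⟨y, hy, (hend y hy).1 ?_⟩
    -- the first row is right
    have hrow0 : ∀ i ≤ N, (α (0, i)).1 =
        (tableD ((x.map Sum.inl ++ y.map Sum.inr).map H.inputAlphabet.invFun) (0, i)).1 := by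
      intro i hi
      rw [hrow, hrow2]
      by_cases hx : i < x.length
      · have h5 := h2 i hi
        have h6 : x[i]? = some x[i] := List.getElem?_eq_getElem hx
        unfold initType at h5
        rw [h6] at h5
        simp only [ok] at h5
        rw [h5, h6]
      · have h6 : x[i]? = none := List.getElem?_eq_none (by omega)
        rw [h6]
        simp only
        rw [hy', hg i (by omega) hi]
        have h7 : x.length + (i - x.length) = i := by omega
        rw [h7]
        split_ifs with h8
        · rfl
        · rw [hg' i (by omega) hi (by omega)]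
    -- all rows are right
    have hall : ∀ t i, t + i ≤ N → (α (t, i)).1 =
        (tableD ((x.map Sum.inl ++ y.map Sum.inr).map H.inputAlphabet.invFun) (t, i)).1 := by
      intro t
      induction t with
      | zero => intro i hi; exact hrow0 i (by omega)
      | succ t ih =>
        intro i hi
        have h5 := h1 t (by omega) i (by omega)
        simp only [ok] at h5
        rw [h5, ih 0 (by omega), ih (i - 1) (by omega), ih i (by omega), ih (i + 1) (by omega)]
        exact (table_succ _ _ _).symm
    rw [← hall N 0 (by omega)]
    exact h4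

end csp

end Pool.Agent.Helper91.CookLevin
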