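import Mathlib
import Pool.Agent.Helper91.TriangleCore

/-!
# Triangle graphs from lists of vertices

The vertices of the graph are given by a list; each is a kind together with a list of pairs
(variable, value).
-/

namespace Pool.Agent.Helper91.Triangle

section lists

variable {ι D : Type*} [DecidableEq ι] [DecidableEq D]

/-- The partial assignment of a list of pairs. -/
def lpat (l : List (ι × D)) (y : ι) : Option D := (l.find? (fun a => decide (a.1 = y))).map Prod.snd

/-- The list is consistent: it is the graph of a function. -/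
def consistentB (l : List (ι × D)) : Bool :=
  l.all fun p => l.all fun q => !(decide (p.1 = q.1)) || decide (p.2 = q.2)

lemma consistentB_iff (l : List (ι × D)) :
    consistentB l = true ↔ ∀ p ∈ l, ∀ q ∈ l, p.1 = q.1 → p.2 = q.2 := by
  simp only [consistentB, List.all_eq_true, Bool.or_eq_true, Bool.not_eq_true',
    decide_eq_false_iff_not, decide_eq_true_eq]
  refine forall_congr' fun p => forall_congr' fun _ => forall_congr' fun q =>
    forall_congr' fun _ => ?_
  tauto

/-- Two lists conflict. -/
def conflictB (p q : List (ι × D)) : Bool :=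
  p.any fun a => q.any fun b => decide (a.1 = b.1) && !(decide (a.2 = b.2))

lemma conflictB_iff (p q : List (ι × D)) :
    conflictB p q = true ↔ ∃ y d e, (y, d) ∈ p ∧ (y, e) ∈ q ∧ d ≠ e := by
  simp only [conflictB, List.any_eq_true, Bool.and_eq_true, decide_eq_true_eq,
    Bool.not_eq_true', decide_eq_false_iff_not]
  constructor
  · rintro ⟨⟨y, d⟩, h1, ⟨z, e⟩, h2, h3, h4⟩
    simp only at h3 h4
    subst h3
    exact ⟨y, d, e, h1, h2, h4⟩
  · rintro ⟨y, d, e, h1, h2, h3⟩
    exact ⟨(y, d), h1, (y, e), h2, rfl, h3⟩

lemma lpat_eq_some {l : List (ι × D)} (hl : consistentB l = true) (y : ι) (d : D) :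
    lpat l y = some d ↔ (y, d) ∈ l := by
  rw [consistentB_iff] at hl
  unfold lpat
  constructor
  · intro h
    rw [Option.map_eq_some_iff] at h
    obtain ⟨a, ha, rfl⟩ := h
    have h1 := List.find?_some ha
    simp only [decide_eq_true_eq] at h1
    have h2 := List.mem_of_find?_eq_some ha
    rw [← h1]; exact h2
  · intro h
    rw [Option.map_eq_some_iff]
    cases hf : l.find? (fun a => decide (a.1 = y)) with
    | none =>
      rw [List.find?_eq_none] at hf
      have := hf _ h
      simp at this
    | some a =>
      refine ⟨a, rfl, ?_⟩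
      have h1 := List.find?_some hf
      simp only [decide_eq_true_eq] at h1
      have h2 := List.mem_of_find?_eq_some hf
      exact hl _ h2 _ h h1

/-- Adjacency of vertices. -/
def adjB (v w : Kind × List (ι × D)) : Bool := !(decide (v.1.meets w.1)) || conflictB v.2 w.2

lemma adjB_comm (v w : Kind × List (ι × D)) : adjB v w = adjB w v := by
  have h : ∀ v w : Kind × List (ι × D), adjB v w = true → adjB w v = true := by
    intro v w h
    simp only [adjB, Bool.or_eq_true, Bool.not_eq_true', decide_eq_false_iff_not,
      conflictB_iff] at h ⊢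
    rcases h with h | ⟨y, d, e, h1, h2, h3⟩
    · left; rwa [Kind.meets_comm]
    · right; exact ⟨y, e, d, h2, h1, h3.symm⟩
  cases h1 : adjB v w with
  | true => exact (h v w h1).symm
  | false =>
    cases h2 : adjB w v with
    | true => rw [h w v h2] at h1; simp at h1
    | false => rfl

lemma adjB_self {v : Kind × List (ι × D)} (h : consistentB v.2 = true) : adjB v v = false := by
  rw [consistentB_iff] at h
  simp only [adjB, Bool.or_eq_false_iff, Bool.not_eq_false', decide_eq_true_eq]
  refine ⟨Kind.meets_self _, ?_⟩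
  rw [Bool.eq_false_iff]
  intro hc
  rw [conflictB_iff] at hc
  obtain ⟨y, d, e, h1, h2, h3⟩ := hc
  exact h3 (h _ h1 _ h2 rfl)

/-- The graph of a list of vertices. -/
def listGraph (L : List (Kind × List (ι × D))) (hL : ∀ v ∈ L, consistentB v.2 = true) :
    SimpleGraph (Fin L.length) where
  Adj i j := adjB (L.get i) (L.get j) = true
  symm := ⟨by intro i j h; rw [adjB_comm]; exact h⟩
  loopless := ⟨by
    intro i h
    rw [adjB_self (hL _ (List.get_mem _ _))] at h
    simp at h⟩

/-- The bits of the adjacency matrix. -/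
def bits (L : List (Kind × List (ι × D))) : List Bool := L.flatMap fun v => L.map (adjB v)

lemma length_flatMap_const {α β : Type*} (m : ℕ) : ∀ (L : List α) (f : α → List β),
    (∀ a ∈ L, (f a).length = m) → (L.flatMap f).length = L.length * m
  | [], f, _ => by simp
  | a :: L, f, h => by
    rw [List.flatMap_cons, List.length_append, h a List.mem_cons_self,
      length_flatMap_const m L f fun b hb => h b (List.mem_cons_of_mem _ hb), List.length_cons]
    ring

lemma getElem?_flatMap_const {α β : Type*} (m : ℕ) : ∀ (L : List α) (f : α → List β),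
    (∀ a ∈ L, (f a).length = m) → ∀ (i j : ℕ) (hi : i < L.length), j < m →
    (L.flatMap f)[i * m + j]? = (f L[i])[j]?
  | [], f, _, i, j, hi, hj => by simp at hi
  | a :: L, f, h, i, j, hi, hj => by
    rw [List.flatMap_cons]
    cases i with
    | zero =>
      rw [Nat.zero_mul, Nat.zero_add,
        List.getElem?_append_left (by rw [h a List.mem_cons_self]; exact hj)]
      rfl
    | succ i =>
      have h1 : (f a).length = m := h a List.mem_cons_self
      rw [List.getElem?_append_right (by rw [h1, Nat.add_mul]; omega), h1]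
      have h2 : (i + 1) * m + j - m = i * m + j := by
        rw [Nat.add_mul, Nat.one_mul]; omega
      rw [h2, getElem?_flatMap_const m L f (fun b hb => h b (List.mem_cons_of_mem _ hb)) i j
        (by simpa using hi) hj]
      rfl

lemma length_bits (L : List (Kind × List (ι × D))) : (bits L).length = L.length * L.length :=
  length_flatMap_const _ _ _ fun a _ => by simp

lemma getElem?_bits (L : List (Kind × List (ι × D))) (hL : ∀ v ∈ L, consistentB v.2 = true)
    [DecidableRel (listGraph L hL).Adj] (i j : Fin L.length) :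
    (bits L)[i.1 * L.length + j.1]? = some (decide ((listGraph L hL).Adj i j)) := by
  unfold bits
  rw [getElem?_flatMap_const L.length L (fun v => L.map (adjB v)) (fun a _ => by simp) i.1 j.1
    i.2 j.2, List.getElem?_map, List.getElem?_eq_getElem j.2, Option.map_some]
  congr 1
  have h : (listGraph L hL).Adj i j ↔ adjB L[i.1] L[j.1] = true := Iff.rfl
  by_cases h1 : adjB L[i.1] L[j.1] = true
  · rw [h1]; simp [h.2 h1]
  · have h2 : ¬ (listGraph L hL).Adj i j := fun h' => h1 (h.1 h')
    simp only [Bool.not_eq_true] at h1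
    rw [h1]; simp [h2]

/-- Constraints: a type of constraint and five variables. -/
abbrev Con (κ ι : Type*) : Type _ := κ × ι × ι × ι × ι × ι

/-- Five values. -/
abbrev Five (D : Type*) : Type _ := D × D × D × D × D

/-- The values of the variables of a constraint. -/
def vals {κ : Type*} (α : ι → D) (c : Con κ ι) : Five D :=
  (α c.2.1, α c.2.2.1, α c.2.2.2.1, α c.2.2.2.2.1, α c.2.2.2.2.2)

/-- The pattern of a constraint with given values. -/
def conPat {κ : Type*} (c : Con κ ι) (d : Five D) : List (ι × D) :=
  [(c.2.1, d.1), (c.2.2.1, d.2.1), (c.2.2.2.1, d.2.2.1), (c.2.2.2.2.1, d.2.2.2.1),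
    (c.2.2.2.2.2, d.2.2.2.2)]

/-- The vertices, before the inconsistent ones are removed. -/
def preVerts {κ : Type*} (vars : List ι) (dd : List (D × D)) (kd : List (Kind × D))
    (viol : κ → List (Five D)) (cs : List (Con κ ι)) : List (Kind × List (ι × D)) :=
  (vars.flatMap fun y => vars.flatMap fun z => dd.map fun d =>
      (Kind.w012, [(y, d.1), (z, d.2)])) ++
    ((vars.flatMap fun y => kd.map fun d => (d.1, [(y, d.2)])) ++
    (cs.flatMap fun c => (viol c.1).map fun d => (Kind.w0, conPat c d)))

/-- The vertices. -/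
def verts {κ : Type*} (vars : List ι) (dd : List (D × D)) (kd : List (Kind × D))
    (viol : κ → List (Five D)) (cs : List (Con κ ι)) : List (Kind × List (ι × D)) :=
  (preVerts vars dd kd viol cs).filter fun v => consistentB v.2

lemma verts_consistent {κ : Type*} (vars : List ι) (dd : List (D × D)) (kd : List (Kind × D))
    (viol : κ → List (Five D)) (cs : List (Con κ ι)) :
    ∀ v ∈ verts vars dd kd viol cs, consistentB v.2 = true := by
  intro v hv
  exact (List.mem_filter.1 hv).2

theorem listGraph_iff {κ : Type*} [Nonempty D] (vars : List ι) (dd : List (D × D))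
    (kd : List (Kind × D)) (viol : κ → List (Five D)) (cs : List (Con κ ι))
    (hdd : ∀ d, d ∈ dd) (hkd : ∀ k d, (k, d) ∈ kd ↔ k ≠ Kind.w012 ∧ k ≠ Kind.w0)
    (hne : vars ≠ [])
    (hcs : ∀ c ∈ cs, c.2.1 ∈ vars ∧ c.2.2.1 ∈ vars ∧ c.2.2.2.1 ∈ vars ∧ c.2.2.2.2.1 ∈ vars ∧
      c.2.2.2.2.2 ∈ vars) :
    IsTriangleGraph (listGraph (verts vars dd kd viol cs)
      (verts_consistent vars dd kd viol cs)) ↔
      ∀ α : ι → D, ∃ c ∈ cs, vals α c ∈ viol c.1 := by
  classical
  set L := verts vars dd kd viol cs with hLdef
  have hL := verts_consistent vars dd kd viol cs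
  rw [← hLdef] at hL
  -- all variables used are in `vars`
  have hvars : ∀ v ∈ L, ∀ p ∈ v.2, p.1 ∈ vars := by
    intro v hv p hp
    have h1 := (List.mem_filter.1 hv).1
    simp only [preVerts, List.mem_append, List.mem_flatMap, List.mem_map] at h1
    rcases h1 with ⟨y, hy, z, hz, d, _, rfl⟩ | ⟨y, hy, d, _, rfl⟩ | ⟨c, hc, d, _, rfl⟩
    · simp only [List.mem_cons, List.not_mem_nil, or_false] at hp
      rcases hp with rfl | rfl
      · exact hy
      · exact hz
    · simp only [List.mem_cons, List.not_mem_nil, or_false] at hp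
      rw [hp]; exact hy
    · obtain ⟨h1, h2, h3, h4, h5⟩ := hcs c hc
      simp only [conPat, List.mem_cons, List.not_mem_nil, or_false] at hp
      rcases hp with rfl | rfl | rfl | rfl | rfl
      · exact h1
      · exact h2
      · exact h3
      · exact h4
      · exact h5
  let kind : Fin L.length → Kind := fun i => (L.get i).1
  let pat : Fin L.length → {y // y ∈ vars} → Option D := fun i y => lpat (L.get i).2 y.1
  have hpat : ∀ (i : Fin L.length) (y : {y // y ∈ vars}) (d : D),
      pat i y = some d ↔ (y.1, d) ∈ (L.get i).2 := fun i y d =>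
    lpat_eq_some (hL _ (List.get_mem _ _)) _ _
  have hgraph : listGraph L hL = graph kind pat := by
    ext i j
    have h1 : (listGraph L hL).Adj i j ↔ adjB (L.get i) (L.get j) = true := Iff.rfl
    have h2 : (graph kind pat).Adj i j ↔ ¬ (kind i).meets (kind j) ∨ Conflict (pat i) (pat j) :=
      Iff.rfl
    rw [h1, h2]
    simp only [adjB, Bool.or_eq_true, Bool.not_eq_true', decide_eq_false_iff_not]
    refine or_congr Iff.rfl ?_
    rw [conflictB_iff]
    constructor
    · rintro ⟨y, d, e, h3, h4, h5⟩
      exact ⟨⟨y, hvars _ (List.get_mem _ _) _ h3⟩, d, e, (hpat _ _ _).2 h3, (hpat _ _ _).2 h4, h5⟩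
    · rintro ⟨y, d, e, h3, h4, h5⟩
      exact ⟨y.1, d, e, (hpat _ _ _).1 h3, (hpat _ _ _).1 h4, h5⟩
  rw [hgraph]
  have hagree : ∀ (i : Fin L.length) (α : {y // y ∈ vars} → D), Agrees (pat i) α ↔
      ∀ (y : {y // y ∈ vars}) (d : D), (y.1, d) ∈ (L.get i).2 → α y = d := by
    intro i α
    unfold Agrees
    refine forall_congr' fun y => forall_congr' fun d => ?_
    rw [hpat]
  -- the index of a vertex
  have hidx : ∀ v, v ∈ preVerts vars dd kd viol cs → consistentB v.2 = true →
      ∃ i : Fin L.length, L.get i = v := by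
    intro v hv hc
    have : v ∈ L := List.mem_filter.2 ⟨hv, hc⟩
    exact List.mem_iff_get.1 this
  have hne' : Nonempty {y // y ∈ vars} := by
    obtain ⟨y, hy⟩ := List.exists_mem_of_ne_nil _ hne
    exact ⟨⟨y, hy⟩⟩
  rw [isTriangleGraph_iff kind pat]
  · constructor
    · intro h α
      obtain ⟨i, hi, hag⟩ := h (fun y => α y.1)
      rw [hagree] at hag
      have h1 : L.get i ∈ L := List.get_mem _ _
      have h2 := (List.mem_filter.1 h1).1
      simp only [preVerts, List.mem_append, List.mem_flatMap, List.mem_map] at h2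
      rcases h2 with ⟨y, hy, z, hz, d, _, h3⟩ | ⟨y, hy, d, h4, h3⟩ | ⟨c, hc, d, hd, h3⟩
      · have : kind i = Kind.w012 := by
          show (L.get i).1 = _
          rw [← h3]
        rw [this] at hi
        exact absurd hi (by decide)
      · have h5 : kind i = d.1 := by
          show (L.get i).1 = _
          rw [← h3]
        have h6 := (hkd d.1 d.2).1 h4
        rw [← h5] at h6
        exact absurd hi h6.2
      · refine ⟨c, hc, ?_⟩
        obtain ⟨a1, a2, a3, a4, a5⟩ := hcs c hc
        have h4 : ∀ p ∈ conPat c d, p.1 ∈ vars → α p.1 = p.2 := by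
          intro p hp hpv
          refine hag ⟨p.1, hpv⟩ p.2 ?_
          rw [← h3]; exact hp
        have b1 := h4 (c.2.1, d.1) (by simp [conPat]) a1
        have b2 := h4 (c.2.2.1, d.2.1) (by simp [conPat]) a2
        have b3 := h4 (c.2.2.2.1, d.2.2.1) (by simp [conPat]) a3
        have b4 := h4 (c.2.2.2.2.1, d.2.2.2.1) (by simp [conPat]) a4
        have b5 := h4 (c.2.2.2.2.2, d.2.2.2.2) (by simp [conPat]) a5
        have : vals α c = d := by
          simp only [vals]
          simp only at b1 b2 b3 b4 b5
          rw [b1, b2, b3, b4, b5]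
        rw [this]; exact hd
    · intro h α
      let α' : ι → D := fun y => if hy : y ∈ vars then α ⟨y, hy⟩ else Classical.arbitrary D
      obtain ⟨c, hc, hv⟩ := h α'
      obtain ⟨a1, a2, a3, a4, a5⟩ := hcs c hc
      have hpc : ∀ p ∈ conPat c (vals α' c), α' p.1 = p.2 := by
        intro p hp
        simp only [conPat, vals, List.mem_cons, List.not_mem_nil, or_false] at hp
        rcases hp with rfl | rfl | rfl | rfl | rfl <;> rfl
      obtain ⟨i, hi⟩ := hidx (Kind.w0, conPat c (vals α' c)) (by
        simp only [preVerts, List.mem_append, List.mem_flatMap, List.mem_map]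
        exact Or.inr (Or.inr ⟨c, hc, _, hv, rfl⟩)) (by
        rw [consistentB_iff]
        intro p hp q hq hpq
        rw [← hpc p hp, ← hpc q hq, hpq])
      refine ⟨i, ?_, ?_⟩
      · show (L.get i).1 = _
        rw [hi]
      · rw [hagree]
        intro y d hyd
        rw [hi] at hyd
        have h1 := hpc _ hyd
        simp only [α', dif_pos y.2] at h1
        exact h1
  · intro α y z
    obtain ⟨i, hi⟩ := hidx (Kind.w012, [(y.1, α y), (z.1, α z)]) (by
        simp only [preVerts, List.mem_append, List.mem_flatMap, List.mem_map]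
        exact Or.inl ⟨y.1, y.2, z.1, z.2, (α y, α z), hdd _, rfl⟩) (by
        rw [consistentB_iff]
        intro p hp q hq hpq
        simp only [List.mem_cons, List.not_mem_nil, or_false] at hp hq
        rcases hp with rfl | rfl <;> rcases hq with rfl | rfl
        · rfl
        · simp only at hpq ⊢
          rw [Subtype.ext hpq]
        · simp only at hpq ⊢
          rw [Subtype.ext hpq]
        · rfl)
    refine ⟨i, ?_, ?_, ?_, ?_⟩
    · show (L.get i).1 = _
      rw [hi]
    · rw [hagree]
      intro x d hx
      rw [hi] at hx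
      simp only [List.mem_cons, List.not_mem_nil, or_false, Prod.mk.injEq] at hx
      rcases hx with ⟨h1, rfl⟩ | ⟨h1, rfl⟩
      · rw [Subtype.ext h1]
      · rw [Subtype.ext h1]
    · rw [hpat, hi]; simp
    · rw [hpat, hi]; simp
  · intro k hk1 hk2 α y
    obtain ⟨i, hi⟩ := hidx (k, [(y.1, α y)]) (by
        simp only [preVerts, List.mem_append, List.mem_flatMap, List.mem_map]
        exact Or.inr (Or.inl ⟨y.1, y.2, (k, α y), (hkd _ _).2 ⟨hk1, hk2⟩, rfl⟩)) (by
        rw [consistentB_iff]
        intro p hp q hq hpq
        simp only [List.mem_cons, List.not_mem_nil, or_false] at hp hq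
        rw [hp, hq])
    refine ⟨i, ?_, ?_, ?_⟩
    · show (L.get i).1 = _
      rw [hi]
    · rw [hagree]
      intro x d hx
      rw [hi] at hx
      simp only [List.mem_cons, List.not_mem_nil, or_false, Prod.mk.injEq] at hx
      rw [hx.2, Subtype.ext hx.1]
    · rw [hpat, hi]; simp

end lists

end Pool.Agent.Helper91.Triangle
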