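import Mathlib
import Pool.Agent.Helper91.PolyTime.Typed
import Pool.Agent.Helper91.PolyTime.CookLevin
import Pool.Agent.Helper91.PolyTime.TriangleList

/-!
# The reduction is computable in polynomial time
-/

open Turing Function Computability
open Pool.Agent.Helper91.PolyTime Pool.Agent.Helper91.CookLevin Pool.Agent.Helper91.Triangle

namespace Pool.Agent.Helper91.Reduction

/-- Finite types have encodings. -/
@[instance_reducible] noncomputable def finEnc (δ : Type*) [Finite δ] : PEnc δ :=
  ⟨fun x => List.replicate (Finite.equivFin δ x) true, fun a b h => by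
    have := congrArg List.length h
    simp only [List.length_replicate] at this
    exact (Finite.equivFin δ).injective (Fin.ext this)⟩

noncomputable instance instPEncD (tm : FinTM2) : PEnc (D tm) := finEnc _
noncomputable instance instPEncCType : PEnc CType := finEnc _
noncomputable instance instPEncKind : PEnc Kind := finEnc _

noncomputable instance instDecEqD (tm : FinTM2) : DecidableEq (D tm) := Classical.decEq _

/-- Variables: cells of the table. -/
abbrev Var : Type := ℕ × ℕ

/-- The cells with coordinates below `n`. -/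
def grid (n : ℕ) : List Var := (List.range n).flatMap fun t => (List.range n).map fun i => (t, i)

lemma mem_grid {n : ℕ} {v : Var} : v ∈ grid n ↔ v.1 < n ∧ v.2 < n := by
  obtain ⟨t, i⟩ := v
  simp [grid]

/-- The constraints. -/
def cons (P N : ℕ) (x : List Bool) : List (Con CType Var) :=
  ((grid N).map fun v => (CType.trans (decide (v.2 = 0)), (v.1 + 1, v.2), (v.1, 0), (v.1, v.2 - 1),
    (v.1, v.2), (v.1, v.2 + 1))) ++
  (((List.range (N + 1)).map fun i => (initType x P i, (0, i), (0, i), (0, i), (0, i), (0, i))) ++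
  ((((List.range N).filter fun i => decide (x.length ≤ i)).map fun i =>
    (CType.contig, (0, i), (0, i + 1), (0, i), (0, i), (0, i))) ++
  [(CType.final, (N, 0), (N, 0), (N, 0), (N, 0), (N, 0))]))

section

variable (M : TM2ComputableAux (Bool ⊕ Bool) Bool)

/-- The constraint on five values. -/
def okF (c : CType) (d : Five (D M.tm)) : Prop :=
  ok M c d.1.1 d.2.1.1 d.2.2.1.1 d.2.2.2.1.1 d.2.2.2.2.1

lemma sat_iff_cons (x : List Bool) (P N : ℕ) (α : Var → D M.tm) :
    Sat M x P N α ↔ ∀ c ∈ cons P N x, okF M c.1 (vals α c) := by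
  unfold Sat cons
  simp only [List.mem_append, List.mem_map, List.mem_filter, List.mem_range, decide_eq_true_eq,
    List.mem_cons, List.not_mem_nil, or_false]
  constructor
  · rintro ⟨h1, h2, h3, h4⟩ c (⟨v, hv, rfl⟩ | ⟨i, hi, rfl⟩ | ⟨i, ⟨hi, hi'⟩, rfl⟩ | rfl)
    · rw [mem_grid] at hv
      exact h1 v.1 hv.1 v.2 hv.2
    · exact h2 i (by omega)
    · exact h3 i hi hi'
    · exact h4
  · intro h
    refine ⟨?_, ?_, ?_, ?_⟩
    · intro t ht i hi
      exact h _ (Or.inl ⟨(t, i), mem_grid.2 ⟨ht, hi⟩, rfl⟩)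
    · intro i hi
      exact h _ (Or.inr (Or.inl ⟨i, by omega, rfl⟩))
    · intro i hi hi'
      exact h _ (Or.inr (Or.inr (Or.inl ⟨i, ⟨hi, hi'⟩, rfl⟩)))
    · exact h _ (Or.inr (Or.inr (Or.inr rfl)))

/-- The violating values of a constraint. -/
noncomputable def viol (c : CType) : List (Five (D M.tm)) :=
  haveI : Fintype (Five (D M.tm)) := Fintype.ofFinite _
  haveI := Classical.decPred (fun d : Five (D M.tm) => okF M c d)
  Finset.univ.toList.filter fun d => decide (¬ okF M c d)

lemma mem_viol (c : CType) (d : Five (D M.tm)) : d ∈ viol M c ↔ ¬ okF M c d := by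
  unfold viol
  rw [List.mem_filter]
  simp

/-- All pairs of values. -/
noncomputable def allDD : List (D M.tm × D M.tm) :=
  haveI : Fintype (D M.tm × D M.tm) := Fintype.ofFinite _
  Finset.univ.toList

lemma mem_allDD (d : D M.tm × D M.tm) : d ∈ allDD M := by
  unfold allDD; simp

/-- All pairs of a kind (apart from two) and a value. -/
noncomputable def allKD : List (Kind × D M.tm) :=
  haveI : Fintype (Kind × D M.tm) := Fintype.ofFinite _
  Finset.univ.toList.filter fun d => decide (d.1 ≠ Kind.w012) && decide (d.1 ≠ Kind.w0)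

lemma mem_allKD (k : Kind) (d : D M.tm) : (k, d) ∈ allKD M ↔ k ≠ Kind.w012 ∧ k ≠ Kind.w0 := by
  unfold allKD; rw [List.mem_filter]; simp

/-- The vertices of the graph of an input. -/
noncomputable def vertices (P N : ℕ) (x : List Bool) : List (Kind × List (Var × D M.tm)) :=
  verts (grid (N + 1)) (allDD M) (allKD M) (viol M) (cons P N x)

lemma vertices_consistent (P N : ℕ) (x : List Bool) :
    ∀ v ∈ vertices M P N x, consistentB v.2 = true := verts_consistent _ _ _ _ _

instance : Nonempty (D M.tm) := ⟨tableD [] (0, 0)⟩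

theorem vertices_iff (P N : ℕ) (x : List Bool) :
    IsTriangleGraph (listGraph (vertices M P N x) (vertices_consistent M P N x)) ↔
      ¬ ∃ α : Var → D M.tm, Sat M x P N α := by
  unfold vertices
  rw [listGraph_iff]
  · push Not
    refine forall_congr' fun α => ?_
    rw [sat_iff_cons]
    push Not
    refine exists_congr fun c => and_congr_right fun _ => ?_
    rw [mem_viol]
  · exact mem_allDD M
  · exact mem_allKD M
  · intro h
    have h1 : ((0, 0) : Var) ∈ grid (N + 1) := mem_grid.2 ⟨by simp, by simp⟩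
    rw [h] at h1
    simp at h1
  · intro c hc
    simp only [cons, List.mem_append, List.mem_map, List.mem_filter, List.mem_range,
      decide_eq_true_eq, List.mem_cons, List.not_mem_nil, or_false] at hc
    simp only [mem_grid]
    rcases hc with ⟨v, hv, rfl⟩ | ⟨i, hi, rfl⟩ | ⟨i, ⟨hi, hi'⟩, rfl⟩ | rfl
    · rw [mem_grid] at hv
      simp only
      omega
    · simp only; omega
    · simp only; omega
    · simp only; omega

end

/-! ### Polynomial-time computability -/

section ptime

variable {α : Type*} [PEnc α]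

lemma ptf_grid {f : α → ℕ} (hf : PTF f) : PTF (fun a => grid (f a)) := by
  unfold grid
  refine PTF.flatMap (PTF.range hf) ?_
  exact PTF.map (PTF.range (hf.comp PTF.id.fst)) (PTF.pair PTF.id.fst.snd PTF.id.snd)

lemma ptf_initType {x : α → List Bool} {P i : α → ℕ} (hx : PTF x) (hP : PTF P) (hi : PTF i) :
    PTF (fun a => initType (x a) (P a) (i a)) := by
  have h := PTF.optCase (n := fun a => if i a < (x a).length + P a then CType.free
    else CType.blank) (s := fun (_ : α) (b : Bool) => CType.fixed b) (PTF.getElem? hi hx)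
    (PTF.ite (PTF.lt hi (PTF.add (PTF.length hx) hP)) (PTF.const _) (PTF.const _))
    ((PTF.ofFinite (fun b : Bool => CType.fixed b)).comp PTF.id.snd)
  refine h.of_eq fun a => ?_
  unfold initType
  cases (x a)[i a]? <;> rfl

lemma ptf_cons {x : α → List Bool} {P N : α → ℕ} (hx : PTF x) (hP : PTF P) (hN : PTF N) :
    PTF (fun a => cons (P a) (N a) (x a)) := by
  unfold cons
  refine PTF.append ?_ (PTF.append ?_ (PTF.append ?_ ?_))
  · refine PTF.map (ptf_grid hN) ?_
    have h1 : PTF (fun p : α × Var => p.2.1) := PTF.id.snd.fst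
    have h2 : PTF (fun p : α × Var => p.2.2) := PTF.id.snd.snd
    have h0 : PTF (fun _ : α × Var => (0 : ℕ)) := PTF.const 0
    refine PTF.pair ?_ (PTF.pair (PTF.pair (PTF.succ h1) h2) (PTF.pair (PTF.pair h1 h0)
      (PTF.pair (PTF.pair h1 (PTF.pred h2)) (PTF.pair (PTF.pair h1 h2)
      (PTF.pair h1 (PTF.succ h2))))))
    exact (PTF.ofFinite (fun b : Bool => CType.trans b)).comp (PTF.isZero h2)
  · refine PTF.map (PTF.range (PTF.succ hN)) ?_
    have h1 : PTF (fun p : α × ℕ => p.2) := PTF.id.snd
    have h0 : PTF (fun _ : α × ℕ => (0 : ℕ)) := PTF.const 0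
    have h01 := PTF.pair h0 h1
    refine PTF.pair ?_ (PTF.pair h01 (PTF.pair h01 (PTF.pair h01 (PTF.pair h01 h01))))
    exact ptf_initType (hx.comp PTF.id.fst) (hP.comp PTF.id.fst) h1
  · refine PTF.map (PTF.filter (PTF.range hN) ?_) ?_
    · exact PTF.le (PTF.length (hx.comp PTF.id.fst)) PTF.id.snd
    · have h1 : PTF (fun p : α × ℕ => p.2) := PTF.id.snd
      have h0 : PTF (fun _ : α × ℕ => (0 : ℕ)) := PTF.const 0
      have h01 := PTF.pair h0 h1
      exact PTF.pair (PTF.const _) (PTF.pair h01 (PTF.pair (PTF.pair h0 (PTF.succ h1))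
        (PTF.pair h01 (PTF.pair h01 h01))))
  · have hN0 : PTF (fun a => (N a, (0 : ℕ))) := PTF.pair hN (PTF.const 0)
    exact PTF.cons (PTF.pair (PTF.const _) (PTF.pair hN0 (PTF.pair hN0 (PTF.pair hN0
      (PTF.pair hN0 hN0))))) (PTF.const [])

section lists

variable {ι D : Type*} [DecidableEq ι] [DecidableEq D] [PEnc ι] [PEnc D]

omit [DecidableEq ι] [DecidableEq D] in
lemma ptf_conPat {κ : Type*} [PEnc κ] {c : α → Con κ ι} {d : α → Five D} (hc : PTF c)
    (hd : PTF d) : PTF (fun a => conPat (c a) (d a)) := by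
  unfold conPat
  exact PTF.cons (PTF.pair hc.snd.fst hd.fst)
    (PTF.cons (PTF.pair hc.snd.snd.fst hd.snd.fst)
    (PTF.cons (PTF.pair hc.snd.snd.snd.fst hd.snd.snd.fst)
    (PTF.cons (PTF.pair hc.snd.snd.snd.snd.fst hd.snd.snd.snd.fst)
    (PTF.cons (PTF.pair hc.snd.snd.snd.snd.snd hd.snd.snd.snd.snd) (PTF.const [])))))

lemma ptf_consistentB {l : α → List (ι × D)} (hl : PTF l) :
    PTF (fun a => consistentB (l a)) := by
  unfold consistentB
  refine PTF.all hl (PTF.all (hl.comp PTF.id.fst) ?_)
  exact PTF.or (PTF.not (PTF.eq PTF.id.fst.snd.fst PTF.id.snd.fst))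
    (PTF.eq PTF.id.fst.snd.snd PTF.id.snd.snd)

lemma ptf_conflictB {l m : α → List (ι × D)} (hl : PTF l) (hm : PTF m) :
    PTF (fun a => conflictB (l a) (m a)) := by
  unfold conflictB
  refine PTF.any hl (PTF.any (hm.comp PTF.id.fst) ?_)
  exact PTF.and (PTF.eq PTF.id.fst.snd.fst PTF.id.snd.fst)
    (PTF.not (PTF.eq PTF.id.fst.snd.snd PTF.id.snd.snd))

lemma ptf_adjB {v w : α → Kind × List (ι × D)} (hv : PTF v) (hw : PTF w) :
    PTF (fun a => adjB (v a) (w a)) := by
  unfold adjB
  refine PTF.or (PTF.not ?_) (ptf_conflictB hv.snd hw.snd)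
  exact (PTF.ofFinite (fun k : Kind × Kind => decide (k.1.meets k.2))).comp
    (PTF.pair hv.fst hw.fst)

lemma ptf_bits {L : α → List (Kind × List (ι × D))} (hL : PTF L) :
    PTF (fun a => bits (L a)) := by
  unfold bits
  refine PTF.flatMap hL ?_
  exact PTF.map (hL.comp PTF.id.fst) (ptf_adjB PTF.id.fst.snd PTF.id.snd)

omit [DecidableEq ι] [DecidableEq D] in
lemma ptf_preVerts {κ : Type*} [Finite κ] [PEnc κ] {vars : α → List ι} {dd : List (D × D)}
    {kd : List (Kind × D)} {viol : κ → List (Five D)} {cs : α → List (Con κ ι)}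
    (hvars : PTF vars) (hcs : PTF cs) : PTF (fun a => preVerts (vars a) dd kd viol (cs a)) := by
  unfold preVerts
  refine PTF.append ?_ (PTF.append ?_ ?_)
  · refine PTF.flatMap hvars (PTF.flatMap (hvars.comp PTF.id.fst) (PTF.map (PTF.const _) ?_))
    exact PTF.pair (PTF.const _) (PTF.cons (PTF.pair PTF.id.fst.fst.snd PTF.id.snd.fst)
      (PTF.cons (PTF.pair PTF.id.fst.snd PTF.id.snd.snd) (PTF.const [])))
  · refine PTF.flatMap hvars (PTF.map (PTF.const _) ?_)
    exact PTF.pair PTF.id.snd.fst (PTF.cons (PTF.pair PTF.id.fst.snd PTF.id.snd.snd)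
      (PTF.const []))
  · refine PTF.flatMap hcs (PTF.map ?_ ?_)
    · exact (PTF.ofFinite viol).comp PTF.id.snd.fst
    · exact PTF.pair (PTF.const _) (ptf_conPat PTF.id.fst.snd PTF.id.snd)

lemma ptf_verts {κ : Type*} [Finite κ] [PEnc κ] {vars : α → List ι} {dd : List (D × D)}
    {kd : List (Kind × D)} {viol : κ → List (Five D)} {cs : α → List (Con κ ι)}
    (hvars : PTF vars) (hcs : PTF cs) : PTF (fun a => verts (vars a) dd kd viol (cs a)) := by
  unfold verts
  exact PTF.filter (ptf_preVerts hvars hcs) (ptf_consistentB PTF.id.snd.snd)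

end lists

lemma ptf_vertices (M : TM2ComputableAux (Bool ⊕ Bool) Bool) {x : α → List Bool} {P N : α → ℕ}
    (hx : PTF x) (hP : PTF P) (hN : PTF N) :
    PTF (fun a => vertices M (P a) (N a) (x a)) := by
  unfold vertices
  exact ptf_verts (ptf_grid (PTF.succ hN)) (ptf_cons hx hP hN)

end ptime

end Pool.Agent.Helper91.Reduction
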